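import Pool.Agent.Q40.FC.PM

/-! Charts: polynomial rings over charts of the projective model, and the descent of smoothness. -/

set_option autoImplicit false
set_option linter.unusedSectionVars false

universe u

open Finset

namespace Pool.Agent.Q40.FC

open Pool.Agent.W558 Pool.Agent.Q40.RS Pool.Agent.Q40.FF

section smooth

variable {k E L : Type u} [Field k] [Field E] [Field L] [Algebra k E] [Algebra k L]
  [Algebra E L] [IsScalarTower k E L]

/-- Adjoining functions which are regular or have regular inverses. -/
theorem smooth_adjoin_inv (C : Subalgebra k E) (hC : Algebra.Smooth k C) (Z : Finset E)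
    (hZ0 : ∀ z ∈ Z, z ≠ 0) (hZ : ∀ z ∈ Z, z ∈ C ∨ z⁻¹ ∈ C) :
    Algebra.Smooth k (C ⊔ Algebra.adjoin k (Z : Set E) : Subalgebra k E) := by
  classical
  induction Z using Finset.induction_on with
  | empty =>
    have h1 : C ⊔ Algebra.adjoin k ((∅ : Finset E) : Set E) = C := by simp
    rw [h1]
    exact hC
  | insert z Z _ ih =>
    have ih' := ih (fun z hz => hZ0 z (Finset.mem_insert_of_mem hz))
      (fun z hz => hZ z (Finset.mem_insert_of_mem hz))
    set D := C ⊔ Algebra.adjoin k (Z : Set E) with hD
    have h1 : C ⊔ Algebra.adjoin k ((insert z Z : Finset E) : Set E) = adj D z := by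
      apply le_antisymm
      · refine sup_le ?_ ?_
        · exact le_trans le_sup_left (le_adj D z)
        · refine Algebra.adjoin_le fun x hx => ?_
          rw [Finset.coe_insert] at hx
          rcases hx with rfl | hx
          · exact self_mem_adj _ _
          · exact le_adj D z ((le_sup_right : _ ≤ D) (Algebra.subset_adjoin hx))
      · intro x hx
        refine adj_induction D z (p := fun x => x ∈ C ⊔ Algebra.adjoin k
          ((insert z Z : Finset E) : Set E)) ?_ (fun a b ha hb => Subalgebra.add_mem _ ha hb)
          (fun a ha => Subalgebra.mul_mem _ ha ?_) x hx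
        · intro a ha
          refine (sup_le_sup_left (Algebra.adjoin_mono ?_) C : D ≤ _) ha
          rw [Finset.coe_insert]
          exact Set.subset_insert _ _
        · have h2 : z ∈ Algebra.adjoin k ((insert z Z : Finset E) : Set E) :=
            Algebra.subset_adjoin (by rw [Finset.coe_insert]; exact Set.mem_insert _ _)
          exact (le_sup_right : _ ≤ C ⊔ Algebra.adjoin k ((insert z Z : Finset E) : Set E)) h2
    rw [h1]
    rcases hZ z (Finset.mem_insert_self _ _) with h | h
    · have h2 : adj D z = D := by
        apply le_antisymm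
        · intro x hx
          have hzD : z ∈ D := (le_sup_left : C ≤ D) h
          exact adj_induction D z (p := fun x => x ∈ D) (fun a ha => ha)
            (fun a b ha hb => D.add_mem ha hb) (fun a ha => D.mul_mem ha hzD) x hx
        · exact le_adj D z
      rw [h2]
      exact ih'
    · have hzD : z⁻¹ ∈ D := (le_sup_left : C ≤ D) h
      have h3 := smooth_adj_inv (A := D) hzD (inv_ne_zero (hZ0 z (Finset.mem_insert_self _ _)))
      rwa [inv_inv] at h3

/-- Polynomial rings over a smooth subalgebra. -/
theorem smooth_poly (D : Subalgebra k E) [Algebra.Smooth k D] {r : ℕ} (x : Fin r → L)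
    (hx : AlgebraicIndependent E x) :
    Algebra.Smooth k (mulA D (Algebra.adjoin k (Set.range x))) := by
  classical
  have t1 : IsScalarTower k D L := inferInstance
  have t2 : IsScalarTower D E L := inferInstance
  have hx' : AlgebraicIndependent D x := hx.restrictScalars Subtype.val_injective
  let Φ : MvPolynomial (Fin r) D →ₐ[k] L := (MvPolynomial.aeval (R := D) x).restrictScalars k
  have hinj : Function.Injective Φ := hx'
  have h1 : Algebra.Smooth D (MvPolynomial (Fin r) D) := ⟨inferInstance, inferInstance⟩
  have hS : Algebra.Smooth k (MvPolynomial (Fin r) D) :=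
    Algebra.Smooth.comp k D (MvPolynomial (Fin r) D)
  have hr : Φ.range = mulA D (Algebra.adjoin k (Set.range x)) := by
    apply le_antisymm
    · rintro _ ⟨P, rfl⟩
      change MvPolynomial.aeval (R := D) x P ∈ _
      induction P using MvPolynomial.induction_on with
      | C a =>
        rw [MvPolynomial.aeval_C]
        exact le_mulA _ a.2
      | add a b ha hb => rw [map_add]; exact Subalgebra.add_mem _ ha hb
      | mul_X a j ha =>
        rw [map_mul, MvPolynomial.aeval_X]
        exact Subalgebra.mul_mem _ ha (le_mulA' _ (Algebra.subset_adjoin ⟨j, rfl⟩))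
    · refine mulA_le ?_ ?_
      · intro a ha
        refine ⟨MvPolynomial.C ⟨a, ha⟩, ?_⟩
        change MvPolynomial.aeval (R := D) x _ = _
        rw [MvPolynomial.aeval_C]
        rfl
      · refine Algebra.adjoin_le ?_
        rintro _ ⟨j, rfl⟩
        refine ⟨MvPolynomial.X j, ?_⟩
        change MvPolynomial.aeval (R := D) x _ = _
        rw [MvPolynomial.aeval_X]
  have e : (MvPolynomial (Fin r) D) ≃ₐ[k] Φ.range := AlgEquiv.ofInjective Φ hinj
  rw [← hr]
  exact Algebra.Smooth.of_equiv e

/-- Descent of smoothness to a subalgebra `A` of `M` if `M` is generated by `A` and an element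
which is integral of degree `q` and whose powers are linearly independent over `A`. -/
theorem smooth_of_pow [PerfectField k] (p : ℕ) [Fact p.Prime] [CharP k p]
    (M A : Subalgebra k L) [Algebra.Smooth k M] (hAM : A ≤ M) (y : L) (hy : y ∈ M)
    (P : Polynomial A) (hP : P.Monic) (hPy : (P.map A.val.toRingHom).eval y = 0)
    (hgen : ∀ x ∈ M, x ∈ Algebra.adjoin k ((A : Set L) ∪ {y}))
    (hind : ∀ f : Fin P.natDegree → L, (∀ h, f h ∈ A) → ∑ h, f h * y ^ (h : ℕ) = 0 →
      ∀ h, f h = 0) : Algebra.Smooth k A := by
  classical
  let _ : Algebra A M := (Subalgebra.inclusion hAM).toRingHom.toAlgebra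
  have t3 : IsScalarTower k A M := IsScalarTower.of_algebraMap_eq fun x => rfl
  let y' : M := ⟨y, hy⟩
  have hPy' : Polynomial.aeval y' P = 0 := by
    apply Subtype.ext
    have h1 : (M.val.toRingHom).comp (algebraMap A M) = A.val.toRingHom := rfl
    have h2 := Polynomial.hom_eval₂ P (algebraMap A M) M.val.toRingHom y'
    rw [h1, ← Polynomial.eval_map (f := A.val.toRingHom)] at h2
    exact h2.trans hPy
  have hlin : LinearIndependent A fun h : Fin P.natDegree => y' ^ (h : ℕ) := by
    rw [Fintype.linearIndependent_iff]
    intro f hf h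
    have h1 : ∑ h, ((f h : A) : L) * y ^ (h : ℕ) = 0 := by
      have h2 := congrArg (Subtype.val : M → L) hf
      rw [AddSubmonoidClass.coe_finsetSum] at h2
      exact h2
    exact Subtype.ext (hind (fun h => (f h : L)) (fun h => (f h).2) h1 h)
  have hspan : ⊤ ≤ Submodule.span A (Set.range fun h : Fin P.natDegree => y' ^ (h : ℕ)) := by
    have h1 := Submodule.span_range_natDegree_eq_adjoin hP hPy'
    have h2 : (Set.range fun h : Fin P.natDegree => y' ^ (h : ℕ)) =
        ((Finset.image (y' ^ ·) (Finset.range P.natDegree) : Finset M) : Set M) := by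
      ext z
      simp only [Set.mem_range, Finset.coe_image, Finset.coe_range, Set.mem_image, Set.mem_Iio]
      constructor
      · rintro ⟨h, rfl⟩; exact ⟨h, h.2, rfl⟩
      · rintro ⟨h, h3, rfl⟩; exact ⟨⟨h, h3⟩, rfl⟩
    have h5 : Submodule.span A ((Finset.image (y' ^ ·) (Finset.range P.natDegree) : Finset M) :
        Set M) = Subalgebra.toSubmodule (Algebra.adjoin A {y'}) := by
      rw [← h1]
      congr 2
      ext
      simp
    rw [h2, h5]
    intro z _
    rw [Subalgebra.mem_toSubmodule]
    have h3 := hgen z.1 z.2
    have h4 : ∀ x ∈ Algebra.adjoin k ((A : Set L) ∪ {y}),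
        ∃ w ∈ Algebra.adjoin A ({y'} : Set M), (w : L) = x := by
      intro x hx
      induction hx using Algebra.adjoin_induction with
      | mem x hx =>
        rcases hx with hx | hx
        · exact ⟨algebraMap A M ⟨x, hx⟩, Subalgebra.algebraMap_mem _ _, rfl⟩
        · exact ⟨y', Algebra.subset_adjoin rfl, (Set.mem_singleton_iff.1 hx).symm⟩
      | algebraMap r =>
        exact ⟨algebraMap A M (algebraMap k A r), Subalgebra.algebraMap_mem _ _, rfl⟩
      | add a b _ _ ha hb =>
        obtain ⟨a', ha, rfl⟩ := ha
        obtain ⟨b', hb, rfl⟩ := hb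
        exact ⟨a' + b', Subalgebra.add_mem _ ha hb, rfl⟩
      | mul a b _ _ ha hb =>
        obtain ⟨a', ha, rfl⟩ := ha
        obtain ⟨b', hb, rfl⟩ := hb
        exact ⟨a' * b', Subalgebra.mul_mem _ ha hb, rfl⟩
    obtain ⟨w, hw, hwz⟩ := h4 _ h3
    rwa [← Subtype.ext hwz]
  exact smooth_descent p (Module.Basis.mk hlin hspan)

end smooth

end Pool.Agent.Q40.FC
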