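import Pool.Agent.Q40.FC.Group

/-! Constant relations: sections of group schemes and matrix groups. -/

set_option autoImplicit false
set_option linter.unusedSectionVars false

universe u

open Finset TensorProduct

namespace Pool.Agent.Q40.FC

section defs

variable (R B : Type*) [CommRing R] [CommRing B] [Algebra R B] (G : Type*) [Group G]
  [MulSemiringAction G B]

/-- The finite equivalence relation defined by the action of `G` on `X = Spec B` is constant over
`S = Spec R`: the schematic image of `G × X → X ×_S X`, whose coordinate ring is the algebra of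
functions `G → B` generated over `B` by the orbit maps `g ↦ g • b`, is the base change to `X` of a
finite scheme over `S`, that is, it is generated by functions `G → R`. -/
def IsConstantRelation : Prop :=
  ∃ V : Set (G → R), Algebra.adjoin B (Set.range fun (b : B) (g : G) => g • b) =
    Algebra.adjoin B ((fun (v : G → R) (g : G) => algebraMap R B (v g)) '' V)

variable {R B G}

/-- the orbit maps -/
def orb (R : Type*) {B : Type*} [CommRing R] [CommRing B] [Algebra R B] (G : Type*) [Group G]
    [MulSemiringAction G B] [SMulCommClass G R B] : B →ₐ[R] (G → B) where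
  toFun b g := g • b
  map_one' := funext fun g => smul_one g
  map_mul' a b := funext fun g => smul_mul' g a b
  map_zero' := funext fun g => smul_zero g
  map_add' a b := funext fun g => smul_add g a b
  commutes' r := funext fun g => smul_algebraMap g r

theorem span_of_constant [SMulCommClass G R B] (h : IsConstantRelation R B G) :
    ∃ V : Set (G → R), Submodule.span B (Set.range fun (b : B) (g : G) => g • b) =
      Submodule.span B ((fun (v : G → R) (g : G) => algebraMap R B (v g)) '' V) := by
  obtain ⟨V, hV⟩ := h
  refine ⟨Submonoid.closure V, ?_⟩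
  have h1 : (Submonoid.closure (Set.range fun (b : B) (g : G) => g • b) : Set (G → B)) =
      Set.range fun (b : B) (g : G) => g • b := by
    apply le_antisymm
    · intro w hw
      have h2 : Submonoid.closure (Set.range fun (b : B) (g : G) => g • b) ≤
          MonoidHom.mrange ((orb R G : B →ₐ[R] (G → B)) : B →* (G → B)) := by
        rw [Submonoid.closure_le]
        rintro _ ⟨b, rfl⟩
        exact ⟨b, rfl⟩
      obtain ⟨b, rfl⟩ := h2 hw
      exact ⟨b, rfl⟩
    · exact Submonoid.subset_closure
  let ι : (G → R) →* (G → B) :=
    { toFun := fun v g => algebraMap R B (v g)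
      map_one' := funext fun g => map_one _
      map_mul' := fun v w => funext fun g => map_mul _ _ _ }
  have h2 : (Submonoid.closure ((fun (v : G → R) (g : G) => algebraMap R B (v g)) '' V) :
      Set (G → B)) = (fun (v : G → R) (g : G) => algebraMap R B (v g)) ''
        (Submonoid.closure V : Set (G → R)) := by
    have h3 := MonoidHom.map_mclosure ι V
    have h4 := congrArg (fun S : Submonoid (G → B) => (S : Set (G → B))) h3
    exact h4.symm
  have h3 := congrArg Subalgebra.toSubmodule hV
  rw [Algebra.adjoin_eq_span, Algebra.adjoin_eq_span, h1, h2] at h3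
  exact h3

end defs

section hopf

variable {R B : Type*} [CommRing R] [CommRing B] [HopfAlgebra R B] {G : Type*} [Group G]
  [MulSemiringAction G B] [SMulCommClass G R B]

/-- translations by sections of a group scheme -/
theorem constant_of_hopf (h : ∀ (g : G) (b : B), Coalgebra.comul (R := R) (g • b) =
      TensorProduct.map (DistribSMul.toLinearMap R B g) LinearMap.id (Coalgebra.comul (R := R) b)) :
    IsConstantRelation R B G := by
  refine ⟨Set.range fun (b : B) (g : G) => Coalgebra.counit (R := R) (g • b), ?_⟩
  set V := Set.range fun (b : B) (g : G) => Coalgebra.counit (R := R) (g • b) with hV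
  apply le_antisymm
  · refine Algebra.adjoin_le ?_
    rintro _ ⟨b, rfl⟩
    -- the first formula
    have key : ∀ z : B ⊗[R] B, (fun g : G => TensorProduct.lid R B
        (TensorProduct.map (Coalgebra.counit (R := R)) LinearMap.id
        (TensorProduct.map (DistribSMul.toLinearMap R B g) LinearMap.id z))) ∈
        Algebra.adjoin B ((fun (v : G → R) (g : G) => algebraMap R B (v g)) '' V) := by
      intro z
      induction z using TensorProduct.induction_on with
      | zero =>
        simp only [map_zero]
        exact Subalgebra.zero_mem _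
      | tmul x y =>
        have h1 : (fun g : G => TensorProduct.lid R B
          (TensorProduct.map (Coalgebra.counit (R := R)) LinearMap.id
          (TensorProduct.map (DistribSMul.toLinearMap R B g) LinearMap.id (x ⊗ₜ[R] y)))) =
          y • (fun g : G => algebraMap R B (Coalgebra.counit (R := R) (g • x))) := by
          funext g
          simp only [TensorProduct.map_tmul, LinearMap.id_coe, id_eq, TensorProduct.lid_tmul,
            Pi.smul_apply, smul_eq_mul, DistribSMul.toLinearMap_apply]
          rw [Algebra.smul_def, mul_comm]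
        rw [h1]
        have h0 : (fun g : G => algebraMap R B (Coalgebra.counit (R := R) (g • x))) ∈
            Algebra.adjoin B ((fun (v : G → R) (g : G) => algebraMap R B (v g)) '' V) :=
          Algebra.subset_adjoin ⟨_, ⟨x, rfl⟩, rfl⟩
        exact Subalgebra.smul_mem _ h0 y
      | add x y hx hy =>
        have := Subalgebra.add_mem _ hx hy
        simp only [map_add]
        exact this
    have h2 := key (Coalgebra.comul (R := R) b)
    have h3 : (fun g : G => TensorProduct.lid R B
        (TensorProduct.map (Coalgebra.counit (R := R)) LinearMap.id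
        (TensorProduct.map (DistribSMul.toLinearMap R B g) LinearMap.id
          (Coalgebra.comul (R := R) b)))) = fun g => g • b := by
      funext g
      rw [← h g b]
      have h4 := Coalgebra.rTensor_counit_comul (R := R) (g • b)
      have h5 : TensorProduct.map (Coalgebra.counit (R := R)) LinearMap.id
          (Coalgebra.comul (R := R) (g • b)) = 1 ⊗ₜ (g • b) := h4
      rw [h5, TensorProduct.lid_tmul, one_smul]
    rw [h3] at h2
    exact h2
  · refine Algebra.adjoin_le ?_
    rintro _ ⟨_, ⟨b, rfl⟩, rfl⟩
    have key : ∀ z : B ⊗[R] B, (fun g : G => LinearMap.mul' R B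
        (TensorProduct.map LinearMap.id (HopfAlgebra.antipode R)
        (TensorProduct.map (DistribSMul.toLinearMap R B g) LinearMap.id z))) ∈
        Algebra.adjoin B (Set.range fun (b : B) (g : G) => g • b) := by
      intro z
      induction z using TensorProduct.induction_on with
      | zero =>
        simp only [map_zero]
        exact Subalgebra.zero_mem _
      | tmul x y =>
        have h1 : (fun g : G => LinearMap.mul' R B
          (TensorProduct.map LinearMap.id (HopfAlgebra.antipode R)
          (TensorProduct.map (DistribSMul.toLinearMap R B g) LinearMap.id (x ⊗ₜ[R] y)))) =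
          (HopfAlgebra.antipode R y) • (fun g : G => g • x) := by
          funext g
          simp only [TensorProduct.map_tmul, LinearMap.id_coe, id_eq, LinearMap.mul'_apply,
            Pi.smul_apply, smul_eq_mul, DistribSMul.toLinearMap_apply]
          rw [mul_comm]
        rw [h1]
        have h0 : (fun g : G => g • x) ∈
            Algebra.adjoin B (Set.range fun (b : B) (g : G) => g • b) :=
          Algebra.subset_adjoin ⟨x, rfl⟩
        exact Subalgebra.smul_mem _ h0 _
      | add x y hx hy =>
        have := Subalgebra.add_mem _ hx hy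
        simp only [map_add]
        exact this
    have h2 := key (Coalgebra.comul (R := R) b)
    have h3 : (fun g : G => LinearMap.mul' R B
        (TensorProduct.map LinearMap.id (HopfAlgebra.antipode R)
        (TensorProduct.map (DistribSMul.toLinearMap R B g) LinearMap.id
          (Coalgebra.comul (R := R) b)))) =
        fun g => algebraMap R B (Coalgebra.counit (R := R) (g • b)) := by
      funext g
      rw [← h g b]
      exact HopfAlgebra.mul_antipode_lTensor_comul_apply (R := R) (g • b)
    rw [h3] at h2
    exact h2

end hopf

section matrix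

variable {R B : Type*} [CommRing R] [CommRing B] [Algebra R B] {G : Type*} [Group G]
  [MulSemiringAction G B] [SMulCommClass G R B]

/-- closed subschemes of `GL_n` which are stable under a finite group of matrices -/
theorem constant_of_matrix {n : ℕ} (X : Matrix.GeneralLinearGroup (Fin n) B)
    (u : G →* Matrix.GeneralLinearGroup (Fin n) R)
    (hX : Algebra.adjoin R ({x | ∃ i j, x = X i j} ∪ {x | ∃ i j, x = X⁻¹ i j}) = (⊤ : Subalgebra R B))
    (hact : ∀ (g : G) i j, g • X i j = ∑ l, X i l * algebraMap R B (u g l j)) :
    IsConstantRelation R B G := by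
  classical
  have hmul : ∀ (x y : B) (g : G), g • (x * y) = g • x * g • y := fun x y g => smul_mul' g x y
  -- the action on the inverse matrix
  have hXX : ∀ i j, ∑ l, X i l * X⁻¹ l j = if i = j then 1 else 0 := by
    intro i j
    have h1 : ((X * X⁻¹ : Matrix.GeneralLinearGroup (Fin n) B) : Matrix (Fin n) (Fin n) B) = 1 := by
      rw [mul_inv_cancel]; rfl
    have h2 := congrFun (congrFun h1 i) j
    rw [Matrix.one_apply] at h2
    rw [← h2]
    rfl
  have hXX' : ∀ i j, ∑ l, X⁻¹ i l * X l j = if i = j then 1 else 0 := by
    intro i j
    have h1 : ((X⁻¹ * X : Matrix.GeneralLinearGroup (Fin n) B) : Matrix (Fin n) (Fin n) B) = 1 := by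
      rw [inv_mul_cancel]; rfl
    have h2 := congrFun (congrFun h1 i) j
    rw [Matrix.one_apply] at h2
    rw [← h2]
    rfl
  have huu : ∀ g i j, ∑ l, u g i l * (u g)⁻¹ l j = if i = j then 1 else 0 := by
    intro g i j
    have h1 : ((u g * (u g)⁻¹ : Matrix.GeneralLinearGroup (Fin n) R) :
        Matrix (Fin n) (Fin n) R) = 1 := by
      rw [mul_inv_cancel]; rfl
    have h2 := congrFun (congrFun h1 i) j
    rw [Matrix.one_apply] at h2
    rw [← h2]
    rfl
  have huu' : ∀ g i j, ∑ l, (u g)⁻¹ i l * u g l j = if i = j then 1 else 0 := by
    intro g i j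
    have h1 : (((u g)⁻¹ * u g : Matrix.GeneralLinearGroup (Fin n) R) :
        Matrix (Fin n) (Fin n) R) = 1 := by
      rw [inv_mul_cancel]; rfl
    have h2 := congrFun (congrFun h1 i) j
    rw [Matrix.one_apply] at h2
    rw [← h2]
    rfl
  -- matrices
  let Xm : Matrix (Fin n) (Fin n) B := Matrix.of fun i j => X i j
  let Xi : Matrix (Fin n) (Fin n) B := Matrix.of fun i j => X⁻¹ i j
  let U : G → Matrix (Fin n) (Fin n) B := fun g => Matrix.of fun i j => algebraMap R B (u g i j)
  let Ui : G → Matrix (Fin n) (Fin n) B := fun g =>
    Matrix.of fun i j => algebraMap R B ((u g)⁻¹ i j)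
  let gXi : G → Matrix (Fin n) (Fin n) B := fun g => Matrix.of fun i j => g • X⁻¹ i j
  have e1 : Xm * Xi = 1 := by
    ext i j
    rw [Matrix.mul_apply, Matrix.one_apply]
    exact hXX i j
  have e2 : Xi * Xm = 1 := by
    ext i j
    rw [Matrix.mul_apply, Matrix.one_apply]
    exact hXX' i j
  have e3 : ∀ g, U g * Ui g = 1 := by
    intro g
    ext i j
    rw [Matrix.mul_apply, Matrix.one_apply]
    have := congrArg (algebraMap R B) (huu g i j)
    rw [map_sum] at this
    rw [apply_ite (algebraMap R B), map_one, map_zero] at this
    rw [← this]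
    exact Finset.sum_congr rfl fun l _ => by rw [map_mul]; rfl
  have e4 : ∀ g, Ui g * U g = 1 := by
    intro g
    ext i j
    rw [Matrix.mul_apply, Matrix.one_apply]
    have := congrArg (algebraMap R B) (huu' g i j)
    rw [map_sum] at this
    rw [apply_ite (algebraMap R B), map_one, map_zero] at this
    rw [← this]
    exact Finset.sum_congr rfl fun l _ => by rw [map_mul]; rfl
  have e5 : ∀ g, (Xm * U g) * gXi g = 1 := by
    intro g
    ext i j
    rw [Matrix.mul_apply, Matrix.one_apply]
    have h1 := congrArg (fun b : B => g • b) (hXX i j)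
    simp only [Finset.smul_sum] at h1
    rw [smul_ite, smul_one, smul_zero] at h1
    rw [← h1]
    refine Finset.sum_congr rfl fun l _ => ?_
    rw [hmul, hact, Matrix.mul_apply]
    rfl
  have e6 : ∀ g, gXi g = Ui g * Xi := by
    intro g
    have h1 : (Ui g * Xi) * (Xm * U g) = 1 := by
      rw [Matrix.mul_assoc, ← Matrix.mul_assoc Xi, e2, Matrix.one_mul, e4]
    calc gXi g = ((Ui g * Xi) * (Xm * U g)) * gXi g := by rw [h1, Matrix.one_mul]
      _ = Ui g * Xi := by rw [Matrix.mul_assoc, e5, Matrix.mul_one]
  have e7 : ∀ g, gXi g * Xm = Ui g := by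
    intro g
    rw [e6, Matrix.mul_assoc, e2, Matrix.mul_one]
  have hinv : ∀ (g : G) i j, g • X⁻¹ i j = ∑ l, algebraMap R B ((u g)⁻¹ i l) * X⁻¹ l j := by
    intro g i j
    have := congrFun (congrFun (e6 g) i) j
    rw [Matrix.mul_apply] at this
    exact this
  refine ⟨{v | ∃ l j, v = fun g => u g l j} ∪ {v | ∃ l j, v = fun g => (u g)⁻¹ l j}, ?_⟩
  set V : Set (G → R) := {v | ∃ l j, v = fun g => u g l j} ∪
    {v | ∃ l j, v = fun g => (u g)⁻¹ l j} with hV
  have hV1 : ∀ l j, (fun g : G => algebraMap R B (u g l j)) ∈
      Algebra.adjoin B ((fun (v : G → R) (g : G) => algebraMap R B (v g)) '' V) := fun l j =>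
    Algebra.subset_adjoin ⟨_, Or.inl ⟨l, j, rfl⟩, rfl⟩
  have hV2 : ∀ l j, (fun g : G => algebraMap R B ((u g)⁻¹ l j)) ∈
      Algebra.adjoin B ((fun (v : G → R) (g : G) => algebraMap R B (v g)) '' V) := fun l j =>
    Algebra.subset_adjoin ⟨_, Or.inr ⟨l, j, rfl⟩, rfl⟩
  have hO : ∀ b : B, (fun g : G => g • b) ∈
      Algebra.adjoin B (Set.range fun (b : B) (g : G) => g • b) := fun b =>
    Algebra.subset_adjoin ⟨b, rfl⟩
  apply le_antisymm
  · refine Algebra.adjoin_le ?_
    rintro _ ⟨b, rfl⟩
    let S : Subalgebra R B := ((Algebra.adjoin B ((fun (v : G → R) (g : G) =>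
      algebraMap R B (v g)) '' V)).restrictScalars R).comap (orb R G : B →ₐ[R] (G → B))
    have hS : (⊤ : Subalgebra R B) ≤ S := by
      rw [← hX]
      refine Algebra.adjoin_le ?_
      rintro _ (⟨i, j, rfl⟩ | ⟨i, j, rfl⟩)
      · change (fun g : G => g • X i j) ∈ Algebra.adjoin B ((fun (v : G → R) (g : G) =>
          algebraMap R B (v g)) '' V)
        have h1 : (fun g : G => g • X i j) =
            ∑ l, X i l • (fun g : G => algebraMap R B (u g l j)) := by
          funext g
          rw [Finset.sum_apply, hact]
          rfl
        rw [h1]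
        exact Subalgebra.sum_mem _ fun l _ => Subalgebra.smul_mem _ (hV1 l j) _
      · change (fun g : G => g • X⁻¹ i j) ∈ Algebra.adjoin B ((fun (v : G → R) (g : G) =>
          algebraMap R B (v g)) '' V)
        have h1 : (fun g : G => g • X⁻¹ i j) =
            ∑ l, X⁻¹ l j • (fun g : G => algebraMap R B ((u g)⁻¹ i l)) := by
          funext g
          rw [Finset.sum_apply, hinv]
          exact Finset.sum_congr rfl fun l _ => mul_comm _ _
        rw [h1]
        exact Subalgebra.sum_mem _ fun l _ => Subalgebra.smul_mem _ (hV2 i l) _
    exact hS (Algebra.mem_top : b ∈ (⊤ : Subalgebra R B))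
  · refine Algebra.adjoin_le ?_
    rintro _ ⟨_, ⟨l, j, rfl⟩ | ⟨l, j, rfl⟩, rfl⟩
    · have h1 : (fun g : G => algebraMap R B (u g l j)) =
          ∑ i, X⁻¹ l i • (fun g : G => g • X i j) := by
        funext g
        rw [Finset.sum_apply]
        have h2 : (Xi * (Xm * U g)) l j = U g l j := by
          rw [← Matrix.mul_assoc, e2, Matrix.one_mul]
        rw [Matrix.mul_apply] at h2
        change U g l j = _
        rw [← h2]
        refine Finset.sum_congr rfl fun i _ => ?_
        rw [Matrix.mul_apply, Pi.smul_apply, smul_eq_mul, hact]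
        rfl
      change (fun g : G => algebraMap R B (u g l j)) ∈ _
      rw [h1]
      exact Subalgebra.sum_mem _ fun l _ => Subalgebra.smul_mem _ (hO _) _
    · have h1 : (fun g : G => algebraMap R B ((u g)⁻¹ l j)) =
          ∑ i, X i j • (fun g : G => g • X⁻¹ l i) := by
        funext g
        rw [Finset.sum_apply]
        have h2 := congrFun (congrFun (e7 g) l) j
        rw [Matrix.mul_apply] at h2
        change Ui g l j = _
        rw [← h2]
        exact Finset.sum_congr rfl fun i _ => mul_comm _ _
      change (fun g : G => algebraMap R B ((u g)⁻¹ l j)) ∈ _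
      rw [h1]
      exact Subalgebra.sum_mem _ fun l _ => Subalgebra.smul_mem _ (hO _) _

end matrix

end Pool.Agent.Q40.FC
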