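import Pool.Agent.Q40.FC.Frame
import Pool.Agent.Q40.RS.Proj

/-! The projective version: smooth projective models of the function field of a finite quotient
`Y` of a smooth projective family `X` over a projective variety. -/

set_option autoImplicit false
set_option linter.unusedSectionVars false

universe u

open Finset

namespace Pool.Agent.Q40.FC

open Pool.Agent.W558 Pool.Agent.H920R2 Pool.Agent.Q40.RS Pool.Agent.Q40.FF Pool.Agent.W418.LCI

/-- Extension of valuations. -/
theorem exists_ext_valuation {E L : Type*} [Field E] [Field L] [Algebra E L]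
    (F : IntermediateField E L) (V : ValuationSubring F) :
    ∃ W : ValuationSubring L, ∀ x : F, (x : L) ∈ W ↔ x ∈ V := by
  obtain ⟨W, h, hW⟩ := IsLocalRing.exists_factor_valuationRing
    ((algebraMap F L).comp (algebraMap V F))
  refine ⟨W, fun x => ⟨fun hx => ?_, fun hx => h ⟨x, hx⟩⟩⟩
  by_contra hxV
  have hx0 : x ≠ 0 := fun h0 => hxV (h0 ▸ V.zero_mem)
  have h1 : x⁻¹ ∈ V := (V.mem_or_inv_mem x).resolve_left hxV
  let y : V := ⟨x⁻¹, h1⟩
  have h2 : IsUnit ((((algebraMap F L).comp (algebraMap V F)).codRestrict W.toSubring h) y) := by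
    refine isUnit_iff_exists_inv.2 ⟨⟨(x : L), hx⟩, ?_⟩
    apply Subtype.ext
    change ((x⁻¹ : F) : L) * (x : L) = 1
    rw [← IntermediateField.coe_mul, inv_mul_cancel₀ hx0]
    rfl
  have h3 : IsUnit y := hW.map_nonunit _ h2
  obtain ⟨z, hz⟩ := isUnit_iff_exists_inv.1 h3
  have h4 : x⁻¹ * (z : F) = 1 := congrArg Subtype.val hz
  have h5 : (z : F) = x := by
    have := congrArg (fun w => x * w) h4
    rw [← mul_assoc, mul_inv_cancel₀ hx0, one_mul, mul_one] at this
    exact this
  exact hxV (h5 ▸ z.2)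

/-- The coordinate ring of the chart `s j ≠ 0`, `y a ≠ 0` of the projective scheme with the
homogeneous coordinates `y, z` over the projective variety with the homogeneous coordinates `s`. -/
noncomputable def cch (k : Type) [Field k] {E L : Type} [Field E] [Field L] [Algebra k L]
    [Algebra E L] {m n l : ℕ} (s : Fin (m + 1) → E) (y : Fin (n + 1) → L) (z : Fin l → L)
    (j : Fin (m + 1)) (a : Fin (n + 1)) : Subalgebra k L :=
  Algebra.adjoin k ((Set.range fun i => algebraMap E L (s i / s j)) ∪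
    ((Set.range fun b => y b / y a) ∪ Set.range fun c => z c / y a))

section

variable {k E L : Type} [Field k] [Field E] [Field L] [Algebra k E] [Algebra k L] [Algebra E L]
  [IsScalarTower k E L] {m n l : ℕ} (s : Fin (m + 1) → E) (y : Fin (n + 1) → L) (z : Fin l → L)

lemma bch_cch (j : Fin (m + 1)) (a : Fin (n + 1)) (x : E) (hx : x ∈ bch k s j) :
    algebraMap E L x ∈ cch k s y z j a := by
  have h1 : bch k s j ≤ (cch k s y z j a).comap (IsScalarTower.toAlgHom k E L) := by
    refine Algebra.adjoin_le ?_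
    rintro _ ⟨i, rfl⟩
    exact Algebra.subset_adjoin (Or.inl ⟨i, rfl⟩)
  exact h1 hx

/-- The morphism of charts. -/
noncomputable def crho (j : Fin (m + 1)) (a : Fin (n + 1)) : bch k s j →+* cch k s y z j a :=
  ((algebraMap E L).comp (bch k s j).val.toRingHom).codRestrict (cch k s y z j a)
    (fun x => bch_cch s y z j a x.1 x.2)

lemma crho_coe (j : Fin (m + 1)) (a : Fin (n + 1)) (x : bch k s j) :
    (crho s y z j a x : L) = algebraMap E L x := rfl

/-- The pure part of the chart. -/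
noncomputable def pch (k : Type) [Field k] {L : Type} [Field L] [Algebra k L] {n l : ℕ}
    (y : Fin (n + 1) → L) (z : Fin l → L) (a : Fin (n + 1)) : Subalgebra k L :=
  Algebra.adjoin k ((Set.range fun b => y b / y a) ∪ Set.range fun c => z c / y a)

lemma mulA_cch {A : Subalgebra k E} (j : Fin (m + 1)) (a : Fin (n + 1)) (hA : bch k s j ≤ A) :
    mulA A (cch k s y z j a) = mulA A (pch k y z a) := by
  apply le_antisymm
  · refine mulA_le (fun x hx => le_mulA _ hx) (Algebra.adjoin_le ?_)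
    rintro _ (⟨i, rfl⟩ | h)
    · exact le_mulA _ (hA (Algebra.subset_adjoin ⟨i, rfl⟩))
    · exact le_mulA' _ (Algebra.subset_adjoin h)
  · refine mulA_le (fun x hx => le_mulA _ hx) (Algebra.adjoin_le ?_)
    intro x hx
    exact le_mulA' _ (Algebra.subset_adjoin (Or.inr hx))

lemma pch_glue (hy : ∀ a, y a ≠ 0) (a a' : Fin (n + 1)) {x : L} (hx : x ∈ pch k y z a') :
    ∃ N : ℕ, ∀ N', N ≤ N' → (y a' / y a) ^ N' * x ∈ pch k y z a := by
  have hr : ∀ b, y b / y a ∈ pch k y z a := fun b => Algebra.subset_adjoin (Or.inl ⟨b, rfl⟩)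
  have hr' : ∀ c, z c / y a ∈ pch k y z a := fun c => Algebra.subset_adjoin (Or.inr ⟨c, rfl⟩)
  have key : ∀ w : L, w / y a ∈ pch k y z a → ∃ N : ℕ, ∀ N', N ≤ N' →
      (y a' / y a) ^ N' * (w / y a') ∈ pch k y z a := by
    intro w hw
    refine ⟨1, fun N' hN' => ?_⟩
    obtain ⟨e, rfl⟩ := Nat.exists_eq_add_of_le hN'
    have h1 : (y a' / y a) ^ (1 + e) * (w / y a') = (y a' / y a) ^ e * (w / y a) := by
      have := hy a'
      rw [pow_add, pow_one]
      field_simp
    rw [h1]
    exact Subalgebra.mul_mem _ (Subalgebra.pow_mem _ (hr _) _) hw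
  induction hx using Algebra.adjoin_induction with
  | mem x hx =>
    rcases hx with ⟨b, rfl⟩ | ⟨c, rfl⟩
    · exact key _ (hr b)
    · exact key _ (hr' c)
  | algebraMap c =>
    exact ⟨0, fun N' _ => Subalgebra.mul_mem _ (Subalgebra.pow_mem _ (hr _) _)
      (Subalgebra.algebraMap_mem _ c)⟩
  | add x y _ _ hx hy =>
    obtain ⟨N, hN⟩ := hx
    obtain ⟨M, hM⟩ := hy
    refine ⟨N + M, fun N' hN' => ?_⟩
    rw [mul_add]
    exact Subalgebra.add_mem _ (hN N' (by omega)) (hM N' (by omega))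
  | mul x x' _ _ hx hy =>
    obtain ⟨N, hN⟩ := hx
    obtain ⟨M, hM⟩ := hy
    refine ⟨N + M, fun N' hN' => ?_⟩
    obtain ⟨e, rfl⟩ := Nat.exists_eq_add_of_le hN'
    have h1 : (y a' / y a) ^ (N + M + e) * (x * x') =
        ((y a' / y a) ^ (N + e) * x) * ((y a' / y a) ^ M * x') := by ring
    rw [h1]
    exact Subalgebra.mul_mem _ (hN _ (by omega)) (hM _ le_rfl)

/-- The elements of the chart are integral over the smaller field. -/
theorem int_chart (F : IntermediateField E L) (A : Subalgebra k E) (B : Subalgebra k L)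
    (S : Set L) (hS : B = Algebra.adjoin k S)
    (h : ∀ x ∈ S, IsIntegral (infM (mulA A B) F) x) :
    ∀ x ∈ mulA A B, IsIntegral (infM (mulA A B) F) x := by
  intro x hx
  have hEF : ∀ x : E, algebraMap E L x ∈ F := fun x => F.algebraMap_mem x
  have hB : ∀ b ∈ B, IsIntegral (infM (mulA A B) F) b := by
    intro b hb
    have hb' : b ∈ Algebra.adjoin k S := hS ▸ hb
    induction hb' using Algebra.adjoin_induction with
    | mem x hx => exact h x hx
    | algebraMap c =>
      exact isIntegral_algebraMap (R := infM (mulA A B) F) (x := algebraMap k _ c)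
    | add x y hx' hy' hx hy =>
      exact (hx (by rw [hS]; exact hx')).add (hy (by rw [hS]; exact hy'))
    | mul x y hx' hy' hx hy =>
      exact (hx (by rw [hS]; exact hx')).mul (hy (by rw [hS]; exact hy'))
  refine mulA_induction (P := fun x => IsIntegral (infM (mulA A B) F) x) ?_ ?_ hx
  · intro a ha b hb
    refine IsIntegral.mul ?_ (hB b hb)
    exact isIntegral_algebraMap (R := infM (mulA A B) F)
      (x := ⟨algebraMap E L a, le_mulA _ ha, hEF a⟩)
  · exact fun x y hx hy => IsIntegral.add hx hy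

/-- The model of the function field of the quotient. -/
theorem main_cov (p : ℕ) [Fact p.Prime] [PerfectField k] [CharP k p] (hE : HasLM k E)
    (hs : ∀ j, s j ≠ 0) (hy : ∀ a, y a ≠ 0)
    (hEfr : ∀ j (x : E), ∃ a ∈ bch k s j, ∃ b ∈ bch k s j, b ≠ 0 ∧ x = a / b)
    (hLfr : ∀ j a (x : L), ∃ b ∈ cch k s y z j a, ∃ c ∈ cch k s y z j a, c ≠ 0 ∧ x = b / c)
    (hsm : ∀ j a, (crho (k := k) s y z j a).Smooth)
    (F : IntermediateField E L) [FiniteDimensional F L] (hyF : ∀ a b, y b / y a ∈ F)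
    (hint : ∀ j a c, IsIntegral (Algebra.adjoin k ((Set.range fun i => algebraMap E L (s i / s j)) ∪
      Set.range fun b => y b / y a)) (z c / y a))
    {ι : Type} [Fintype ι] [DecidableEq ι] (e : Module.Basis ι F L)
    (lam : Fin (m + 1) → Fin (n + 1) → L) (hlam : ∀ j a, lam j a ≠ 0)
    (δ : ∀ j a, (ι → cch k s y z j a) → cch k s y z j a)
    (hδ : ∀ j a (c : ι → cch k s y z j a),
      (e.det (fun i => (c i : L)) : L) = lam j a * δ j a c)
    (I : ∀ j : Fin (m + 1), Fin (n + 1) → Ideal (bch k s j)) (hI0 : ∀ j a, I j a ≠ ⊥)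
    (hI : ∀ j a, Ideal.span (Set.range (δ j a)) = (I j a).map (crho s y z j a)) :
    ∃ (T : Type) (_ : Finite T) (M : LM (⊥ : Subalgebra k F) ⊤ T Empty),
      ∀ t (x : F), ∃ b ∈ M.A t, ∃ c ∈ M.A t, c ≠ 0 ∧ x = b / c := by
  classical
  -- generators of the ideals
  have hgen : ∀ j a, ∃ S : Finset (bch k s j), Ideal.span (S : Set (bch k s j)) = I j a ∧
      0 ∉ S ∧ S.Nonempty := by
    intro j a
    have hft : Algebra.FiniteType k (bch k s j) := by
      refine (Subalgebra.fg_iff_finiteType _).1 ?_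
      exact Subalgebra.fg_def.2 ⟨_, Set.finite_range _, rfl⟩
    have hnoe : IsNoetherianRing (bch k s j) := Algebra.FiniteType.isNoetherianRing k _
    obtain ⟨S0, hS0⟩ : (I j a).FG := IsNoetherian.noetherian (I j a)
    have hS : Ideal.span ((S0.erase 0 : Finset (bch k s j)) : Set (bch k s j)) = I j a := by
      rw [← hS0]
      apply le_antisymm
      · exact Ideal.span_mono (by exact_mod_cast Finset.erase_subset _ _)
      · refine Ideal.span_le.2 fun x hx => ?_
        by_cases h0 : x = 0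
        · rw [h0]; exact Ideal.zero_mem _
        · exact Ideal.subset_span (Finset.mem_coe.2 (Finset.mem_erase.2 ⟨h0, hx⟩))
    refine ⟨S0.erase 0, hS, Finset.notMem_erase _ _, ?_⟩
    rw [Finset.nonempty_iff_ne_empty]
    intro h
    apply hI0 j a
    rw [← hS, h]
    simp
  choose S hS hS0 hSne using hgen
  let G : Type := Fin (m + 1) ⊕ (Σ q : Fin (m + 1) × Fin (n + 1), {x // x ∈ S q.1 q.2})
  let g : G → E := Sum.elim s (fun q => ((q.2.1 : bch k s q.1.1) : E))
  have hg : ∀ b, g b ≠ 0 := by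
    rintro (j | ⟨⟨j, a⟩, x, hx⟩)
    · exact hs j
    · intro h0
      have h1 : x = 0 := Subtype.ext h0
      exact hS0 j a (h1 ▸ hx)
  obtain ⟨T, I', hT, hI', M, hM⟩ := exists_cmp_proj hE G g hg
  choose jt0 hjt0 hjt1 using fun t => exists_min (M.A t)
    (Finset.univ.image (Sum.inl : Fin (m + 1) → G)) (Finset.univ_nonempty.image _) g hg (hM t)
  have hjt2 : ∀ t, ∃ j : Fin (m + 1), (Sum.inl j : G) = jt0 t := fun t => by
    obtain ⟨j, -, hj⟩ := Finset.mem_image.1 (hjt0 t)
    exact ⟨j, hj⟩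
  choose jt hjt using hjt2
  have hRt : ∀ t, bch k s (jt t) ≤ M.A t := by
    intro t
    refine Algebra.adjoin_le ?_
    rintro _ ⟨i, rfl⟩
    have h1 := hjt1 t (Sum.inl i) (Finset.mem_image.2 ⟨i, Finset.mem_univ i, rfl⟩)
    rw [← hjt] at h1
    exact h1
  choose it0 hit0 hit1 using fun (t : T) (a : Fin (n + 1)) => exists_min (M.A t)
    ((S (jt t) a).attach.image fun x => (Sum.inr ⟨(jt t, a), x⟩ : G))
    ((Finset.attach_nonempty_iff.2 (hSne (jt t) a)).image _) g hg (hM t)
  have hit2 : ∀ t a, ∃ x : {x // x ∈ S (jt t) a}, (Sum.inr ⟨(jt t, a), x⟩ : G) = it0 t a :=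
    fun t a => by
      obtain ⟨x, -, hx⟩ := Finset.mem_image.1 (hit0 t a)
      exact ⟨x, hx⟩
  choose it hit using hit2
  let f : T → Fin (n + 1) → E := fun t a => ((it t a).1 : bch k s (jt t))
  have hf0 : ∀ t a, f t a ≠ 0 := fun t a => hg (Sum.inr ⟨(jt t, a), it t a⟩)
  have hdiv : ∀ t a, ∀ x ∈ S (jt t) a, (x : E) / f t a ∈ M.A t := by
    intro t a x hx
    have h1 := hit1 t a (Sum.inr ⟨(jt t, a), ⟨x, hx⟩⟩)
      (Finset.mem_image.2 ⟨⟨x, hx⟩, Finset.mem_attach _ _, rfl⟩)
    rw [← hit] at h1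
    exact h1
  let Bt : T × Fin (n + 1) → Subalgebra k L := fun q => mulA (M.A q.1) (cch k s y z (jt q.1) q.2)
  have hBt' : ∀ q, Bt q = mulA (M.A q.1) (pch k y z q.2) := fun q =>
    mulA_cch s y z (jt q.1) q.2 (hRt q.1)
  have hdivB : ∀ t a, ∀ b ∈ (I (jt t) a).map (crho s y z (jt t) a),
      (b : L) / algebraMap E L (f t a) ∈ Bt (t, a) := by
    intro t a b hb
    rw [← hS, Ideal.map_span] at hb
    induction hb using Submodule.span_induction with
    | mem x hx =>
      obtain ⟨x, hx, rfl⟩ := hx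
      rw [crho_coe, ← map_div₀]
      exact le_mulA _ (hdiv t a x hx)
    | zero =>
      rw [ZeroMemClass.coe_zero, zero_div]
      exact Subalgebra.zero_mem _
    | add x y _ _ hx hy =>
      rw [Subalgebra.coe_add, add_div]
      exact Subalgebra.add_mem _ hx hy
    | smul c x _ hx =>
      rw [smul_eq_mul, Subalgebra.coe_mul, mul_div_assoc]
      exact Subalgebra.mul_mem _ (le_mulA' _ c.2) hx
  have hBsm : ∀ q, Algebra.Smooth k (Bt q) := fun q =>
    smooth_mulA (M.A q.1) (bch k s (jt q.1)) (hRt q.1)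
      (fun x => by
        obtain ⟨a, ha, b, hb, hb0, h1⟩ := hEfr (jt q.1) x
        exact ⟨a, ha, b, hb, hb0, by rw [h1, div_eq_mul_inv]⟩)
      (M.sm q.1) _ (crho s y z (jt q.1) q.2) (fun x => crho_coe s y z _ _ x) (hsm _ _)
  have hEF : ∀ x : E, algebraMap E L x ∈ F := fun x => F.algebraMap_mem x
  -- integrality and fractions
  have hint' : ∀ q, ∀ x ∈ Bt q, IsIntegral (infM (Bt q) F) x := by
    rintro ⟨t, a⟩
    refine int_chart F (M.A t) (cch k s y z (jt t) a) _ rfl ?_
    have hle : Algebra.adjoin k ((Set.range fun i => algebraMap E L (s i / s (jt t))) ∪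
        Set.range fun b => y b / y a) ≤ infM (Bt (t, a)) F := by
      refine Algebra.adjoin_le ?_
      rintro _ (⟨i, rfl⟩ | ⟨b, rfl⟩)
      · exact ⟨le_mulA' _ (Algebra.subset_adjoin (Or.inl ⟨i, rfl⟩)), hEF _⟩
      · exact ⟨le_mulA' _ (Algebra.subset_adjoin (Or.inr (Or.inl ⟨b, rfl⟩))), hyF _ _⟩
    rintro _ (⟨i, rfl⟩ | ⟨b, rfl⟩ | ⟨c, rfl⟩)
    · exact isIntegral_algebraMap (R := infM (Bt (t, a)) F)
        (x := ⟨_, hle (Algebra.subset_adjoin (Or.inl ⟨i, rfl⟩))⟩)
    · exact isIntegral_algebraMap (R := infM (Bt (t, a)) F)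
        (x := ⟨_, hle (Algebra.subset_adjoin (Or.inr ⟨b, rfl⟩))⟩)
    · obtain ⟨P, hP, hPc⟩ := hint (jt t) a c
      refine ⟨P.map (Subalgebra.inclusion hle).toRingHom, hP.map _, ?_⟩
      rw [Polynomial.eval₂_map]
      exact hPc
  have hfrac : ∀ q, ∀ x : L, ∃ a ∈ Bt q, ∃ b ∈ Bt q, b ≠ 0 ∧ x = a * b⁻¹ := by
    rintro ⟨t, a⟩ x
    obtain ⟨b, hb, c, hc, hc0, h⟩ := hLfr (jt t) a x
    exact ⟨b, le_mulA' _ hb, c, le_mulA' _ hc, hc0, by rw [h, div_eq_mul_inv]⟩
  -- smoothness
  have hsmC : ∀ q, Algebra.Smooth k (infM (Bt q) F) := by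
    rintro ⟨t, a⟩
    set B := cch k s y z (jt t) a with hBdef
    have hl := hlam (jt t) a
    have hμ : lam (jt t) a * algebraMap E L (f t a) ≠ 0 :=
      mul_ne_zero hl ((map_ne_zero _).2 (hf0 t a))
    have hdet : ∀ c : ι → L, (∀ i, c i ∈ Bt (t, a)) →
        (e.det c : L) / (lam (jt t) a * algebraMap E L (f t a)) ∈ Bt (t, a) := by
      intro c hc
      refine det_div F e (M.A t) B _ ?_ c hc
      intro c hc
      have h1 := hδ (jt t) a (fun i => ⟨c i, hc i⟩)
      have h2 : (e.det c : L) = lam (jt t) a * δ (jt t) a (fun i => ⟨c i, hc i⟩) := h1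
      rw [h2, mul_div_mul_left _ _ hl]
      apply hdivB
      rw [← hI]
      exact Ideal.subset_span ⟨_, rfl⟩
    have hex : ∀ c : ι → Bt (t, a), ∃ y : Bt (t, a),
        ((e.det fun i => ((c i : Bt (t, a)) : L) : F) : L) =
        (lam (jt t) a * algebraMap E L (f t a)) * y := by
      intro c
      exact ⟨⟨_, hdet (fun i => (c i : L)) fun i => (c i).2⟩, (mul_div_cancel₀ _ hμ).symm⟩
    choose s' hs' using hex
    have := hBsm (t, a)
    refine smooth_infM p F (Bt (t, a)) (hfrac (t, a)) (hint' (t, a)) e _ hμ s' hs' ?_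
    have h1 : crho s y z (jt t) a (it t a).1 ∈ Ideal.span (Set.range (δ (jt t) a)) := by
      rw [hI]
      refine Ideal.mem_map_of_mem _ ?_
      rw [← hS]
      exact Ideal.subset_span (it t a).2
    rw [Ideal.span, Finsupp.mem_span_range_iff_exists_finsupp] at h1
    obtain ⟨α, hα⟩ := h1
    rw [Ideal.eq_top_iff_one]
    let j' : B → Bt (t, a) := fun b => ⟨b, le_mulA' _ b.2⟩
    have h2 : (1 : Bt (t, a)) = α.sum fun c b => j' b * s' (fun i => j' (c i)) := by
      apply Subtype.ext
      have h3 : ((α.sum fun c b => j' b * s' (fun i => j' (c i)) : Bt (t, a)) : L) =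
          ((α.sum fun c b => b • δ (jt t) a c : B) : L) / algebraMap E L (f t a) := by
        rw [Finsupp.sum, Finsupp.sum, AddSubmonoidClass.coe_finsetSum,
          AddSubmonoidClass.coe_finsetSum, Finset.sum_div]
        refine Finset.sum_congr rfl fun c _ => ?_
        have h4 := hs' (fun i => j' (c i))
        have h5 : ((e.det fun i => ((j' (c i) : Bt (t, a)) : L) : F) : L) =
          lam (jt t) a * δ (jt t) a c := hδ (jt t) a c
        rw [h5, mul_assoc] at h4
        have h6 := mul_left_cancel₀ hl h4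
        change (α c : L) * (s' fun i => j' (c i) : Bt (t, a)) = _
        rw [smul_eq_mul, Subalgebra.coe_mul, h6, mul_div_assoc,
          mul_div_cancel_left₀ _ ((map_ne_zero _).2 (hf0 t a))]
      rw [h3, hα, crho_coe]
      exact (div_self ((map_ne_zero _).2 (hf0 t a))).symm
    rw [h2]
    refine Ideal.sum_mem _ fun c _ => ?_
    apply Ideal.mul_mem_left
    exact Ideal.subset_span ⟨_, rfl⟩
  -- the model
  have hrat : ∀ q q' : T × Fin (n + 1), ∀ N : ℕ,
      algebraMap E L (M.H q'.1 / M.H q.1) * (y q'.2 / y q.2) ^ N ∈ Bt q := by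
    intro q q' N
    rw [hBt']
    have h1 : y q'.2 / y q.2 ∈ pch k y z q.2 := Algebra.subset_adjoin (Or.inl ⟨q'.2, rfl⟩)
    exact Subalgebra.mul_mem _ (le_mulA _ (M.rt _ _)) (le_mulA' _ (Subalgebra.pow_mem _ h1 _))
  let HH : T × Fin (n + 1) → F := fun q =>
    ⟨algebraMap E L (M.H q.1) * (y q.2 / y 0), F.mul_mem (hEF _) (hyF _ _)⟩
  have hHdiv : ∀ q q', ((HH q' / HH q : F) : L) =
      algebraMap E L (M.H q'.1 / M.H q.1) * (y q'.2 / y q.2) := by
    intro q q'
    have h1 : ((HH q' / HH q : F) : L) = (HH q' : L) / (HH q : L) := rfl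
    rw [h1]
    change (algebraMap E L (M.H q'.1) * (y q'.2 / y 0)) /
      (algebraMap E L (M.H q.1) * (y q.2 / y 0)) = _
    have h0 := hy 0
    rw [map_div₀, mul_div_mul_comm, div_div_div_cancel_right₀ h0]
  have hkFL : IsScalarTower k F L := IsScalarTower.of_algebraMap_eq fun x => rfl
  refine ⟨T × Fin (n + 1), inferInstance,
    { A := fun q => (infM (Bt q) F).comap (IsScalarTower.toAlgHom k F L)
      H := HH
      x := fun _ i => i.elim
      sm := ?_
      base := fun _ => bot_le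
      H0 := ?_
      HR := fun _ => Algebra.mem_top
      rt := ?_
      gl := ?_
      dn := fun _ _ _ => ⟨0, Algebra.mem_top⟩
      cv := ?_
      xA := fun _ i => i.elim
      x0 := fun _ i => i.elim
      gi := fun _ _ i => i.elim
      snc := fun _ _ _ _ _ i => i.elim }, ?_⟩
  · intro q
    let ee : ((infM (Bt q) F).comap (IsScalarTower.toAlgHom k F L)) ≃ₐ[k] infM (Bt q) F :=
      AlgEquiv.ofBijective
        ({ toFun := fun x => ⟨(x.1 : L), x.2⟩
           map_one' := rfl
           map_mul' := fun _ _ => rfl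
           map_zero' := rfl
           map_add' := fun _ _ => rfl
           commutes' := fun _ => rfl } :
            ((infM (Bt q) F).comap (IsScalarTower.toAlgHom k F L)) →ₐ[k] infM (Bt q) F)
        ⟨fun x y hxy => Subtype.ext (Subtype.ext (congrArg (Subtype.val : infM (Bt q) F → L) hxy)),
          fun y => ⟨⟨⟨y.1, y.2.2⟩, y.2⟩, rfl⟩⟩
    have := hsmC q
    exact Algebra.Smooth.of_equiv ee.symm
  · intro q h0
    have h1 := congrArg (Subtype.val : F → L) h0
    exact mul_ne_zero ((map_ne_zero _).2 (M.H0 q.1)) (div_ne_zero (hy q.2) (hy 0)) h1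
  · intro q q'
    refine ⟨?_, (HH q' / HH q).2⟩
    change ((HH q' / HH q : F) : L) ∈ Bt q
    rw [hHdiv]
    have := hrat q q' 1
    rwa [pow_one] at this
  · intro q q' x hx
    have hx1 : (x : L) ∈ Bt q' := hx.1
    rw [hBt'] at hx1
    have h1 : ∃ N : ℕ, ∀ N', N ≤ N' →
        (algebraMap E L (M.H q'.1 / M.H q.1)) ^ N' * (y q'.2 / y q.2) ^ N' * (x : L) ∈
          Bt q := by
      rw [hBt']
      refine mulA_induction (P := fun x => ∃ N : ℕ, ∀ N', N ≤ N' →
        (algebraMap E L (M.H q'.1 / M.H q.1)) ^ N' * (y q'.2 / y q.2) ^ N' * x ∈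
          mulA (M.A q.1) (pch k y z q.2)) ?_ ?_ hx1
      · intro α hα β hβ
        obtain ⟨n1, hn1⟩ := M.gl q.1 q'.1 α hα
        obtain ⟨n2, hn2⟩ := pch_glue y z hy q.2 q'.2 hβ
        refine ⟨n1 + n2, fun N' hN' => ?_⟩
        have h2 : (M.H q'.1 / M.H q.1) ^ N' * α ∈ M.A q.1 := M.gl_mono (by omega) hn1
        have h3 : (y q'.2 / y q.2) ^ N' * β ∈ pch k y z q.2 := hn2 _ (by omega)
        have h4 : (algebraMap E L (M.H q'.1 / M.H q.1)) ^ N' * (y q'.2 / y q.2) ^ N' *
            (algebraMap E L α * β) = algebraMap E L ((M.H q'.1 / M.H q.1) ^ N' * α) *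
              ((y q'.2 / y q.2) ^ N' * β) := by
          rw [map_mul, map_pow]
          ring
        rw [h4]
        exact Subalgebra.mul_mem _ (le_mulA _ h2) (le_mulA' _ h3)
      · rintro x y ⟨n1, hn1⟩ ⟨n2, hn2⟩
        refine ⟨n1 + n2, fun N' hN' => ?_⟩
        rw [mul_add]
        exact Subalgebra.add_mem _ (hn1 N' (by omega)) (hn2 N' (by omega))
    obtain ⟨N, hN⟩ := h1
    refine ⟨N, ?_, ((HH q' / HH q) ^ N * x).2⟩
    change (((HH q' / HH q) ^ N * x : F) : L) ∈ Bt q
    have h2 : (((HH q' / HH q) ^ N * x : F) : L) = ((HH q' / HH q : F) : L) ^ N * x := rfl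
    rw [h2, hHdiv, mul_pow]
    exact hN N le_rfl
  · intro V hV
    obtain ⟨W, hW⟩ := exists_ext_valuation F V
    have hkW : ∀ c : k, algebraMap k L c ∈ W := by
      intro c
      have h1 := (hW (algebraMap k F c)).2 (hV _ ((⊥ : Subalgebra k F).algebraMap_mem c))
      exact h1
    obtain ⟨t, ht⟩ := M.cv (W.comap (algebraMap E L)) (by
      intro x hx
      obtain ⟨c, rfl⟩ := Algebra.mem_bot.1 hx
      change algebraMap E L (algebraMap k E c) ∈ W
      rw [← IsScalarTower.algebraMap_apply]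
      exact hkW c)
    obtain ⟨a, ha⟩ := Finite.exists_max (fun a => W.valuation (y a))
    have h0 : W.valuation (y a) ≠ 0 := (map_ne_zero _).2 (hy a)
    have hyW : ∀ b, y b / y a ∈ W := by
      intro b
      rw [← W.valuation_le_one_iff, map_div₀]
      exact (div_le_one₀ (zero_lt_iff.2 h0)).2 (ha b)
    have hsW : ∀ x ∈ Algebra.adjoin k ((Set.range fun i => algebraMap E L (s i / s (jt t))) ∪
        Set.range fun b => y b / y a), x ∈ W := by
      intro x hx
      induction hx using Algebra.adjoin_induction with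
      | mem x hx =>
        rcases hx with ⟨i, rfl⟩ | ⟨b, rfl⟩
        · exact ht _ (hRt t (Algebra.subset_adjoin ⟨i, rfl⟩))
        · exact hyW b
      | algebraMap c => exact hkW c
      | add x y _ _ hx hy => exact W.add_mem _ _ hx hy
      | mul x y _ _ hx hy => exact W.mul_mem _ _ hx hy
    have hzW : ∀ c, z c / y a ∈ W := by
      intro c
      obtain ⟨P, hP, hPc⟩ := hint (jt t) a c
      let φ : Algebra.adjoin k ((Set.range fun i => algebraMap E L (s i / s (jt t))) ∪
          Set.range fun b => y b / y a) →+* W :=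
        { toFun := fun x => ⟨x.1, hsW x.1 x.2⟩
          map_one' := rfl
          map_mul' := fun _ _ => rfl
          map_zero' := rfl
          map_add' := fun _ _ => rfl }
      have h2 : IsIntegral W (z c / y a) := by
        refine ⟨P.map φ, hP.map φ, ?_⟩
        rw [Polynomial.eval₂_map]
        exact hPc
      obtain ⟨w, hw⟩ := IsIntegrallyClosed.isIntegral_iff.1 h2
      rw [← hw]
      exact w.2
    refine ⟨(t, a), fun x hx => ?_⟩
    have hx1 : (x : L) ∈ Bt (t, a) := hx.1
    rw [hBt'] at hx1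
    rw [← hW]
    refine mulA_induction (P := fun x => x ∈ W) ?_ (fun x y => W.add_mem x y) hx1
    intro α hα β hβ
    refine W.mul_mem _ _ (ht α hα) ?_
    induction hβ using Algebra.adjoin_induction with
    | mem x hx =>
      rcases hx with ⟨b, rfl⟩ | ⟨c, rfl⟩
      · exact hyW b
      · exact hzW c
    | algebraMap c => exact hkW c
    | add x y _ _ hx hy => exact W.add_mem _ _ hx hy
    | mul x y _ _ hx hy => exact W.mul_mem _ _ hx hy
  · rintro q x
    obtain ⟨b, hb, c, hc, hc0, hx⟩ := exists_den_infM F (Bt q) (hfrac q) (hint' q) (x : L)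
    have hbF : b ∈ F := by
      have h1 : b = x * c := by rw [hx, inv_mul_cancel_right₀ hc0]
      rw [h1]
      exact F.mul_mem x.2 hc.2
    refine ⟨⟨b, hbF⟩, ⟨hb, hbF⟩, ⟨c, hc.2⟩, hc, ?_, ?_⟩
    · intro h0
      exact hc0 (congrArg (Subtype.val : F → L) h0)
    · apply Subtype.ext
      change (x : L) = b / c
      rw [hx, div_eq_mul_inv]

end

end Pool.Agent.Q40.FC
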