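import Pool.Agent.Q40.FF.Normal
import Pool.Agent.Q40.RS.Chart

/-! The discriminant criterion for the smoothness of the quotient by a finite cover. -/

set_option autoImplicit false
set_option linter.unusedSectionVars false

universe u

open Finset

namespace Pool.Agent.Q40.FC

open Pool.Agent.W558 Pool.Agent.Q40.RS Pool.Agent.Q40.FF

section defs

variable {k E L : Type u} [Field k] [Field E] [Field L] [Algebra k E] [Algebra k L] [Algebra E L]
  [IsScalarTower k E L]

/-- the intersection of a subalgebra with an intermediate field -/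
def infM (C : Subalgebra k L) (M : IntermediateField E L) : Subalgebra k L :=
  C ⊓ M.toSubalgebra.restrictScalars k

theorem mem_infM {C : Subalgebra k L} {M : IntermediateField E L} {x : L} :
    x ∈ infM C M ↔ x ∈ C ∧ x ∈ M := Iff.rfl

theorem infM_le (C : Subalgebra k L) (M : IntermediateField E L) : infM C M ≤ C := inf_le_left

/-- Cramer's rule -/
theorem cramer {K : Type*} [Field K] [Algebra K L] {ι : Type*} [Fintype ι] [DecidableEq ι]
    (e : Module.Basis ι K L) {c : ι → L} (hc : e.det c ≠ 0) (b : L) :
    b = ∑ j, (e.det (Function.update c j b) / e.det c) • c j := by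
  have h1 := (Module.Basis.is_basis_iff_det e).2 (isUnit_iff_ne_zero.2 hc)
  let c' := Module.Basis.mk h1.1 h1.2.ge
  have hc' : ∀ j, c' j = c j := fun j => by simp [c']
  have h2 : ∀ j, e.det (Function.update c j b) = c'.repr b j * e.det c := by
    intro j
    have h3 : b = ∑ l, c'.repr b l • c l := by
      conv_lhs => rw [← c'.sum_repr b]
      exact Finset.sum_congr rfl fun l _ => by rw [hc']
    conv_lhs => rw [h3]
    rw [AlternatingMap.map_update_sum]
    rw [Finset.sum_eq_single j]
    · rw [AlternatingMap.map_update_smul, Function.update_eq_self, smul_eq_mul]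
    · intro l _ hl
      rw [AlternatingMap.map_update_smul, AlternatingMap.map_update_self _ _ hl.symm, smul_zero]
    · intro h
      exact absurd (Finset.mem_univ _) h
  conv_lhs => rw [← c'.sum_repr b]
  refine Finset.sum_congr rfl fun j _ => ?_
  rw [hc', h2, mul_div_cancel_right₀ _ hc]

end defs

section aklb

variable {A C K L : Type*} [CommRing A] [IsDomain A] [CommRing C] [IsDomain C] [Field K] [Field L]
  [Algebra A C] [Algebra A K] [Algebra C L] [Algebra K L] [Algebra A L] [IsScalarTower A K L]
  [IsScalarTower A C L] [IsFractionRing A K] [IsFractionRing C L] [IsIntegrallyClosed A]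
  [IsIntegrallyClosed C] [Module.Finite A C] [Module.IsTorsionFree A C] [FiniteDimensional K L]

/-- The norms of the quotients of elements of `K` by a fixed element generate the unit ideal. -/
theorem span_norm {G : Type*} (s : G → C) (hs : Ideal.span (Set.range s) = ⊤) (δ : G → K) (μ : L)
    (hμ : μ ≠ 0) (hδ : ∀ g, algebraMap K L (δ g) = μ * algebraMap C L (s g)) :
    Ideal.span (Set.range fun g => Algebra.intNorm A C (s g)) = ⊤ := by
  classical
  set n := Module.finrank K L with hn
  have hn0 : 0 < n := Module.finrank_pos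
  have hNμ : Algebra.norm K μ ≠ 0 := by
    rwa [Ne, Algebra.norm_eq_zero_iff]
  have hNμ' : algebraMap K L (Algebra.norm K μ) ≠ 0 := (map_ne_zero _).2 hNμ
  have hN : ∀ g, algebraMap A K (Algebra.intNorm A C (s g)) =
      Algebra.norm K (algebraMap C L (s g)) := fun g => Algebra.algebraMap_intNorm (K := K) (L := L) _
  let u : L := μ ^ n / algebraMap K L (Algebra.norm K μ)
  have hu : ∀ g, algebraMap C L (algebraMap A C (Algebra.intNorm A C (s g))) =
      u * algebraMap C L (s g) ^ n := by
    intro g
    rw [← IsScalarTower.algebraMap_apply A C L, IsScalarTower.algebraMap_apply A K L, hN]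
    have h1 := congrArg (Algebra.norm K) (hδ g)
    rw [Algebra.norm_algebraMap, map_mul] at h1
    have h2 := congrArg (algebraMap K L) h1
    rw [map_mul, map_pow, hδ g, mul_pow] at h2
    rw [div_mul_eq_mul_div, eq_div_iff hNμ', h2]
    ring
  -- `u` lies in `C`
  have hpow : Ideal.span ((fun x => x ^ n) '' (Set.range s)) = ⊤ := Ideal.span_pow_eq_top _ hs n
  have h1 : (1 : C) ∈ Ideal.span (Set.range fun g => s g ^ n) := by
    have : (Set.range fun g => s g ^ n) = (fun x => x ^ n) '' (Set.range s) := by
      rw [← Set.range_comp]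
      rfl
    rw [this, hpow]
    trivial
  rw [Ideal.span, Finsupp.mem_span_range_iff_exists_finsupp] at h1
  obtain ⟨b, hb⟩ := h1
  let v : C := b.sum fun g x => x * algebraMap A C (Algebra.intNorm A C (s g))
  have hv : algebraMap C L v = u := by
    have h2 : algebraMap C L v = u * algebraMap C L (b.sum fun g x => x • s g ^ n) := by
      simp only [v, Finsupp.sum]
      rw [map_sum, map_sum, Finset.mul_sum]
      refine Finset.sum_congr rfl fun g _ => ?_
      rw [map_mul, hu, smul_eq_mul, map_mul, map_pow]
      ring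
    rw [h2, hb, map_one, mul_one]
  have hv1 : IsUnit v := by
    have h2 : Algebra.intNorm A C v = 1 := by
      apply IsFractionRing.injective A K
      rw [Algebra.algebraMap_intNorm (K := K) (L := L), hv, map_one]
      have h3 : u * algebraMap K L (Algebra.norm K μ) = μ ^ n := div_mul_cancel₀ _ hNμ'
      have h4 := congrArg (Algebra.norm K) h3
      rw [map_mul, map_pow, Algebra.norm_algebraMap] at h4
      exact mul_right_cancel₀ (pow_ne_zero n hNμ) (by rw [h4, one_mul])
    have h3 := Algebra.dvd_algebraMap_intNorm_self A C v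
    rw [h2, map_one] at h3
    exact isUnit_of_dvd_one h3
  by_contra hne
  obtain ⟨m, hm, hle⟩ := Ideal.exists_le_maximal _ hne
  have hinj : Function.Injective (algebraMap A C) := FaithfulSMul.algebraMap_injective A C
  obtain ⟨Q, hQ, hQm⟩ := Ideal.exists_ideal_over_maximal_of_isIntegral (S := C) m (by
    rw [(RingHom.injective_iff_ker_eq_bot _).1 hinj]
    exact bot_le)
  apply hQ.ne_top
  rw [eq_top_iff, ← hs, Ideal.span_le]
  rintro _ ⟨g, rfl⟩
  have h2 : algebraMap A C (Algebra.intNorm A C (s g)) ∈ Q := by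
    rw [← Ideal.mem_comap, hQm]
    exact hle (Ideal.subset_span ⟨g, rfl⟩)
  have h3 : algebraMap A C (Algebra.intNorm A C (s g)) = v * s g ^ n := by
    apply IsFractionRing.injective C L
    rw [hu, map_mul, map_pow, hv]
  rw [h3] at h2
  rcases hQ.isPrime.mem_or_mem h2 with h4 | h4
  · exact absurd (Ideal.eq_top_of_isUnit_mem _ h4 hv1) hQ.ne_top
  · exact hQ.isPrime.mem_of_pow_mem n h4

end aklb

section chart

variable {k E L : Type u} [Field k] [PerfectField k] [Field E] [Field L] [Algebra k E] [Algebra k L]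
  [Algebra E L] [IsScalarTower k E L]

/-- **The discriminant criterion.** -/
theorem smooth_infM (p : ℕ) [hp : Fact p.Prime] [CharP k p] (M : IntermediateField E L)
    [FiniteDimensional M L] (C : Subalgebra k L) [Algebra.Smooth k C]
    (hfrac : ∀ x : L, ∃ a ∈ C, ∃ b ∈ C, b ≠ 0 ∧ x = a * b⁻¹)
    (hint : ∀ x ∈ C, IsIntegral (infM C M) x) {ι : Type*} [Fintype ι] [DecidableEq ι]
    (e : Module.Basis ι M L) (μ : L) (hμ : μ ≠ 0) (s : (ι → C) → C)
    (hs : ∀ c, ((e.det fun i => ((c i : C) : L) : M) : L) = μ * s c)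
    (hsp : Ideal.span (Set.range s) = ⊤) : Algebra.Smooth k (infM C M) := by
  classical
  set A := infM C M with hA
  have hAC : A ≤ C := infM_le C M
  let _ : Algebra A C := (Subalgebra.inclusion hAC).toRingHom.toAlgebra
  let _ : Algebra A M := RingHom.toAlgebra
    { toFun := fun x => ⟨x.1, x.2.2⟩
      map_one' := rfl
      map_mul' := fun _ _ => rfl
      map_zero' := rfl
      map_add' := fun _ _ => rfl }
  have t1 : IsScalarTower A M L := IsScalarTower.of_algebraMap_eq fun x => rfl
  have t2 : IsScalarTower A C L := IsScalarTower.of_algebraMap_eq fun x => rfl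
  have t3 : IsScalarTower k A C := IsScalarTower.of_algebraMap_eq fun x => rfl
  have hCL : Function.Injective (algebraMap C L) := Subtype.val_injective
  have hACi : Function.Injective (algebraMap A C) := Subalgebra.inclusion_injective hAC
  have hint' : Algebra.IsIntegral A C := by
    constructor
    intro x
    rw [← isIntegral_algebraMap_iff hCL]
    exact hint x x.2
  have hfr1 : IsFractionRing C L := by
    refine IsFractionRing.of_field C L fun z => ?_
    obtain ⟨a, ha, b, hb, hb0, rfl⟩ := hfrac z
    exact ⟨⟨a, ha⟩, ⟨b, hb⟩, by rw [div_eq_mul_inv]; rfl⟩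
  have hft : Algebra.FiniteType A C := Algebra.FiniteType.of_restrictScalars_finiteType k A C
  have hfin : Module.Finite A C := Algebra.IsIntegral.finite
  have htf : Module.IsTorsionFree A C := by
    rw [Module.isTorsionFree_iff_algebraMap_injective]
    exact hACi
  have hAMi : Function.Injective (algebraMap A M) := fun x y h =>
    Subtype.ext (congrArg (fun z : M => (z : L)) h)
  have hfs : FaithfulSMul A M := (faithfulSMul_iff_algebraMap_injective A M).2 hAMi
  have hfr2 : IsFractionRing A M := by
    refine IsFractionRing.of_field A M fun z => ?_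
    obtain ⟨a, b, hb, hab⟩ := IsFractionRing.div_surjective (A := C) (z : L)
    have hb0 : b ≠ 0 := nonZeroDivisors.ne_zero hb
    obtain ⟨c, d, hd0, hcd⟩ := Algebra.IsAlgebraic.exists_smul_eq_mul A a hb0
    have hbL : (b : L) ≠ 0 := fun h => hb0 (Subtype.ext h)
    have hdL : (d : L) ≠ 0 := fun h => hd0 (Subtype.ext h)
    have h1 : (d : L) * (a : L) = (b : L) * (c : L) := congrArg Subtype.val hcd
    have h2 : (z : L) = (c : L) / (d : L) := by
      rw [← hab]
      change (a : L) / (b : L) = (c : L) / (d : L)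
      rw [div_eq_div_iff hbL hdL]
      linear_combination h1
    have h3 : (c : L) ∈ M := by
      have h4 : (c : L) = z * d := by rw [h2, div_mul_cancel₀ _ hdL]
      rw [h4]
      exact M.mul_mem z.2 d.2.2
    refine ⟨⟨c, c.2, h3⟩, d, ?_⟩
    apply Subtype.ext
    change (z : L) = (c : L) / (d : L)
    exact h2
  have hic1 : IsIntegrallyClosed C := isIntegrallyClosed_of_smooth p (k := k)
  have hic2 : IsIntegrallyClosed A := by
    rw [isIntegrallyClosed_iff M]
    intro x hx
    have h1 : IsIntegral C (x : L) := by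
      have h2 : IsIntegral A (x : L) := hx.map (IsScalarTower.toAlgHom A M L)
      exact h2.tower_top
    obtain ⟨y, hy⟩ := (isIntegrallyClosed_iff L).1 hic1 h1
    have h3 : (x : L) ∈ C := by rw [← hy]; exact y.2
    exact ⟨⟨x, h3, x.2⟩, rfl⟩
  -- the norms
  have hspan := span_norm (A := A) (C := C) (K := M) (L := L) s hsp
    (fun c => e.det fun i => ((c i : C) : L)) μ hμ hs
  let N : (ι → C) → A := fun c => Algebra.intNorm A C (s c)
  let G := {c : ι → C // N c ≠ 0}
  have hspan' : Ideal.span (Set.range fun c : G => (⟨(N c.1 : L), (N c.1).2⟩ : A)) = ⊤ := by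
    rw [eq_top_iff, ← hspan, Ideal.span_le]
    rintro _ ⟨c, rfl⟩
    by_cases h0 : N c = 0
    · change N c ∈ _
      rw [h0]
      exact Ideal.zero_mem _
    · exact Ideal.subset_span ⟨⟨c, h0⟩, rfl⟩
  refine smooth_of_cover A (fun c : G => (N c.1 : L)) (fun c => (N c.1).2)
    (fun c h => c.2 (Subtype.ext h)) hspan' ?_
  rintro ⟨c, hc⟩
  -- the local statement
  set η : L := (N c : L) with hη
  have hη0 : η ≠ 0 := fun h => hc (Subtype.ext h)
  have hηA : η ∈ A := (N c).2
  have hηC : η ∈ C := hAC hηA
  have hsmC : Algebra.Smooth k (adj C η⁻¹) := smooth_adj_inv hηC hη0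
  have hle : adj A η⁻¹ ≤ adj C η⁻¹ := by
    intro x hx
    rw [mem_adj_inv hηA hη0] at hx
    rw [mem_adj_inv hηC hη0]
    obtain ⟨n, hn⟩ := hx
    exact ⟨n, hAC hn⟩
  obtain ⟨w, hw⟩ := Algebra.dvd_algebraMap_intNorm_self A C (s c)
  have hwL : η = (s c : L) * (w : L) := congrArg Subtype.val hw
  have hs0 : (s c : L) ≠ 0 := by
    intro h
    apply hη0
    rw [hwL, h, zero_mul]
  have hdet : e.det (fun i => ((c i : C) : L)) ≠ 0 := by
    intro h
    have h1 := hs c
    rw [h] at h1
    exact (mul_ne_zero hμ hs0) h1.symm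
  let _ : Algebra (adj A η⁻¹) (adj C η⁻¹) := (Subalgebra.inclusion hle).toRingHom.toAlgebra
  have t4 : IsScalarTower k (adj A η⁻¹) (adj C η⁻¹) := IsScalarTower.of_algebraMap_eq fun x => rfl
  have hAM : ∀ x ∈ adj A η⁻¹, x ∈ M := by
    intro x hx
    rw [mem_adj_inv hηA hη0] at hx
    obtain ⟨n, hn⟩ := hx
    have h1 : x = x * η ^ n * (η ^ n)⁻¹ := (mul_inv_cancel_right₀ (pow_ne_zero _ hη0) x).symm
    rw [h1]
    exact M.mul_mem hn.2 (M.inv_mem (pow_mem hηA.2 _))
  let cc : ι → adj C η⁻¹ := fun i => ⟨c i, le_adj C _ (c i).2⟩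
  have hli : LinearIndependent (adj A η⁻¹) cc := by
    rw [Fintype.linearIndependent_iff]
    intro g hg i
    have h1 := ((Module.Basis.is_basis_iff_det e).2 (isUnit_iff_ne_zero.2 hdet)).1
    rw [Fintype.linearIndependent_iff] at h1
    have h2 := h1 (fun i => (⟨g i, hAM _ (g i).2⟩ : M)) (by
      have h3 := congrArg (fun z : adj C η⁻¹ => (z : L)) hg
      rw [AddSubmonoidClass.coe_finsetSum] at h3
      exact h3) i
    exact Subtype.ext (congrArg (fun z : M => (z : L)) h2)
  have hspc : ⊤ ≤ Submodule.span (adj A η⁻¹) (Set.range cc) := by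
    rintro ⟨b, hb⟩ _
    obtain ⟨n, hn⟩ := (mem_adj_inv hηC hη0).1 hb
    have h1 := cramer e hdet (b * η ^ n)
    let x : ι → M := fun j => e.det (Function.update (fun i => ((c i : C) : L)) j (b * η ^ n)) /
      e.det (fun i => ((c i : C) : L))
    have hx : ∀ j, (x j : L) * η ∈ A := by
      intro j
      have h2 : (fun i => ((Function.update c j ⟨b * η ^ n, hn⟩ i : C) : L)) =
          Function.update (fun i => ((c i : C) : L)) j (b * η ^ n) := by
        funext i
        rw [Function.update_apply, Function.update_apply]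
        split_ifs <;> rfl
      have h3 := hs (Function.update c j ⟨b * η ^ n, hn⟩)
      rw [h2] at h3
      have h4 : (x j : L) * η = (s (Function.update c j ⟨b * η ^ n, hn⟩) : L) * w := by
        change ((e.det (Function.update (fun i => ((c i : C) : L)) j (b * η ^ n)) : M) : L) /
          ((e.det (fun i => ((c i : C) : L)) : M) : L) * η = _
        rw [h3, hs c]
        have key : ∀ Z : L, μ * Z / (μ * (s c : L)) * η = Z * w := by
          intro Z
          rw [hwL]
          field_simp
        exact key _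
      refine ⟨?_, M.mul_mem (x j).2 hηA.2⟩
      rw [h4]
      exact (s _ * w).2
    have hx' : ∀ j, (x j : L) * (η ^ n)⁻¹ ∈ adj A η⁻¹ := by
      intro j
      rw [mem_adj_inv hηA hη0]
      refine ⟨n + 1, ?_⟩
      have h2 : (x j : L) * (η ^ n)⁻¹ * η ^ (n + 1) = (x j : L) * η := by
        rw [pow_succ]
        field_simp
      rw [h2]
      exact hx j
    rw [Submodule.mem_span_range_iff_exists_fun]
    refine ⟨fun j => ⟨(x j : L) * (η ^ n)⁻¹, hx' j⟩, ?_⟩
    apply Subtype.ext
    rw [AddSubmonoidClass.coe_finsetSum]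
    change ∑ j, ((x j : L) * (η ^ n)⁻¹) * (c j : L) = b
    have h2 : b * η ^ n = ∑ j, (x j : L) * (c j : L) := h1
    have h3 : ∑ j, ((x j : L) * (η ^ n)⁻¹) * (c j : L) = (∑ j, (x j : L) * (c j : L)) * (η ^ n)⁻¹ := by
      rw [Finset.sum_mul]
      exact Finset.sum_congr rfl fun j _ => by ring
    rw [h3, ← h2]
    exact mul_inv_cancel_right₀ (pow_ne_zero _ hη0) b
  exact smooth_descent p (Module.Basis.mk hli hspc)

end chart

end Pool.Agent.Q40.FC
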