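import Pool.Agent.Q40.FC.Group

/-! The discriminant module of a finite cover whose relation is extended from the base. -/

set_option autoImplicit false
set_option linter.unusedSectionVars false

universe u

open Finset

namespace Pool.Agent.Q40.FC

open Pool.Agent.W558 Pool.Agent.H920R2 Pool.Agent.Q40.RS Pool.Agent.Q40.FF Pool.Agent.W418.LCI

/-- Multilinear maps and submodules. -/
theorem multilinear_mem' {A W N : Type*} [CommRing A] [AddCommGroup W] [Module A W]
    [AddCommGroup N] [Module A N] {ι : Type*}
    [Fintype ι] [DecidableEq ι] (f : MultilinearMap A (fun _ : ι => W) N) (S : Set W)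
    (J : Submodule A N) (h : ∀ c : ι → W, (∀ i, c i ∈ S) → f c ∈ J) (c : ι → W)
    (hc : ∀ i, c i ∈ Submodule.span A S) : f c ∈ J := by
  have key : ∀ T : Finset ι, ∀ c : ι → W, (∀ i ∈ T, c i ∈ Submodule.span A S) →
      (∀ i ∉ T, c i ∈ S) → f c ∈ J := by
    intro T
    induction T using Finset.induction with
    | empty => exact fun c _ hc => h c fun i => hc i (by simp)
    | insert j T hj ih =>
      intro c hc1 hc2
      have h1 : ∀ x ∈ Submodule.span A S, f (Function.update c j x) ∈ J := by
        intro x hx
        induction hx using Submodule.span_induction with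
        | mem x hx =>
          refine ih _ ?_ ?_
          · intro i hi
            have : i ≠ j := fun h => hj (h ▸ hi)
            rw [Function.update_of_ne this]
            exact hc1 i (Finset.mem_insert_of_mem hi)
          · intro i hi
            by_cases hij : i = j
            · subst hij
              rw [Function.update_self]
              exact hx
            · rw [Function.update_of_ne hij]
              exact hc2 i (fun h => (Finset.mem_insert.1 h).elim hij hi)
        | zero => rw [MultilinearMap.map_update_zero]; exact J.zero_mem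
        | add x y _ _ hx hy => rw [MultilinearMap.map_update_add]; exact J.add_mem hx hy
        | smul a x _ hx => rw [MultilinearMap.map_update_smul]; exact J.smul_mem _ hx
      have h2 := h1 (c j) (hc1 j (Finset.mem_insert_self _ _))
      rwa [Function.update_eq_self] at h2
  exact key Finset.univ c (fun i _ => hc i) (fun i hi => absurd (Finset.mem_univ i) hi)

section

variable {k E L : Type u} [Field k] [Field E] [Field L] [Algebra k E] [Algebra k L]
  [Algebra E L] [IsScalarTower k E L]

/-- the denominators can be taken in the smaller field -/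
theorem exists_den_infM (F : IntermediateField E L) (B : Subalgebra k L)
    (hfr : ∀ x : L, ∃ a ∈ B, ∃ b ∈ B, b ≠ 0 ∧ x = a * b⁻¹)
    (hint : ∀ x ∈ B, IsIntegral (infM B F) x) (x : L) :
    ∃ a ∈ B, ∃ b ∈ infM B F, b ≠ 0 ∧ x = a * b⁻¹ := by
  obtain ⟨a, ha, b, hb, hb0, rfl⟩ := hfr x
  set A := infM B F with hA
  have hAB : A ≤ B := infM_le B F
  let _ : Algebra A B := (Subalgebra.inclusion hAB).toRingHom.toAlgebra
  have t2 : IsScalarTower A B L := IsScalarTower.of_algebraMap_eq fun x => rfl
  have hBL : Function.Injective (algebraMap B L) := Subtype.val_injective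
  have hint' : Algebra.IsIntegral A B := by
    constructor
    intro x
    rw [← isIntegral_algebraMap_iff hBL]
    exact hint x x.2
  have hb' : (⟨b, hb⟩ : B) ≠ 0 := fun h => hb0 (congrArg Subtype.val h)
  obtain ⟨c, d, hd0, hcd⟩ := Algebra.IsAlgebraic.exists_smul_eq_mul A (⟨a, ha⟩ : B) hb'
  have hd0' : (d : L) ≠ 0 := fun h => hd0 (Subtype.ext h)
  have h1 : (d : L) * a = b * (c : L) := congrArg Subtype.val hcd
  refine ⟨c, c.2, d, d.2, hd0', ?_⟩
  rw [← div_eq_mul_inv, ← div_eq_mul_inv, div_eq_div_iff hb0 hd0']
  linear_combination h1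

variable (F : IntermediateField E L) {ι : Type*} [Fintype ι] [DecidableEq ι]
  (e : Module.Basis ι F L) {T : Type*} [CommRing T] [Algebra L T] (σ : L →+* T)
  (hσ : ∀ x ∈ F, σ x = algebraMap L T x) (eT : Module.Basis ι L T) (heT : ∀ i, eT i = σ (e i))

include hσ heT

theorem repr_frame (x : L) (i : ι) : eT.repr (σ x) i = (e.repr x i : L) := by
  have h1 : σ x = ∑ i, (e.repr x i : L) • eT i := by
    conv_lhs => rw [← e.sum_repr x]
    rw [map_sum]
    refine Finset.sum_congr rfl fun i _ => ?_
    have h2 : e.repr x i • e i = (e.repr x i : L) * e i := rfl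
    rw [h2, map_mul, hσ _ (e.repr x i).2, heT, Algebra.smul_def]
  rw [h1, eT.repr_sum_self]

theorem det_frame (c : ι → L) : eT.det (fun i => σ (c i)) = (e.det c : L) := by
  rw [Module.Basis.det_apply, Module.Basis.det_apply]
  have h1 : ((Matrix.det (e.toMatrix c) : F) : L) =
      Matrix.det ((e.toMatrix c).map (algebraMap F L)) := by
    rw [← RingHom.mapMatrix_apply, ← RingHom.map_det]
    rfl
  rw [h1]
  congr 1
  ext i j
  rw [Module.Basis.toMatrix_apply, repr_frame F e σ hσ eT heT, Matrix.map_apply,
    Module.Basis.toMatrix_apply]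
  rfl

variable [Algebra E T] [IsScalarTower E L T]

/-- **Constant relations have constant discriminants.** -/
theorem disc_of_frame (R : Subalgebra k E) (hR : ∀ x : E, ∃ a ∈ R, ∃ b ∈ R, b ≠ 0 ∧ x = a * b⁻¹)
    (B : Subalgebra k L) [Algebra.FiniteType k B]
    (hfr : ∀ x : L, ∃ a ∈ B, ∃ b ∈ B, b ≠ 0 ∧ x = a * b⁻¹)
    (hint : ∀ x ∈ B, IsIntegral (infM B F) x) (ρ : R →+* B)
    (hρ : ∀ x : R, (ρ x : L) = algebraMap E L x) (V : Set T)
    (hV : Submodule.span B (σ '' (B : Set L)) = Submodule.span B V) (w : ι → T)
    (hw : ∀ v ∈ V, v ∈ Submodule.span E (Set.range w)) :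
    ∃ (lam : L) (δ : (ι → B) → B) (I : Ideal R), lam ≠ 0 ∧ I ≠ ⊥ ∧
      (∀ c : ι → B, (e.det (fun i => (c i : L)) : L) = lam * δ c) ∧
      Ideal.span (Set.range δ) = I.map ρ := by
  classical
  -- the span over `L`
  have hVL : Submodule.span L V = ⊤ := by
    rw [eq_top_iff, ← eT.span_eq, Submodule.span_le]
    rintro _ ⟨i, rfl⟩
    obtain ⟨a, ha, b, hb, hb0, hab⟩ := exists_den_infM F B hfr hint (e i)
    have h1 : eT i = b⁻¹ • σ a := by
      rw [heT, hab, map_mul, hσ _ (F.inv_mem hb.2), Algebra.smul_def, mul_comm]
    rw [h1]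
    refine Submodule.smul_mem _ _ ?_
    have h2 : σ a ∈ Submodule.span B V := by
      rw [← hV]
      exact Submodule.subset_span ⟨a, ha, rfl⟩
    exact Submodule.span_subset_span B L V h2
  have hwL : Submodule.span L (Set.range w) = ⊤ := by
    rw [eq_top_iff, ← hVL, Submodule.span_le]
    intro v hv
    exact Submodule.span_subset_span E L _ (hw v hv)
  have hcard : Fintype.card ι = Module.finrank L T := (Module.finrank_eq_card_basis eT).symm
  have hwli : LinearIndependent L w := linearIndependent_of_top_le_span_of_card_eq_finrank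
    hwL.ge hcard
  have hwdet : eT.det w ≠ 0 := by
    have := (Module.Basis.is_basis_iff_det eT).1 ⟨hwli, hwL⟩
    exact this.ne_zero
  -- the determinants of the elements of `V`
  have hD : ∀ v : ι → T, (∀ i, v i ∈ V) → ∃ x : E, eT.det v = eT.det w * algebraMap E L x := by
    intro v hv
    have h1 : ∀ j, ∃ A : ι → E, ∑ i, A i • w i = v j := fun j =>
      (Submodule.mem_span_range_iff_exists_fun E).1 (hw _ (hv j))
    choose A hA using h1
    refine ⟨Matrix.det (Matrix.of fun i j => A j i), ?_⟩
    rw [Module.Basis.det_apply, Module.Basis.det_apply, RingHom.map_det, ← Matrix.det_mul]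
    congr 1
    ext i j
    rw [Matrix.mul_apply, Module.Basis.toMatrix_apply, ← hA j, map_sum, Finsupp.finsetSum_apply]
    refine Finset.sum_congr rfl fun l _ => ?_
    rw [Module.Basis.toMatrix_apply, RingHom.mapMatrix_apply, Matrix.map_apply, Matrix.of_apply,
      ← algebraMap_smul L (A j l) (w l), map_smul, Finsupp.smul_apply, smul_eq_mul, mul_comm]
  -- finitely many elements of `V`
  set C := infM B F with hC
  have hCB : C ≤ B := infM_le B F
  have hfg : (Submodule.span B V).FG := by
    rw [← hV]
    let _ : Algebra C B := (Subalgebra.inclusion hCB).toRingHom.toAlgebra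
    have t3 : IsScalarTower k C B := IsScalarTower.of_algebraMap_eq fun x => rfl
    have t2 : IsScalarTower C B L := IsScalarTower.of_algebraMap_eq fun x => rfl
    have hint' : Algebra.IsIntegral C B := by
      constructor
      intro x
      rw [← isIntegral_algebraMap_iff (B := L) Subtype.val_injective]
      exact hint x x.2
    have hft : Algebra.FiniteType C B := Algebra.FiniteType.of_restrictScalars_finiteType k C B
    have hfin : Module.Finite C B := Algebra.IsIntegral.finite
    obtain ⟨S, hS⟩ := hfin.fg_top
    refine ⟨S.image fun b : B => σ (b : L), ?_⟩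
    apply le_antisymm
    · rw [Submodule.span_le]
      intro t ht
      obtain ⟨b, -, rfl⟩ := Finset.mem_image.1 (Finset.mem_coe.1 ht)
      exact Submodule.subset_span ⟨b, b.2, rfl⟩
    · rw [Submodule.span_le]
      rintro _ ⟨b, hb, rfl⟩
      have h1 : (⟨b, hb⟩ : B) ∈ Submodule.span C (S : Set B) := by rw [hS]; trivial
      have h2 : ∀ b : B, b ∈ Submodule.span C (S : Set B) → σ (b : L) ∈
          Submodule.span B ((S.image fun b : B => σ (b : L) : Finset T) : Set T) := by
        intro b hb
        induction hb using Submodule.span_induction with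
        | mem x hx =>
          refine Submodule.subset_span ?_
          exact Finset.mem_coe.2 (Finset.mem_image_of_mem _ (Finset.mem_coe.1 hx))
        | zero => rw [ZeroMemClass.coe_zero, map_zero]; exact Submodule.zero_mem _
        | add x y _ _ hx hy =>
          rw [Subalgebra.coe_add, map_add]; exact Submodule.add_mem _ hx hy
        | smul c x _ hx =>
          have h3 : ((c • x : B) : L) = (c : L) * (x : L) := rfl
          have h4 : σ (c : L) * σ (x : L) = (⟨c, hCB c.2⟩ : B) • σ (x : L) := by
            rw [hσ _ c.2.2, ← Algebra.smul_def]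
            rfl
          rw [h3, map_mul, h4]
          exact Submodule.smul_mem _ _ hx
      exact h2 _ h1
  obtain ⟨V0, hV0, hV0s⟩ := Submodule.fg_span_iff_fg_span_finset_subset _ |>.1 hfg
  -- the family of determinants
  let G := ι → V0
  let v : G → ι → T := fun g i => (g i : T)
  have hvV : ∀ g i, v g i ∈ V := fun g i => hV0 (g i).2
  choose x hx using fun g : G => hD (v g) (hvV g)
  obtain ⟨d, hdR, hd0, hd⟩ := Pool.Agent.W22.W558Restr.exists_den R hR (Finset.univ.image x)
  have hdx : ∀ g, d * x g ∈ R := fun g => hd _ (Finset.mem_image_of_mem _ (Finset.mem_univ g))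
  have hdL : algebraMap E L d ≠ 0 := (map_ne_zero _).2 hd0
  let lam : L := eT.det w / algebraMap E L d
  have hlam : lam ≠ 0 := div_ne_zero hwdet hdL
  have hlx : ∀ g, eT.det (v g) = lam * algebraMap E L (d * x g) := by
    intro g
    rw [hx g, map_mul]
    change _ = eT.det w / algebraMap E L d * (algebraMap E L d * algebraMap E L (x g))
    rw [← mul_assoc, div_mul_cancel₀ _ hdL]
  let I : Ideal R := Ideal.span (Set.range fun g : G => (⟨d * x g, hdx g⟩ : R))
  let mm : Ideal B → Submodule B L := fun J =>
    Submodule.map ((LinearMap.mulLeft B lam) ∘ₗ Algebra.linearMap B L) J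
  have hmm : ∀ J y, y ∈ mm J ↔ ∃ b ∈ J, lam * (b : L) = y := fun J y => Iff.rfl
  have hupper : ∀ u : ι → T, (∀ i, u i ∈ Submodule.span B V) → eT.det u ∈ mm (I.map ρ) := by
    intro u hu
    refine multilinear_mem' (A := B) (eT.det.toMultilinearMap.restrictScalars B)
      (V0 : Set T) (mm (I.map ρ)) ?_ u (fun i => by rw [← hV0s]; exact hu i)
    intro c hc
    let g : G := fun i => ⟨c i, hc i⟩
    have h1 : c = v g := rfl
    rw [hmm]
    refine ⟨ρ ⟨d * x g, hdx g⟩, Ideal.mem_map_of_mem _ (Ideal.subset_span ⟨g, rfl⟩), ?_⟩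
    rw [hρ]
    exact (hlx g).symm
  have hδ : ∀ c : ι → B, ∃ b ∈ I.map ρ, lam * (b : L) = (e.det (fun i => (c i : L)) : L) := by
    intro c
    have h1 := hupper (fun i => σ (c i)) (fun i => by
      rw [← hV]
      exact Submodule.subset_span ⟨_, (c i).2, rfl⟩)
    rw [det_frame F e σ hσ eT heT, hmm] at h1
    exact h1
  choose δ hδI hδ using hδ
  refine ⟨lam, δ, I, hlam, ?_, fun c => (hδ c).symm, ?_⟩
  · -- not zero
    intro hI0
    have h1 : ∀ g : G, eT.det (v g) = 0 := by
      intro g
      have h2 : (⟨d * x g, hdx g⟩ : R) ∈ I := Ideal.subset_span ⟨g, rfl⟩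
      rw [hI0, Ideal.mem_bot] at h2
      have h3 : d * x g = 0 := congrArg Subtype.val h2
      rw [hlx, h3, map_zero, mul_zero]
    have h2 : Submodule.span L (V0 : Set T) = ⊤ := by
      rw [eq_top_iff, ← hVL, Submodule.span_le]
      intro t ht
      have h3 : t ∈ Submodule.span B (V0 : Set T) := by
        rw [← hV0s]
        exact Submodule.subset_span ht
      exact Submodule.span_subset_span B L _ h3
    have h3 := multilinear_mem' (A := L) eT.det.toMultilinearMap (V0 : Set T) ⊥
      (by
        intro c hc
        rw [Submodule.mem_bot]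
        exact h1 fun i => ⟨c i, hc i⟩) eT (fun i => by rw [h2]; trivial)
    rw [Submodule.mem_bot] at h3
    exact one_ne_zero (eT.det_self.symm.trans h3)
  · apply le_antisymm
    · rw [Ideal.span_le]
      rintro _ ⟨c, rfl⟩
      exact hδI c
    · rw [Ideal.map_span, Ideal.span_le]
      rintro _ ⟨_, ⟨g, rfl⟩, rfl⟩
      have h1 := multilinear_mem' (A := B) (eT.det.toMultilinearMap.restrictScalars B)
        (σ '' (B : Set L)) (mm (Ideal.span (Set.range δ))) (by
          intro c hc
          choose b hb hbc using hc
          have h2 : c = fun i => σ ((⟨b i, hb i⟩ : B) : L) := funext fun i => (hbc i).symm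
          rw [hmm]
          refine ⟨δ fun i => ⟨b i, hb i⟩, Ideal.subset_span ⟨_, rfl⟩, ?_⟩
          rw [hδ]
          have h3 := det_frame F e σ hσ eT heT (fun i => ((⟨b i, hb i⟩ : B) : L))
          rw [← h3, h2]
          rfl) (v g) (fun i => by rw [hV]; exact Submodule.subset_span (hvV g i))
      rw [hmm] at h1
      obtain ⟨b, hb, hb1⟩ := h1
      have h2 : lam * (b : L) = lam * algebraMap E L (d * x g) := hb1.trans (hlx g)
      have h3 := mul_left_cancel₀ hlam h2
      have h4 : b = ρ ⟨d * x g, hdx g⟩ := Subtype.ext (by rw [h3, hρ])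
      rw [← h4]
      exact hb

end

end Pool.Agent.Q40.FC
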