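import Pool.Agent.Q40.FC.Chart

/-! Actions of `𝔾_a` on affine space over a base, and the invariants of finite flat subgroups. -/

set_option autoImplicit false
set_option linter.unusedSectionVars false

universe u

open Finset

namespace Pool.Agent.Q40.FC

open Pool.Agent.W558 Pool.Agent.Q40.RS Pool.Agent.Q40.FF

section co

variable {R : Type u} [CommRing R] {n : ℕ}

/-- The coaction `f ↦ f (x + t ℓ)`. -/
noncomputable def co (ℓ : Fin n → MvPolynomial (Fin n) R) :
    MvPolynomial (Fin n) R →ₐ[R] Polynomial (MvPolynomial (Fin n) R) :=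
  MvPolynomial.aeval fun j => Polynomial.C (MvPolynomial.X j) + Polynomial.X * Polynomial.C (ℓ j)

/-- The equation of a finite flat subgroup scheme of the additive group. -/
noncomputable def addp (p m : ℕ) {A : Type*} [CommRing A] (c : Fin m → A) : Polynomial A :=
  Polynomial.X ^ p ^ m + ∑ i : Fin m, Polynomial.C (c i) * Polynomial.X ^ p ^ (i : ℕ)

lemma addp_monic {p : ℕ} (hp : 1 < p) (m : ℕ) {A : Type*} [CommRing A] (c : Fin m → A) :
    (addp p m c).Monic := by
  refine Polynomial.monic_X_pow_add ?_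
  refine lt_of_le_of_lt (Polynomial.degree_sum_le _ _) ?_
  rw [Finset.sup_lt_iff]
  · intro i _
    refine lt_of_le_of_lt (Polynomial.degree_C_mul_X_pow_le _ _) ?_
    exact_mod_cast Nat.pow_lt_pow_right hp i.2
  · exact WithBot.bot_lt_coe _

lemma addp_natDegree {p : ℕ} (hp : 1 < p) (m : ℕ) {A : Type*} [CommRing A] [Nontrivial A]
    (c : Fin m → A) : (addp p m c).natDegree = p ^ m := by
  apply Polynomial.natDegree_eq_of_degree_eq_some
  unfold addp
  rw [Polynomial.degree_add_eq_left_of_degree_lt, Polynomial.degree_X_pow]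
  rw [Polynomial.degree_X_pow]
  refine lt_of_le_of_lt (Polynomial.degree_sum_le _ _) ?_
  rw [Finset.sup_lt_iff]
  · intro i _
    refine lt_of_le_of_lt (Polynomial.degree_C_mul_X_pow_le _ _) ?_
    exact_mod_cast Nat.pow_lt_pow_right hp i.2
  · exact WithBot.bot_lt_coe _

lemma addp_map (p m : ℕ) {A A' : Type*} [CommRing A] [CommRing A'] (f : A →+* A')
    (c : Fin m → A) : (addp p m c).map f = addp p m (f ∘ c) := by
  unfold addp
  rw [Polynomial.map_add, Polynomial.map_pow, Polynomial.map_X, Polynomial.map_sum]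
  congr 1
  refine Finset.sum_congr rfl fun i _ => ?_
  rw [Polynomial.map_mul, Polynomial.map_C, Polynomial.map_pow, Polynomial.map_X]
  rfl

/-- The homogenized additive polynomial. -/
def nrm (p m : ℕ) {A : Type*} [CommRing A] (c : Fin m → A) (y z : A) : A :=
  y ^ p ^ m + ∑ i : Fin m, c i * z ^ (p ^ m - p ^ (i : ℕ)) * y ^ p ^ (i : ℕ)

/-- The invariants of the subgroup scheme. -/
def invs (k : Type u) [Field k] [Algebra k R] (p m : ℕ) (c : Fin m → R)
    (ℓ : Fin n → MvPolynomial (Fin n) R) : Subalgebra k (MvPolynomial (Fin n) R) where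
  carrier := {f | (addp p m c).map (algebraMap R (MvPolynomial (Fin n) R)) ∣
    co ℓ f - Polynomial.C f}
  mul_mem' := by
    intro a b ha hb
    have h1 : co ℓ (a * b) - Polynomial.C (a * b) = (co ℓ a - Polynomial.C a) * co ℓ b +
        Polynomial.C a * (co ℓ b - Polynomial.C b) := by
      rw [map_mul, Polynomial.C_mul]; ring
    rw [Set.mem_ofPred_eq]
    rw [h1]
    exact dvd_add (Dvd.dvd.mul_right ha _) (Dvd.dvd.mul_left hb _)
  add_mem' := by
    intro a b ha hb
    have h1 : co ℓ (a + b) - Polynomial.C (a + b) = (co ℓ a - Polynomial.C a) +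
        (co ℓ b - Polynomial.C b) := by
      rw [map_add, Polynomial.C_add]; ring
    rw [Set.mem_ofPred_eq]
    rw [h1]
    exact dvd_add ha hb
  algebraMap_mem' := by
    intro a
    rw [Set.mem_ofPred_eq]
    have h1 : co ℓ (algebraMap k (MvPolynomial (Fin n) R) a) - Polynomial.C (algebraMap k
        (MvPolynomial (Fin n) R) a) = 0 := by
      rw [IsScalarTower.algebraMap_apply k R (MvPolynomial (Fin n) R), AlgHom.commutes, sub_eq_zero]
      rfl
    rw [h1]
    exact dvd_zero _

variable {k : Type u} [Field k] [Algebra k R] {p m : ℕ} {c : Fin m → R}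
  {ℓ : Fin n → MvPolynomial (Fin n) R}

lemma mem_invs {f : MvPolynomial (Fin n) R} : f ∈ invs k p m c ℓ ↔
    (addp p m c).map (algebraMap R (MvPolynomial (Fin n) R)) ∣ co ℓ f - Polynomial.C f := Iff.rfl

lemma mem_invs_of_eq {f : MvPolynomial (Fin n) R} (h : co ℓ f = Polynomial.C f) :
    f ∈ invs k p m c ℓ := by
  rw [mem_invs, h, sub_self]
  exact dvd_zero _

lemma co_X (j : Fin n) : co ℓ (MvPolynomial.X j) =
    Polynomial.C (MvPolynomial.X j) + Polynomial.X * Polynomial.C (ℓ j) :=
  MvPolynomial.aeval_X _ _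

lemma co_C (a : R) : co ℓ (MvPolynomial.C a) = Polynomial.C (MvPolynomial.C a) := by
  have := (co ℓ).commutes a
  exact this

/-- The norm of a coordinate is invariant. -/
lemma nrm_mem [Fact p.Prime] [CharP R p] {j : Fin n}
    (h : co ℓ (ℓ j) = Polynomial.C (ℓ j)) :
    nrm p m (fun i => (MvPolynomial.C (c i) : MvPolynomial (Fin n) R)) (MvPolynomial.X j) (ℓ j) ∈
      invs k p m c ℓ := by
  have hp1 : 1 ≤ p := (Fact.out : p.Prime).one_le
  have h0 : CharP (Polynomial (MvPolynomial (Fin n) R)) p := inferInstance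
  rw [mem_invs]
  refine ⟨Polynomial.C (ℓ j ^ p ^ m), ?_⟩
  unfold nrm
  rw [addp_map, addp, map_add, map_pow, map_sum, co_X, add_pow_char_pow, Polynomial.C_add,
    map_sum, add_mul, Finset.sum_mul]
  have h2 : ∀ i : Fin m, co ℓ (MvPolynomial.C (c i) * ℓ j ^ (p ^ m - p ^ (i : ℕ)) *
      MvPolynomial.X j ^ p ^ (i : ℕ)) =
      Polynomial.C (MvPolynomial.C (c i) * ℓ j ^ (p ^ m - p ^ (i : ℕ)) *
      MvPolynomial.X j ^ p ^ (i : ℕ)) + Polynomial.C ((algebraMap R (MvPolynomial (Fin n) R)
        ∘ c) i) * Polynomial.X ^ p ^ (i : ℕ) * Polynomial.C (ℓ j ^ p ^ m) := by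
    intro i
    have h3 : ℓ j ^ p ^ m = ℓ j ^ (p ^ m - p ^ (i : ℕ)) * ℓ j ^ p ^ (i : ℕ) := by
      rw [← pow_add, Nat.sub_add_cancel (Nat.pow_le_pow_right hp1 i.2.le)]
    rw [map_mul, map_mul, map_pow, map_pow, h, co_C, co_X, add_pow_char_pow, h3]
    simp only [Polynomial.C_mul, Polynomial.C_pow, mul_pow, Function.comp_apply,
      MvPolynomial.algebraMap_eq]
    ring
  rw [Finset.sum_congr rfl fun i _ => h2 i, Finset.sum_add_distrib, mul_pow,
    Polynomial.C_pow, Polynomial.C_pow]
  ring

/-- Affine linear forms which are invariant. -/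
def IsInvForm (ℓ : Fin n → MvPolynomial (Fin n) R) (w : MvPolynomial (Fin n) R) : Prop :=
  ∃ (a : Fin n → R) (b : R), w = ∑ j, MvPolynomial.C (a j) * MvPolynomial.X j +
    MvPolynomial.C b ∧ ∑ j, MvPolynomial.C (a j) * ℓ j = 0

lemma co_form {w : MvPolynomial (Fin n) R} (h : IsInvForm ℓ w) : co ℓ w = Polynomial.C w := by
  obtain ⟨a, b, rfl, h1⟩ := h
  have h2 : ∀ j, co ℓ (MvPolynomial.C (a j) * MvPolynomial.X j) =
      Polynomial.C (MvPolynomial.C (a j) * MvPolynomial.X j) +
        Polynomial.X * Polynomial.C (MvPolynomial.C (a j) * ℓ j) := by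
    intro j
    rw [map_mul, co_C, co_X, Polynomial.C_mul, Polynomial.C_mul]
    ring
  rw [map_add, map_sum, Finset.sum_congr rfl fun j _ => h2 j, Finset.sum_add_distrib,
    ← Finset.mul_sum, co_C, ← map_sum, ← map_sum, h1, map_zero, mul_zero, add_zero,
    Polynomial.C_add]

lemma co_closure {w : MvPolynomial (Fin n) R}
    (h : w ∈ Submonoid.closure {w | IsInvForm ℓ w}) : co ℓ w = Polynomial.C w := by
  induction h using Submonoid.closure_induction with
  | mem w hw => exact co_form hw
  | one => rw [map_one, map_one]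
  | mul x y _ _ hx hy => rw [map_mul, hx, hy, Polynomial.C_mul]

/-- The powers of a coordinate are linearly independent over the invariants. -/
lemma indep_invs [IsDomain R] (hp : 1 < p) {a : Fin n} (ha : ℓ a ≠ 0)
    (f : Fin (p ^ m) → MvPolynomial (Fin n) R) (hf : ∀ h, f h ∈ invs k p m c ℓ)
    (h0 : ∑ h, f h * MvPolynomial.X a ^ (h : ℕ) = 0) : ∀ h, f h = 0 := by
  set π := (addp p m c).map (algebraMap R (MvPolynomial (Fin n) R)) with hπ
  have hπm : π.Monic := (addp_monic hp m c).map _
  have hπd : π.natDegree = p ^ m := by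
    rw [hπ, addp_map, addp_natDegree hp]
  let y : Polynomial (MvPolynomial (Fin n) R) :=
    Polynomial.C (ℓ a) * Polynomial.X + Polynomial.C (MvPolynomial.X a)
  have hy : y.natDegree = 1 := Polynomial.natDegree_linear ha
  let P : Polynomial (MvPolynomial (Fin n) R) := ∑ h : Fin (p ^ m), Polynomial.C (f h) *
    Polynomial.X ^ (h : ℕ)
  have hPd : P.degree < (p ^ m : ℕ) := by
    refine lt_of_le_of_lt (Polynomial.degree_sum_le _ _) ?_
    rw [Finset.sup_lt_iff]
    · intro i _
      refine lt_of_le_of_lt (Polynomial.degree_C_mul_X_pow_le _ _) ?_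
      exact_mod_cast i.2
    · exact WithBot.bot_lt_coe _
  have hdvd : π ∣ P.comp y := by
    have h1 : P.comp y = -∑ h, (co ℓ (f h) - Polynomial.C (f h)) * y ^ (h : ℕ) := by
      have h2 : P.comp y = ∑ h, Polynomial.C (f h) * y ^ (h : ℕ) := by
        simp [P, Polynomial.sum_comp]
      have h3 := congrArg (co ℓ) h0
      rw [map_sum, map_zero] at h3
      have h4 : ∑ h, co ℓ (f h) * y ^ (h : ℕ) = 0 := by
        rw [← h3]
        refine Finset.sum_congr rfl fun h _ => ?_
        rw [map_mul, map_pow, co_X]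
        congr 2
        simp only [y]
        ring
      rw [h2, ← sub_eq_zero, sub_neg_eq_add, ← Finset.sum_add_distrib, ← h4]
      refine Finset.sum_congr rfl fun h _ => ?_
      ring
    rw [h1]
    refine (Finset.dvd_sum fun h _ => ?_).neg_right
    exact Dvd.dvd.mul_right (hf h) _
  have h1 : P.comp y = 0 := by
    by_contra hne
    have h2 := Polynomial.natDegree_le_of_dvd hdvd hne
    rw [hπd, Polynomial.natDegree_comp, hy, mul_one] at h2
    have hP0 : P ≠ 0 := by
      rintro h
      rw [h, Polynomial.zero_comp] at hne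
      exact hne rfl
    rw [Polynomial.degree_eq_natDegree hP0] at hPd
    have h3 : P.natDegree < p ^ m := by exact_mod_cast hPd
    omega
  have h2 : P = 0 := by
    rcases Polynomial.comp_eq_zero_iff.1 h1 with h | ⟨-, h⟩
    · exact h
    · rw [h, Polynomial.natDegree_C] at hy
      omega
  intro h
  have h3 := congrArg (fun Q => Polynomial.coeff Q (h : ℕ)) h2
  simp only [Polynomial.coeff_zero] at h3
  rw [← h3]
  simp only [P, Polynomial.finsetSum_coeff, Polynomial.coeff_C_mul, Polynomial.coeff_X_pow]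
  rw [Finset.sum_eq_single h]
  · simp
  · intro i _ hi
    rw [if_neg, mul_zero]
    intro h4
    exact hi (Fin.ext h4.symm)
  · intro h; exact absurd (Finset.mem_univ _) h

/-- The invariants are integrally closed in the fractions of invariants. -/
lemma invs_div [IsDomain R] (hp : 1 < p) {a b d : MvPolynomial (Fin n) R}
    (ha : a ∈ invs k p m c ℓ) (hb : b ∈ invs k p m c ℓ) (hb0 : b ≠ 0) (h : d * b = a) :
    d ∈ invs k p m c ℓ := by
  set π := (addp p m c).map (algebraMap R (MvPolynomial (Fin n) R)) with hπ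
  have hπm : π.Monic := (addp_monic hp m c).map _
  rw [mem_invs, ← hπ] at ha hb ⊢
  have h1 : π ∣ Polynomial.C b * (co ℓ d - Polynomial.C d) := by
    have h2 : Polynomial.C b * (co ℓ d - Polynomial.C d) = (co ℓ a - Polynomial.C a) -
        (co ℓ b - Polynomial.C b) * co ℓ d := by
      rw [← h, map_mul, Polynomial.C_mul]
      ring
    rw [h2]
    exact dvd_sub ha (Dvd.dvd.mul_right hb _)
  rw [← Polynomial.modByMonic_eq_zero_iff_dvd hπm] at h1 ⊢
  rw [← Polynomial.smul_eq_C_mul, Polynomial.smul_modByMonic] at h1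
  exact (smul_eq_zero.1 h1).resolve_left hb0

end co

end Pool.Agent.Q40.FC
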