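import Pool.Agent.Q40.FC.GaRes

/-! Examples of the quotients: unipotent automorphisms and vector fields. -/

set_option autoImplicit false
set_option linter.unusedSectionVars false

universe u

open Finset

namespace Pool.Agent.Q40.FC

section ex

variable {k R : Type u} [Field k] [CommRing R] [IsDomain R] [Algebra k R] {n : ℕ}
  {ℓ : Fin n → MvPolynomial (Fin n) R} {p : ℕ} [hp : Fact p.Prime] [CharP k p]


/-- The automorphism `x ↦ x + ℓ (x)`. -/
noncomputable def tr (ℓ : Fin n → MvPolynomial (Fin n) R) :
    MvPolynomial (Fin n) R →ₐ[R] MvPolynomial (Fin n) R :=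
  MvPolynomial.aeval fun j => MvPolynomial.X j + ℓ j

lemma eval_co (i : ℕ) (hℓ : ∀ j, co ℓ (ℓ j) = Polynomial.C (ℓ j)) (f : (MvPolynomial (Fin n) R)) :
    (co ℓ f).eval (i : (MvPolynomial (Fin n) R)) = (tr ℓ)^[i] f := by
  have hev : ∀ (a : (MvPolynomial (Fin n) R)) (f : (MvPolynomial (Fin n) R)), (co ℓ f).eval a =
      MvPolynomial.aeval (fun j => MvPolynomial.X j + a * ℓ j) f := by
    intro a f
    have h1 : ((Polynomial.evalRingHom a).comp (co ℓ).toRingHom) =
        (MvPolynomial.aeval (R := R) (fun j => (MvPolynomial.X j : (MvPolynomial (Fin n) R)) + a * ℓ j)).toRingHom := by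
      apply MvPolynomial.ringHom_ext
      · intro r
        change (co ℓ (MvPolynomial.C r)).eval a = MvPolynomial.aeval _ (MvPolynomial.C r)
        rw [co_C, Polynomial.eval_C, MvPolynomial.algHom_C]
        rfl
      · intro j
        change (co ℓ (MvPolynomial.X j)).eval a = MvPolynomial.aeval _ (MvPolynomial.X j)
        rw [co_X, MvPolynomial.aeval_X, Polynomial.eval_add, Polynomial.eval_mul,
          Polynomial.eval_C, Polynomial.eval_X, Polynomial.eval_C]
    exact congrArg (fun g : (MvPolynomial (Fin n) R) →+* (MvPolynomial (Fin n) R) => g f) h1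
  have htr : ∀ j, tr ℓ (ℓ j) = ℓ j := by
    intro j
    have h1 := hev 1 (ℓ j)
    rw [hℓ, Polynomial.eval_C] at h1
    simp only [one_mul] at h1
    exact h1.symm
  have key : ∀ i : ℕ, (MvPolynomial.aeval (fun j => (MvPolynomial.X j : (MvPolynomial (Fin n) R)) + (i : (MvPolynomial (Fin n) R)) * ℓ j) :
      (MvPolynomial (Fin n) R) →ₐ[R] (MvPolynomial (Fin n) R)) = (tr ℓ) ^ i := by
    intro i
    induction i with
    | zero =>
      apply MvPolynomial.algHom_ext
      intro j
      rw [MvPolynomial.aeval_X, Nat.cast_zero, zero_mul, add_zero, pow_zero]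
      rfl
    | succ i ih =>
      apply MvPolynomial.algHom_ext
      intro j
      rw [MvPolynomial.aeval_X, pow_succ', ← ih]
      change _ = tr ℓ (MvPolynomial.aeval _ (MvPolynomial.X j))
      rw [MvPolynomial.aeval_X, map_add, map_mul, htr, map_natCast]
      rw [tr, MvPolynomial.aeval_X, Nat.cast_add, Nat.cast_one]
      ring
  rw [hev, key]
  have h2 : ∀ i : ℕ, ((tr ℓ) ^ i : (MvPolynomial (Fin n) R) →ₐ[R] (MvPolynomial (Fin n) R)) f = (tr ℓ)^[i] f := by
    intro i
    induction i with
    | zero => rfl
    | succ i ih =>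
      rw [pow_succ', Function.iterate_succ_apply', ← ih]
      rfl
  exact h2 i

/-- The invariants of the group of order `p`. -/
lemma mem_invs_tr (hℓ : ∀ j, co ℓ (ℓ j) = Polynomial.C (ℓ j)) (f : (MvPolynomial (Fin n) R)) :
    f ∈ invs k p 1 (fun _ => (-1 : R)) ℓ ↔ tr ℓ f = f := by
  have hRC : CharP R p := charP_of_injective_algebraMap (algebraMap k R).injective p
  have hBC : CharP (MvPolynomial (Fin n) R) p := inferInstance
  have hp1 := hp.out.one_lt
  set π := (addp p 1 (fun _ => (-1 : R))).map (algebraMap R (MvPolynomial (Fin n) R)) with hπ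
  have hπe : ∀ a : (MvPolynomial (Fin n) R), π.eval a = a ^ p - a := by
    intro a
    rw [hπ, addp_map, addp]
    simp [sub_eq_add_neg]
  constructor
  · intro h
    rw [mem_invs] at h
    obtain ⟨g, hg⟩ := h
    have h1 := congrArg (Polynomial.eval ((1 : ℕ) : (MvPolynomial (Fin n) R))) hg
    rw [Polynomial.eval_sub, eval_co 1 hℓ, Polynomial.eval_C, Polynomial.eval_mul, ← hπ, hπe,
      Nat.cast_one, one_pow, sub_self, zero_mul, sub_eq_zero] at h1
    exact h1
  · intro h
    rw [mem_invs]
    have hπm : π.Monic := (addp_monic hp1 1 _).map _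
    have hπd : π.natDegree = p := by
      rw [hπ, addp_map, addp_natDegree hp1, pow_one]
    rw [← hπ, ← Polynomial.modByMonic_eq_zero_iff_dvd hπm]
    set g := co ℓ f - Polynomial.C f with hg
    have hroot : ∀ i : Fin p, (g %ₘ π).eval ((i : ℕ) : (MvPolynomial (Fin n) R)) = 0 := by
      intro i
      have h1 : π.eval ((i : ℕ) : (MvPolynomial (Fin n) R)) = 0 := by
        rw [hπe, sub_eq_zero]
        have := map_natCast (frobenius (MvPolynomial (Fin n) R) p) (i : ℕ)
        rwa [frobenius_def] at this
      have h2 := Polynomial.modByMonic_add_div g π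
      have h3 := congrArg (Polynomial.eval ((i : ℕ) : (MvPolynomial (Fin n) R))) h2
      rw [Polynomial.eval_add, Polynomial.eval_mul, h1, zero_mul, add_zero] at h3
      rw [h3, hg, Polynomial.eval_sub, eval_co _ hℓ, Polynomial.eval_C, sub_eq_zero]
      have h4 : ∀ i : ℕ, (tr ℓ)^[i] f = f := by
        intro i
        induction i with
        | zero => rfl
        | succ i ih => rw [Function.iterate_succ_apply', ih, h]
      exact h4 _
    have hinj : Function.Injective fun i : Fin p => ((i : ℕ) : (MvPolynomial (Fin n) R)) := by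
      intro i j hij
      exact Fin.ext (CharP.natCast_injOn_Iio (MvPolynomial (Fin n) R) p i.2 j.2 hij)
    by_contra hne
    refine hne (Polynomial.eq_zero_of_natDegree_lt_card_of_eval_eq_zero _ hinj hroot ?_)
    rw [Fintype.card_fin, ← hπd]
    exact Polynomial.natDegree_modByMonic_lt g hπm (fun h => by
      rw [h, Polynomial.natDegree_one] at hπd
      exact hp.out.ne_zero hπd.symm)

/-- The vector field `∑ ℓ j ∂ / ∂ x j`. -/
noncomputable def vf (ℓ : Fin n → MvPolynomial (Fin n) R) :
    Derivation R (MvPolynomial (Fin n) R) (MvPolynomial (Fin n) R) :=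
  MvPolynomial.mkDerivation R ℓ

lemma derivative_co (hℓ : ∀ j, co ℓ (ℓ j) = Polynomial.C (ℓ j)) (f : (MvPolynomial (Fin n) R)) :
    Polynomial.derivative (co ℓ f) = co ℓ (vf ℓ f) := by
  induction f using MvPolynomial.induction_on with
  | C a =>
    rw [co_C, Polynomial.derivative_C, vf, MvPolynomial.derivation_C, map_zero]
  | add a b ha hb => rw [map_add, map_add, ha, hb, map_add, map_add]
  | mul_X a j ha =>
    have h1 : vf ℓ (a * MvPolynomial.X j) = a * ℓ j + MvPolynomial.X j * vf ℓ a := by
      rw [Derivation.leibniz, smul_eq_mul, smul_eq_mul, vf, MvPolynomial.mkDerivation_X]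
    rw [h1, map_mul, Polynomial.derivative_mul, ha, map_add, map_mul, map_mul, co_X, hℓ]
    simp only [Polynomial.derivative_add, Polynomial.derivative_C, Polynomial.derivative_mul,
      Polynomial.derivative_X]
    ring

lemma coeff_zero_co (f : (MvPolynomial (Fin n) R)) : (co ℓ f).coeff 0 = f := by
  rw [Polynomial.coeff_zero_eq_eval_zero]
  induction f using MvPolynomial.induction_on with
  | C a => rw [co_C, Polynomial.eval_C]
  | add a b ha hb => rw [map_add, Polynomial.eval_add, ha, hb]
  | mul_X a j ha =>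
    rw [map_mul, Polynomial.eval_mul, ha, co_X]
    simp

/-- The invariants of the infinitesimal group of order `p`. -/
lemma mem_invs_vf (hℓ : ∀ j, co ℓ (ℓ j) = Polynomial.C (ℓ j)) (f : (MvPolynomial (Fin n) R)) :
    f ∈ invs k p 1 (fun _ => (0 : R)) ℓ ↔ vf ℓ f = 0 := by
  have hRC : CharP R p := charP_of_injective_algebraMap (algebraMap k R).injective p
  have hBC : CharP (MvPolynomial (Fin n) R) p := inferInstance
  have hp1 := hp.out.one_lt
  have hπ : (addp p 1 (fun _ => (0 : R))).map (algebraMap R (MvPolynomial (Fin n) R)) = Polynomial.X ^ p := by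
    rw [addp_map, addp]
    simp
  rw [mem_invs, hπ, Polynomial.X_pow_dvd_iff]
  have hcoef : ∀ i, (co ℓ f - Polynomial.C f).coeff (i + 1) = (co ℓ f).coeff (i + 1) := by
    intro i
    rw [Polynomial.coeff_sub, Polynomial.coeff_C_succ, sub_zero]
  constructor
  · intro h
    have h1 := h 1 hp1
    rw [hcoef 0] at h1
    have h2 := congrArg (fun g => Polynomial.coeff g 0) (derivative_co hℓ f)
    simp only [Polynomial.coeff_derivative, zero_add, Nat.cast_zero, mul_one] at h2
    rw [coeff_zero_co, h1] at h2
    exact h2.symm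
  · intro h i hi
    rcases i with _ | i
    · rw [Polynomial.coeff_sub, coeff_zero_co, Polynomial.coeff_C_zero, sub_self]
    · rw [hcoef]
      have h2 := congrArg (fun g => Polynomial.coeff g i) (derivative_co hℓ f)
      simp only [Polynomial.coeff_derivative] at h2
      rw [h, map_zero, Polynomial.coeff_zero] at h2
      have h3 : ((i : (MvPolynomial (Fin n) R)) + 1) ≠ 0 := by
        have h4 : ((i + 1 : ℕ) : (MvPolynomial (Fin n) R)) ≠ 0 := by
          rw [Ne, CharP.cast_eq_zero_iff (MvPolynomial (Fin n) R) p]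
          intro h5
          exact absurd (Nat.le_of_dvd (Nat.succ_pos i) h5) (not_le.2 hi)
        rwa [Nat.cast_add, Nat.cast_one] at h4
      exact (mul_eq_zero.1 h2).resolve_right h3

end ex

section mat

variable {k R : Type u} [Field k] [CommRing R] [IsDomain R] [Algebra k R] {n : ℕ}

/-- The affine linear functions `N x + b`. -/
noncomputable def aff (N : Matrix (Fin n) (Fin n) R) (b : Fin n → R) (j : Fin n) :
    MvPolynomial (Fin n) R :=
  ∑ i, MvPolynomial.C (N j i) * MvPolynomial.X i + MvPolynomial.C (b j)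

/-- The functions `N x + b` are invariant under `x ↦ x + t (N x + b)` if `N ^ 2 = 0` and
`N b = 0`. -/
lemma aff_form {N : Matrix (Fin n) (Fin n) R} {b : Fin n → R} (hN : N * N = 0)
    (hb : N.mulVec b = 0) (j : Fin n) : IsInvForm (aff N b) (aff N b j) := by
  refine ⟨N j, b j, rfl, ?_⟩
  unfold aff
  simp only [mul_add, Finset.sum_add_distrib, Finset.mul_sum]
  rw [Finset.sum_comm]
  have h1 : ∀ l, ∑ i, MvPolynomial.C (N j i) * (MvPolynomial.C (N i l) *
      (MvPolynomial.X l : MvPolynomial (Fin n) R)) = 0 := by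
    intro l
    have h2 := congrFun (congrFun hN j) l
    rw [Matrix.mul_apply] at h2
    simp only [← mul_assoc, ← map_mul]
    rw [← Finset.sum_mul, ← map_sum, h2]
    simp
  have h3 : ∑ i, MvPolynomial.C (N j i) * (MvPolynomial.C (b i) : MvPolynomial (Fin n) R) =
      0 := by
    have h2 := congrFun hb j
    rw [Matrix.mulVec, dotProduct] at h2
    simp only [← map_mul]
    rw [← map_sum, h2]
    simp
  rw [h3, add_zero]
  exact Finset.sum_eq_zero fun l _ => h1 l

end mat

end Pool.Agent.Q40.FC
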