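import Pool.Agent.Q40.FC.Lin

/-! The resolution of the quotients of affine space over a surface by finite flat subgroup schemes
of the additive group. -/

set_option autoImplicit false
set_option linter.unusedSectionVars false

universe u

open Finset

namespace Pool.Agent.Q40.FC

open Pool.Agent.W558 Pool.Agent.H920R2 Pool.Agent.Q40.RS Pool.Agent.Q40.FF Pool.Agent.W418.LCI AlgebraicGeometry
  CategoryTheory

section frac

variable {k B K L : Type u} [Field k] [CommRing B] [IsDomain B] [Algebra k B] [Field K]
  [Algebra k K] [Field L] [Algebra k L] [Algebra B L] [IsScalarTower k B L] [Algebra K L]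
  [IsScalarTower k K L] [IsFractionRing B L]

/-- The fractions of elements of a subalgebra `A`. -/
def frF (A : Subalgebra k B) (L : Type u) [Field L] [Algebra B L] : Subfield L :=
  Subfield.closure (algebraMap B L '' (A : Set B))

lemma mem_frF {A : Subalgebra k B} {z : L} : z ∈ frF A L ↔
    ∃ a ∈ A, ∃ b ∈ A, b ≠ 0 ∧ z = algebraMap B L a / algebraMap B L b := by
  have hBL : Function.Injective (algebraMap B L) := IsFractionRing.injective B L
  have h1 : Subring.closure (algebraMap B L '' (A : Set B)) = A.toSubring.map (algebraMap B L) := by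
    rw [← Subring.closure_eq (A.toSubring.map (algebraMap B L))]
    rfl
  rw [frF, Subfield.mem_closure_iff, h1]
  constructor
  · rintro ⟨_, ⟨a, ha, rfl⟩, _, ⟨b, hb, rfl⟩, rfl⟩
    by_cases hb0 : b = 0
    · refine ⟨0, A.zero_mem, 1, A.one_mem, one_ne_zero, ?_⟩
      rw [hb0, map_zero, div_zero, zero_div]
    · exact ⟨a, ha, b, hb, hb0, rfl⟩
  · rintro ⟨a, ha, b, hb, -, rfl⟩
    exact ⟨_, ⟨a, ha, rfl⟩, _, ⟨b, hb, rfl⟩, rfl⟩

lemma frF_mem {A : Subalgebra k B} {a : B} (ha : a ∈ A) : algebraMap B L a ∈ frF A L :=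
  Subfield.subset_closure ⟨a, ha, rfl⟩

end frac

section fld

variable {k R E L : Type u} [Field k] [PerfectField k] [CommRing R] [IsDomain R] [Algebra k R] [Field E]
  [Algebra k E] [Algebra R E] [IsScalarTower k R E] [IsFractionRing R E] {n : ℕ}
  [Field L] [Algebra k L] [Algebra (MvPolynomial (Fin n) R) L]
  [IsScalarTower k (MvPolynomial (Fin n) R) L] [IsFractionRing (MvPolynomial (Fin n) R) L]
  [Algebra R L]
  [IsScalarTower R (MvPolynomial (Fin n) R) L] [Algebra E L] [IsScalarTower R E L]
  [IsScalarTower k E L] {ℓ : Fin n → MvPolynomial (Fin n) R}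


lemma map_C (a : R) : algebraMap (MvPolynomial (Fin n) R) L (MvPolynomial.C a) = algebraMap E L (algebraMap R E a) := by
  rw [← IsScalarTower.algebraMap_apply R E L,
    IsScalarTower.algebraMap_apply R (MvPolynomial (Fin n) R) L]
  rfl

/-- Denominators of invariant forms. -/
lemma exists_form {w : L} (hw : w ∈ WW E L ℓ) : ∃ (w' : (MvPolynomial (Fin n) R)) (d : R), IsInvForm ℓ w' ∧ d ≠ 0 ∧
    algebraMap (MvPolynomial (Fin n) R) L (MvPolynomial.C d) * w = algebraMap (MvPolynomial (Fin n) R) L w' := by
  classical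
  obtain ⟨a, b, rfl, h1⟩ := mem_WW.1 hw
  obtain ⟨d, hd⟩ := IsLocalization.exist_integer_multiples_of_finset (nonZeroDivisors R)
    (insert b (Finset.univ.image a))
  choose g hg using hd
  have hd0 : (d : R) ≠ 0 := nonZeroDivisors.ne_zero d.2
  let a' : Fin n → R := fun j => g (a j) (by simp)
  have ha' : ∀ j, algebraMap R E (a' j) = algebraMap R E d * a j := by
    intro j
    have := hg (a j) (by simp)
    rw [Algebra.smul_def] at this
    exact this
  let b' : R := g b (by simp)
  have hb' : algebraMap R E b' = algebraMap R E d * b := by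
    have := hg b (by simp)
    rw [Algebra.smul_def] at this
    exact this
  refine ⟨∑ j, MvPolynomial.C (a' j) * MvPolynomial.X j + MvPolynomial.C b', d,
    ⟨a', b', rfl, ?_⟩, hd0, ?_⟩
  · apply IsFractionRing.injective (MvPolynomial (Fin n) R) L
    rw [map_zero, map_sum]
    have h2 : ∀ j, algebraMap (MvPolynomial (Fin n) R) L (MvPolynomial.C (a' j) * ℓ j) =
        algebraMap E L (algebraMap R E d) * (a j • lL R L ℓ j) := by
      intro j
      rw [map_mul, map_C (E := E), ha', map_mul, Algebra.smul_def, mul_assoc]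
      rfl
    rw [Finset.sum_congr rfl fun j _ => h2 j, ← Finset.mul_sum, h1, mul_zero]
  · rw [map_add, map_sum, map_C (E := E), map_C (E := E), hb', mul_add, Finset.mul_sum]
    congr 1
    · refine Finset.sum_congr rfl fun j _ => ?_
      rw [map_mul, map_C (E := E), ha', map_mul, Algebra.smul_def, mul_assoc]
      rfl
    · rw [map_mul, Algebra.smul_def, mul_one]

instance instTowerK (K : IntermediateField E L) : IsScalarTower k K L :=
  IsScalarTower.of_algebraMap_eq fun x => by
    rw [IsScalarTower.algebraMap_apply k E L, IsScalarTower.algebraMap_apply k E K]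
    rfl

section K

variable {K : IntermediateField E L} (hK : K = IntermediateField.adjoin E (WW E L ℓ : Set L))

include hK

lemma WW_le_K {w : L} (hw : w ∈ WW E L ℓ) : w ∈ K := by
  rw [hK]
  exact IntermediateField.subset_adjoin _ _ hw

lemma form_mem_K {w : (MvPolynomial (Fin n) R)} (hw : w ∈ Submonoid.closure {w | IsInvForm ℓ w}) :
    algebraMap (MvPolynomial (Fin n) R) L w ∈ K := by
  induction hw using Submonoid.closure_induction with
  | mem w hw => exact WW_le_K hK (form_mem_WW hw)
  | one => rw [map_one]; exact K.one_mem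
  | mul x y _ _ hx hy => rw [map_mul]; exact K.mul_mem hx hy

variable {p m : ℕ} {c : Fin m → R}

lemma C_mem_invs (a : R) : MvPolynomial.C a ∈ invs k p m c ℓ := mem_invs_of_eq (co_C a)

/-- The elements of `K` are fractions of invariants. -/
lemma K_le_frF (x : K) : (x : L) ∈ frF (invs k p m c ℓ) L := by
  have h1 : IntermediateField.adjoin E (WW E L ℓ : Set L) ≤
      (frF (invs k p m c ℓ) L).toIntermediateField (fun x => by
        obtain ⟨a, b, hb, rfl⟩ := IsFractionRing.div_surjective (A := R) x
        rw [map_div₀, ← map_C (n := n) a, ← map_C (n := n) b]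
        exact div_mem (frF_mem (C_mem_invs hK a)) (frF_mem (C_mem_invs hK b))) := by
    refine IntermediateField.adjoin_le_iff.2 fun w hw => ?_
    obtain ⟨w', d, hw', hd, h⟩ := exists_form hw
    change w ∈ frF (invs k p m c ℓ) L
    have hd' : algebraMap (MvPolynomial (Fin n) R) L (MvPolynomial.C d) ≠ 0 := by
      intro h0
      have h2 := IsFractionRing.injective (MvPolynomial (Fin n) R) L (h0.trans (map_zero _).symm)
      exact hd (MvPolynomial.C_injective _ _ (h2.trans (map_zero _).symm))
    have h3 : w = algebraMap (MvPolynomial (Fin n) R) L w' / algebraMap (MvPolynomial (Fin n) R) L (MvPolynomial.C d) := by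
      rw [← h, mul_div_cancel_left₀ _ hd']
    rw [h3]
    exact div_mem (frF_mem (mem_invs_of_eq (co_form hw'))) (frF_mem (C_mem_invs hK d))
  have h2 : (x : L) ∈ IntermediateField.adjoin E (WW E L ℓ : Set L) := by
    rw [← hK]
    exact x.2
  exact h1 h2

/-- The elements of `K` are fractions of elements of `K` which are regular functions. -/
lemma K_frac (x : K) : ∃ a ∈ capE k (MvPolynomial (Fin n) R) K L, ∃ b ∈ capE k (MvPolynomial (Fin n) R) K L, b ≠ 0 ∧ x = a * b⁻¹ := by
  have hCK : ∀ a : R, algebraMap E K (algebraMap R E a) ∈ capE k (MvPolynomial (Fin n) R) K L := by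
    intro a
    rw [mem_capE]
    refine ⟨MvPolynomial.C a, ?_⟩
    rw [map_C (E := E)]
    rfl
  let F0 : Subfield K := Subfield.closure (capE k (MvPolynomial (Fin n) R) K L : Set K)
  have h1 : (⊤ : IntermediateField E K) ≤ F0.toIntermediateField (fun x => by
        obtain ⟨a, b, hb, rfl⟩ := IsFractionRing.div_surjective (A := R) x
        rw [map_div₀]
        exact div_mem (Subfield.subset_closure (hCK a)) (Subfield.subset_closure (hCK b))) := by
    rw [← adjoin_preimage K hK]
    refine IntermediateField.adjoin_le_iff.2 fun w hw => ?_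
    have hwW : (w : L) ∈ WW E L ℓ := hw
    obtain ⟨w', d, hw', hd, h⟩ := exists_form (R := R) (E := E) hwW
    change w ∈ F0
    have hd' : algebraMap E K (algebraMap R E d) ≠ 0 := by
      rw [Ne, map_eq_zero]
      intro h0
      exact hd (IsFractionRing.injective R E (h0.trans (map_zero _).symm))
    have h3 : (⟨algebraMap (MvPolynomial (Fin n) R) L w', form_mem_K hK (Submonoid.subset_closure hw')⟩ : K) ∈
        capE k (MvPolynomial (Fin n) R) K L := mem_capE.2 ⟨w', rfl⟩
    have h4 : w = (⟨algebraMap (MvPolynomial (Fin n) R) L w', form_mem_K hK (Submonoid.subset_closure hw')⟩ : K) /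
        algebraMap E K (algebraMap R E d) := by
      rw [eq_div_iff hd', mul_comm]
      apply Subtype.ext
      have h5 := h
      rw [map_C (E := E)] at h5
      exact h5
    rw [h4]
    exact div_mem (Subfield.subset_closure h3) (Subfield.subset_closure (hCK d))
  have h2 : x ∈ F0 := h1 (by trivial)
  have h3 : Subring.closure (capE k (MvPolynomial (Fin n) R) K L : Set K) = (capE k (MvPolynomial (Fin n) R) K L).toSubring :=
    Subring.closure_eq (capE k (MvPolynomial (Fin n) R) K L).toSubring
  rw [Subfield.mem_closure_iff, h3] at h2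
  obtain ⟨a, ha, b, hb, rfl⟩ := h2
  by_cases hb0 : b = 0
  · refine ⟨0, Subalgebra.zero_mem _, 1, Subalgebra.one_mem _, one_ne_zero, ?_⟩
    rw [hb0, div_zero, zero_mul]
  · exact ⟨a, ha, b, hb, hb0, div_eq_mul_inv _ _⟩

section chart

variable {r : ℕ} {s : Fin r → Fin n} (hs : LinearIndependent E (lL R L ℓ ∘ s))
  {α : Fin n → Fin r → E} (hα : ∀ j, lL R L ℓ j = ∑ l, α j l • lL R L ℓ (s l))
  (hr : r = Module.finrank E (Submodule.span E (Set.range (lL R L ℓ))))
  (C : Subalgebra k K)

include hs hα hr

/-- The charts are smooth. -/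
theorem chart_smooth (hC : Algebra.Smooth k C) (hαC : ∀ j l, algebraMap E K (α j l) ∈ C)
    (S : Finset R) (hS : Algebra.adjoin k (S : Set R) = ⊤)
    (hSC : ∀ a ∈ S, a ≠ 0 → algebraMap E K (algebraMap R E a) ∈ C ∨
      (algebraMap E K (algebraMap R E a))⁻¹ ∈ C)
    (hu : ∀ j, ∀ z : K, (z : L) = uu (R := R) s α j → z ≠ 0 → z ∈ C ∨ z⁻¹ ∈ C) :
    Algebra.Smooth k (mulA C (img k (MvPolynomial (Fin n) R) L)) := by
  classical
  let uK : Fin n → K := fun j => ⟨uu (R := R) s α j, WW_le_K hK (uu_mem hα j)⟩
  let Z : Finset K := ((S.erase 0).image fun a => algebraMap E K (algebraMap R E a)) ∪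
    (Finset.univ.image uK).erase 0
  have hZ0 : ∀ z ∈ Z, z ≠ 0 := by
    intro z hz
    rcases Finset.mem_union.1 hz with h | h
    · obtain ⟨a, ha, rfl⟩ := Finset.mem_image.1 h
      rw [Ne, map_eq_zero]
      intro h0
      exact (Finset.mem_erase.1 ha).1 (IsFractionRing.injective R E (h0.trans (map_zero _).symm))
    · exact (Finset.mem_erase.1 h).1
  have hZ : ∀ z ∈ Z, z ∈ C ∨ z⁻¹ ∈ C := by
    intro z hz
    rcases Finset.mem_union.1 hz with h | h
    · obtain ⟨a, ha, rfl⟩ := Finset.mem_image.1 h
      exact hSC a (Finset.mem_erase.1 ha).2 (Finset.mem_erase.1 ha).1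
    · obtain ⟨h0, h⟩ := Finset.mem_erase.1 h
      obtain ⟨j, -, rfl⟩ := Finset.mem_image.1 h
      exact hu j _ rfl h0
  set D : Subalgebra k K := C ⊔ Algebra.adjoin k (Z : Set K) with hD
  have hDs : Algebra.Smooth k D := smooth_adjoin_inv C hC Z hZ0 hZ
  have hCD : C ≤ D := le_sup_left
  have hRD : ∀ a : R, algebraMap E K (algebraMap R E a) ∈ D := by
    intro a
    have ha : a ∈ Algebra.adjoin k (S : Set R) := by rw [hS]; trivial
    induction ha using Algebra.adjoin_induction with
    | mem a ha =>
      by_cases h0 : a = 0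
      · rw [h0, map_zero, map_zero]; exact D.zero_mem
      · refine (le_sup_right : _ ≤ D) (Algebra.subset_adjoin ?_)
        refine Finset.mem_coe.2 (Finset.mem_union_left _ (Finset.mem_image.2 ⟨a, ?_, rfl⟩))
        exact Finset.mem_erase.2 ⟨h0, ha⟩
    | algebraMap a =>
      have h1 : algebraMap E K (algebraMap R E (algebraMap k R a)) = algebraMap k K a := by
        rw [← IsScalarTower.algebraMap_apply k R E, ← IsScalarTower.algebraMap_apply k E K]
      rw [h1]
      exact D.algebraMap_mem a
    | add a b _ _ ha hb => rw [map_add, map_add]; exact D.add_mem ha hb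
    | mul a b _ _ ha hb => rw [map_mul, map_mul]; exact D.mul_mem ha hb
  have huD : ∀ j, uK j ∈ D := by
    intro j
    by_cases h0 : uK j = 0
    · rw [h0]; exact D.zero_mem
    · refine (le_sup_right : _ ≤ D) (Algebra.subset_adjoin ?_)
      refine Finset.mem_coe.2 (Finset.mem_union_right _ (Finset.mem_erase.2 ⟨h0, ?_⟩))
      exact Finset.mem_image.2 ⟨j, Finset.mem_univ _, rfl⟩
  have hind := (trdeg_K hs hα hr K hK).2
  have h1 := smooth_poly (k := k) D (fun l => xx R L (s l)) hind
  have h2 : mulA C (img k (MvPolynomial (Fin n) R) L) = mulA D (Algebra.adjoin k (Set.range fun l => xx R L (s l))) := by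
    have hx : ∀ j, xx R L j = (uK j : L) + ∑ l, algebraMap E L (α j l) * xx R L (s l) := by
      intro j
      have h3 : (uK j : L) = xx R L j - ∑ l, α j l • xx R L (s l) := rfl
      rw [h3]
      simp only [Algebra.smul_def]
      rw [sub_add_cancel]
    apply le_antisymm
    · refine mulA_le (fun a ha => le_mulA _ (hCD ha)) ?_
      rintro _ ⟨b, rfl⟩
      change algebraMap (MvPolynomial (Fin n) R) L b ∈ _
      induction b using MvPolynomial.induction_on with
      | C a =>
        rw [map_C (E := E)]
        exact le_mulA (E := K) _ (hRD a)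
      | add a b ha hb => rw [map_add]; exact Subalgebra.add_mem _ ha hb
      | mul_X a j ha =>
        rw [map_mul]
        refine Subalgebra.mul_mem _ ha ?_
        change xx R L j ∈ _
        rw [hx]
        refine Subalgebra.add_mem _ (le_mulA (E := K) _ (huD j)) (Subalgebra.sum_mem _ fun l _ => ?_)
        refine Subalgebra.mul_mem _ (le_mulA (E := K) _ (hCD (hαC j l)))
          (le_mulA' _ (Algebra.subset_adjoin ⟨l, rfl⟩))
    · have hxm : ∀ j, xx R L j ∈ mulA C (img k (MvPolynomial (Fin n) R) L) := fun j => le_mulA' _ ⟨_, rfl⟩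
      have hum : ∀ j, (uK j : L) ∈ mulA C (img k (MvPolynomial (Fin n) R) L) := by
        intro j
        have h3 : (uK j : L) = xx R L j - ∑ l, algebraMap E L (α j l) * xx R L (s l) := by
          rw [eq_sub_iff_add_eq, ← hx]
        rw [h3]
        refine Subalgebra.sub_mem _ (hxm j) (Subalgebra.sum_mem _ fun l _ => ?_)
        exact Subalgebra.mul_mem _ (le_mulA (E := K) _ (hαC j l)) (hxm _)
      refine mulA_le ?_ ?_
      · have h4 : D ≤ (mulA C (img k (MvPolynomial (Fin n) R) L)).comap (IsScalarTower.toAlgHom k K L) := by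
          refine sup_le (fun a ha => le_mulA _ ha) (Algebra.adjoin_le ?_)
          intro z hz
          change (z : L) ∈ mulA C (img k (MvPolynomial (Fin n) R) L)
          rcases Finset.mem_union.1 (Finset.mem_coe.1 hz) with h | h
          · obtain ⟨a, ha, rfl⟩ := Finset.mem_image.1 h
            refine le_mulA' _ ⟨MvPolynomial.C a, ?_⟩
            change algebraMap (MvPolynomial (Fin n) R) L _ = _
            rw [map_C (E := E)]
            rfl
          · obtain ⟨-, h⟩ := Finset.mem_erase.1 h
            obtain ⟨j, -, rfl⟩ := Finset.mem_image.1 h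
            exact hum j
        intro a ha
        exact h4 ha
      · refine Algebra.adjoin_le ?_
        rintro _ ⟨l, rfl⟩
        exact hxm _
  rw [h2]
  exact h1

end chart

section desc

variable {p m : ℕ} [hp : Fact p.Prime] [CharP k p] {c : Fin m → R}

omit hK in
lemma form_mem_invs (hℓ : ∀ j, co ℓ (ℓ j) = Polynomial.C (ℓ j)) (a : Fin n) (b : R) (e : ℕ) :
    MvPolynomial.C b * ℓ a ^ e ∈ invs k p m c ℓ := by
  apply mem_invs_of_eq
  rw [map_mul, map_pow, co_C, hℓ, Polynomial.C_mul, Polynomial.C_pow]

variable (k p m c) in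
/-- The field of fractions of invariants. -/
noncomputable def FF0 : IntermediateField K L :=
  (frF (invs k p m c ℓ) L).toIntermediateField (fun x => K_le_frF hK x)

lemma mem_FF0 {z : L} : z ∈ FF0 k hK p m c ↔ z ∈ frF (invs k p m c ℓ) L := Iff.rfl

/-- The chart of the quotient is smooth. -/
theorem chart_desc (C : Subalgebra k K) (hM : Algebra.Smooth k (mulA C (img k (MvPolynomial (Fin n) R) L)))
    (hℓ : ∀ j, co ℓ (ℓ j) = Polynomial.C (ℓ j)) {a : Fin n} (ha : ℓ a ≠ 0) (v : Fin n → K)
    (hv : ∀ j, (v j : L) * lL R L ℓ a = lL R L ℓ j) (hvC : ∀ j, v j ∈ C) :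
    Algebra.Smooth k (infM (mulA C (img k (MvPolynomial (Fin n) R) L)) (FF0 k hK p m c)) := by
  classical
  have hp1 : 1 < p := hp.out.one_lt
  have hBL : Function.Injective (algebraMap (MvPolynomial (Fin n) R) L) := IsFractionRing.injective (MvPolynomial (Fin n) R) L
  have hRC : CharP R p := by
    have h1 : Function.Injective (algebraMap k R) := (algebraMap k R).injective
    exact charP_of_injective_algebraMap h1 p
  set M := mulA C (img k (MvPolynomial (Fin n) R) L) with hMdef
  set A := infM M (FF0 k hK p m c) with hAdef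
  have hAM : A ≤ M := infM_le _ _
  have hmem : ∀ f ∈ invs k p m c ℓ, algebraMap (MvPolynomial (Fin n) R) L f ∈ A := fun f hf =>
    ⟨le_mulA' _ ⟨f, rfl⟩, frF_mem hf⟩
  have hCA : ∀ z ∈ C, (z : L) ∈ A := fun z hz => ⟨le_mulA _ hz, K_le_frF hK z⟩
  have ha0 : lL R L ℓ a ≠ 0 := by
    intro h
    exact ha (hBL (h.trans (map_zero _).symm))
  let y : L := xx R L a
  have hy : y ∈ M := le_mulA' _ ⟨_, rfl⟩
  let N : (MvPolynomial (Fin n) R) := nrm p m (fun i => (MvPolynomial.C (c i) : (MvPolynomial (Fin n) R))) (MvPolynomial.X a) (ℓ a)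
  have hN : N ∈ invs k p m c ℓ := nrm_mem (hℓ a)
  let c' : Fin m → A := fun i => ⟨algebraMap (MvPolynomial (Fin n) R) L (MvPolynomial.C (c i) *
    ℓ a ^ (p ^ m - p ^ (i : ℕ))), hmem _ (form_mem_invs hℓ a _ _)⟩
  let P : Polynomial A := addp p m c' - Polynomial.C ⟨algebraMap (MvPolynomial (Fin n) R) L N, hmem _ hN⟩
  have hq0 : 0 < p ^ m := pow_pos hp.out.pos m
  have hmon : (addp p m c').Monic := addp_monic hp1 m c'
  have hdeg : (addp p m c').natDegree = p ^ m := addp_natDegree hp1 m c'
  have hPm : P.Monic := by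
    refine hmon.sub_of_left ?_
    refine lt_of_le_of_lt Polynomial.degree_C_le ?_
    rw [Polynomial.degree_eq_natDegree hmon.ne_zero, hdeg]
    exact_mod_cast hq0
  have hPd : P.natDegree = p ^ m := by
    rw [← hdeg]
    exact Polynomial.natDegree_sub_C
  have hPy : (P.map A.val.toRingHom).eval y = 0 := by
    have h1 : (P.map A.val.toRingHom).eval y = algebraMap (MvPolynomial (Fin n) R) L (nrm p m
        (fun i => (MvPolynomial.C (c i) : (MvPolynomial (Fin n) R))) (MvPolynomial.X a) (ℓ a)) - algebraMap (MvPolynomial (Fin n) R) L N := by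
      rw [Polynomial.map_sub, Polynomial.map_C, Polynomial.eval_sub, Polynomial.eval_C, addp_map]
      congr 1
      rw [addp, nrm, Polynomial.eval_add, Polynomial.eval_pow, Polynomial.eval_X, map_add,
        map_pow, map_sum, Polynomial.eval_finsetSum]
      congr 1
      refine Finset.sum_congr rfl fun i _ => ?_
      rw [Polynomial.eval_mul, Polynomial.eval_C, Polynomial.eval_pow, Polynomial.eval_X,
        map_mul, map_pow]
      rfl
    rw [h1]
    exact sub_self _
  refine smooth_of_pow p M A hAM y hy P hPm hPy ?_ ?_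
  · have hgen : M ≤ Algebra.adjoin k ((A : Set L) ∪ {y}) := by
      set S := Algebra.adjoin k ((A : Set L) ∪ {y}) with hS
      have hAS : ∀ z ∈ A, z ∈ S := fun z hz => Algebra.subset_adjoin (Or.inl hz)
      have hyS : y ∈ S := Algebra.subset_adjoin (Or.inr rfl)
      refine mulA_le (fun z hz => hAS _ (hCA z hz)) ?_
      rintro _ ⟨b, rfl⟩
      change algebraMap (MvPolynomial (Fin n) R) L b ∈ S
      induction b using MvPolynomial.induction_on with
      | C b => exact hAS _ (hmem _ (C_mem_invs hK b))
      | add b b' hb hb' => rw [map_add]; exact S.add_mem hb hb'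
      | mul_X b j hb =>
        rw [map_mul]
        refine S.mul_mem hb ?_
        have h1 : algebraMap (MvPolynomial (Fin n) R) L (MvPolynomial.X j) = (xx R L j - (v j : L) * y) +
            (v j : L) * y := by
          rw [sub_add_cancel]; rfl
        rw [h1]
        refine S.add_mem (hAS _ ⟨?_, ?_⟩) (S.mul_mem (hAS _ (hCA _ (hvC j))) hyS)
        · exact M.sub_mem (le_mulA' _ ⟨_, rfl⟩) (M.mul_mem (le_mulA (E := K) _ (hvC j)) hy)
        · have h2 : xx R L j - (v j : L) * y =
              algebraMap (MvPolynomial (Fin n) R) L (ℓ a * MvPolynomial.X j - ℓ j * MvPolynomial.X a) /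
                algebraMap (MvPolynomial (Fin n) R) L (ℓ a) := by
            rw [eq_div_iff (show algebraMap (MvPolynomial (Fin n) R) L (ℓ a) ≠ 0 from ha0), map_sub, map_mul, map_mul]
            have h3 : (v j : L) * algebraMap (MvPolynomial (Fin n) R) L (ℓ a) = algebraMap (MvPolynomial (Fin n) R) L (ℓ j) := hv j
            change (xx R L j - (v j : L) * y) * algebraMap (MvPolynomial (Fin n) R) L (ℓ a) =
              algebraMap (MvPolynomial (Fin n) R) L (ℓ a) * xx R L j - algebraMap (MvPolynomial (Fin n) R) L (ℓ j) * y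
            rw [← h3]
            ring
          rw [h2]
          change _ ∈ frF (invs k p m c ℓ) L
          refine Subfield.div_mem _ (frF_mem (mem_invs_of_eq ?_)) (frF_mem (mem_invs_of_eq (hℓ a)))
          rw [map_sub, map_mul, map_mul, hℓ, hℓ, co_X, co_X, Polynomial.C_sub, Polynomial.C_mul,
            Polynomial.C_mul]
          ring
    exact fun x hx => hgen hx
  · rw [hPd]
    intro f hf h0
    have hf' : ∀ h, ∃ u ∈ invs k p m c ℓ, ∃ w ∈ invs k p m c ℓ, w ≠ 0 ∧
        f h = algebraMap (MvPolynomial (Fin n) R) L u / algebraMap (MvPolynomial (Fin n) R) L w := fun h => mem_frF.1 (hf h).2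
    choose u hu w hw hw0 hfe using hf'
    have hwL : ∀ h, algebraMap (MvPolynomial (Fin n) R) L (w h) ≠ 0 := fun h h0 =>
      hw0 h (hBL (h0.trans (map_zero _).symm))
    let g : Fin (p ^ m) → (MvPolynomial (Fin n) R) := fun h => u h * ∏ i ∈ Finset.univ.erase h, w i
    have hg : ∀ h, g h ∈ invs k p m c ℓ := fun h =>
      Subalgebra.mul_mem _ (hu h) (Subalgebra.prod_mem _ fun i _ => hw i)
    have hgf : ∀ h, algebraMap (MvPolynomial (Fin n) R) L (g h) = f h * ∏ i, algebraMap (MvPolynomial (Fin n) R) L (w i) := by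
      intro h
      rw [map_mul, map_prod, hfe, ← Finset.mul_prod_erase Finset.univ _ (Finset.mem_univ h),
        ← mul_assoc, div_mul_cancel₀ _ (hwL h)]
    have h1 : ∑ h, g h * MvPolynomial.X a ^ (h : ℕ) = 0 := by
      apply hBL
      rw [map_zero, map_sum]
      have h2 : ∀ h, algebraMap (MvPolynomial (Fin n) R) L (g h * MvPolynomial.X a ^ (h : ℕ)) =
          (∏ i, algebraMap (MvPolynomial (Fin n) R) L (w i)) * (f h * y ^ (h : ℕ)) := by
        intro h
        rw [map_mul, map_pow, hgf]
        change _ * y ^ (h : ℕ) = _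
        ring
      rw [Finset.sum_congr rfl fun h _ => h2 h, ← Finset.mul_sum, h0, mul_zero]
    have h2 := indep_invs hp1 ha g hg h1
    intro h
    have h3 := hgf h
    rw [h2 h, map_zero] at h3
    exact (mul_eq_zero.1 h3.symm).resolve_right (Finset.prod_ne_zero_iff.2 fun i _ => hwL i)

end desc

end K

end fld

end Pool.Agent.Q40.FC
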