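import Pool.Agent.Q40.FC.GaMain

/-! The resolution of the quotients of affine space over a surface by finite flat subgroup schemes
of the additive group: the main theorem. -/

set_option autoImplicit false
set_option linter.unusedSectionVars false

universe u

open Finset

namespace Pool.Agent.Q40.FC

open Pool.Agent.W558 Pool.Agent.H920R2 Pool.Agent.Q40.RS Pool.Agent.Q40.FF Pool.Agent.W418.LCI
  Pool.Agent.W418.Lin AlgebraicGeometry CategoryTheory

section toU

variable {K : Type*} [Field K]

open Classical in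
/-- a unit -/
noncomputable def toU (z : K) : Kˣ := if h : z = 0 then 1 else Units.mk0 z h

lemma toU_val {z : K} (h : z ≠ 0) : (toU z : K) = z := by
  rw [toU, dif_neg h]
  rfl

lemma toU_mem {V : Set K} {z : K} (h : z ∈ Submonoid.closure V) :
    toU z ∈ Subgroup.closure {x : Kˣ | (x : K) ∈ V} := by
  by_cases h0 : z = 0
  · rw [toU, dif_pos h0]
    exact Subgroup.one_mem _
  · have key : ∀ (z : K) (_ : z ∈ Submonoid.closure V) (h0 : z ≠ 0),
        Units.mk0 z h0 ∈ Subgroup.closure {x : Kˣ | (x : K) ∈ V} := by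
      intro z hz
      induction hz using Submonoid.closure_induction with
      | mem x hx => exact fun h0 => Subgroup.subset_closure hx
      | one =>
        intro h0
        have : Units.mk0 (1 : K) h0 = 1 := Units.ext rfl
        rw [this]
        exact Subgroup.one_mem _
      | mul x y _ _ hx hy =>
        intro h0
        have hx0 : x ≠ 0 := fun h => h0 (by rw [h, zero_mul])
        have hy0 : y ≠ 0 := fun h => h0 (by rw [h, mul_zero])
        have : Units.mk0 (x * y) h0 = Units.mk0 x hx0 * Units.mk0 y hy0 := Units.ext rfl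
        rw [this]
        exact Subgroup.mul_mem _ (hx hx0) (hy hy0)
    rw [toU, dif_neg h0]
    exact key z h h0

end toU

section minors

variable {E L : Type*} [Field E] [Field L] [Algebra E L] {n : ℕ} (x : Fin n → L)

/-- Coordinates of the vectors. -/
theorem exists_minors {r : ℕ} (hr : r = Module.finrank E (Submodule.span E (Set.range x))) :
    ∃ v : Fin n → Fin r → E, (∃ s, pl v s ≠ 0) ∧ (∀ s, pl v s ≠ 0 →
      LinearIndependent E (x ∘ s) ∧ ∀ j, x j =
        ∑ l, (pl v (Function.update s l j) / pl v s) • x (s l)) := by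
  classical
  subst hr
  set Λ := Submodule.span E (Set.range x) with hΛ
  have hfin : FiniteDimensional E Λ := FiniteDimensional.span_of_finite E (Set.finite_range x)
  let e := Module.finBasis E Λ
  let x' : Fin n → Λ := fun j => ⟨x j, Submodule.subset_span ⟨j, rfl⟩⟩
  let v : Fin n → Fin (Module.finrank E Λ) → E := fun j => e.equivFun (x' j)
  have hli : ∀ s : Fin (Module.finrank E Λ) → Fin n, LinearIndependent E (x ∘ s) ↔
      pl v s ≠ 0 := by
    intro s
    have h1 : LinearIndependent E (x ∘ s) ↔ LinearIndependent E (x' ∘ s) := by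
      have : x ∘ s = Λ.subtype ∘ (x' ∘ s) := rfl
      rw [this]
      exact LinearMap.linearIndependent_iff _ (Submodule.ker_subtype _)
    have h2 : LinearIndependent E (x' ∘ s) ↔ LinearIndependent E (fun i => v (s i)) := by
      have : (fun i => v (s i)) = (e.equivFun : Λ →ₗ[E] _) ∘ (x' ∘ s) := rfl
      rw [this]
      exact (LinearMap.linearIndependent_iff _ (LinearEquiv.ker _)).symm
    rw [h1, h2]
    have h3 := Matrix.linearIndependent_rows_iff_isUnit (K := E) (A := Matrix.of fun i => v (s i))
    have h4 : (Matrix.of fun i => v (s i)).row = fun i => v (s i) := rfl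
    rw [h4] at h3
    rw [h3, Matrix.isUnit_iff_isUnit_det, isUnit_iff_ne_zero]
    rfl
  refine ⟨v, ?_, fun s hs => ⟨(hli s).2 hs, fun j => ?_⟩⟩
  · obtain ⟨f, hf, -, hfi⟩ := Submodule.exists_fun_fin_finrank_span_eq E (Set.range x)
    choose s hs using hf
    refine ⟨s, (hli s).1 ?_⟩
    have : x ∘ s = f := funext hs
    rw [this]
    exact hfi
  · have h1 : x' j = ∑ l, (pl v (Function.update s l j) / pl v s) • x' (s l) := by
      apply e.equivFun.injective
      rw [map_sum]
      funext i
      rw [Finset.sum_apply]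
      have h2 := Pool.Agent.W418.Lin.cramer v s j i
      have h3 : (e.equivFun (x' j)) i = v j i := rfl
      rw [h3]
      apply mul_left_cancel₀ hs
      rw [← h2, Finset.mul_sum]
      refine Finset.sum_congr rfl fun l _ => ?_
      rw [map_smul, Pi.smul_apply, smul_eq_mul]
      have h4 : (e.equivFun (x' (s l))) i = v (s l) i := rfl
      rw [h4]
      field_simp
    have h2 := congrArg (Subtype.val : Λ → L) h1
    rw [AddSubmonoidClass.coe_finsetSum] at h2
    exact h2

end minors

section fld

variable {k R E L : Type u} [Field k] [PerfectField k] [CommRing R] [IsDomain R] [Algebra k R]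
  [Field E] [Algebra k E] [Algebra R E] [IsScalarTower k R E] [IsFractionRing R E] {n : ℕ}
  [Field L] [Algebra k L] [Algebra (MvPolynomial (Fin n) R) L]
  [IsScalarTower k (MvPolynomial (Fin n) R) L] [IsFractionRing (MvPolynomial (Fin n) R) L]
  [Algebra R L]
  [IsScalarTower R (MvPolynomial (Fin n) R) L] [Algebra E L] [IsScalarTower R E L]
  [IsScalarTower k E L] {ℓ : Fin n → MvPolynomial (Fin n) R}
  {p m : ℕ} [hp : Fact p.Prime] [CharP k p] {c : Fin m → R}


/-- The polynomial ring is integral over the invariants. -/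
lemma integral_invs (hℓ : ∀ j, co ℓ (ℓ j) = Polynomial.C (ℓ j)) (b : (MvPolynomial (Fin n) R)) :
    IsIntegral (invs k p m c ℓ) b := by
  classical
  have hRC : CharP R p := by
    have h1 : Function.Injective (algebraMap k R) := (algebraMap k R).injective
    exact charP_of_injective_algebraMap h1 p
  have hp1 : 1 < p := hp.out.one_lt
  have hval : ∀ f (hf : f ∈ invs k p m c ℓ), IsIntegral (invs k p m c ℓ) f := fun f hf =>
    isIntegral_algebraMap (R := invs k p m c ℓ) (x := ⟨f, hf⟩)
  induction b using MvPolynomial.induction_on with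
  | C a => exact hval _ (mem_invs_of_eq (co_C a))
  | add a b ha hb => exact ha.add hb
  | mul_X b j hb =>
    refine hb.mul ?_
    let c' : Fin m → invs k p m c ℓ := fun i => ⟨MvPolynomial.C (c i) *
      ℓ j ^ (p ^ m - p ^ (i : ℕ)), form_mem_invs hℓ j _ _⟩
    let N : invs k p m c ℓ := ⟨nrm p m (fun i => (MvPolynomial.C (c i) : (MvPolynomial (Fin n) R)))
      (MvPolynomial.X j) (ℓ j), nrm_mem (hℓ j)⟩
    have hmon : (addp p m c').Monic := addp_monic hp1 m c'
    have hdeg : (addp p m c').natDegree = p ^ m := addp_natDegree hp1 m c'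
    refine ⟨addp p m c' - Polynomial.C N, hmon.sub_of_left ?_, ?_⟩
    · refine lt_of_le_of_lt Polynomial.degree_C_le ?_
      rw [Polynomial.degree_eq_natDegree hmon.ne_zero, hdeg]
      exact_mod_cast pow_pos hp.out.pos m
    · rw [← Polynomial.eval_map, Polynomial.map_sub, Polynomial.map_C, Polynomial.eval_sub,
        Polynomial.eval_C, addp_map, addp, Polynomial.eval_add, Polynomial.eval_pow,
        Polynomial.eval_X, Polynomial.eval_finsetSum, sub_eq_zero]
      change _ = nrm p m (fun i => (MvPolynomial.C (c i) : (MvPolynomial (Fin n) R))) (MvPolynomial.X j) (ℓ j)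
      rw [nrm]
      congr 1
      refine Finset.sum_congr rfl fun i _ => ?_
      rw [Polynomial.eval_mul, Polynomial.eval_C, Polynomial.eval_pow, Polynomial.eval_X]
      rfl

lemma algebraMap_mem_frF_iff {b : (MvPolynomial (Fin n) R)} : algebraMap (MvPolynomial (Fin n) R) L b ∈ frF (invs k p m c ℓ) L ↔
    b ∈ invs k p m c ℓ := by
  have hBL : Function.Injective (algebraMap (MvPolynomial (Fin n) R) L) := IsFractionRing.injective (MvPolynomial (Fin n) R) L
  refine ⟨fun h => ?_, frF_mem⟩
  obtain ⟨u, hu, w, hw, hw0, h⟩ := mem_frF.1 h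
  refine invs_div hp.out.one_lt hu hw hw0 ?_
  apply hBL
  rw [map_mul, h, div_mul_cancel₀]
  exact fun h0 => hw0 (hBL (h0.trans (map_zero _).symm))

section K

variable {K : IntermediateField E L} (hK : K = IntermediateField.adjoin E (WW E L ℓ : Set L))

lemma cF_eq : cF k (MvPolynomial (Fin n) R) (FF0 k hK p m c) = invs k p m c ℓ := by
  ext b
  exact algebraMap_mem_frF_iff

include hK

omit hp in
/-- Products of invariant forms. -/
lemma closure_K {z : K} (hz : (z : L) ∈ Submonoid.closure (WW E L ℓ : Set L)) :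
    z ∈ Submonoid.closure ((Subtype.val : K → L) ⁻¹' (WW E L ℓ : Set L)) := by
  have key : ∀ w ∈ Submonoid.closure (WW E L ℓ : Set L),
      ∃ y ∈ Submonoid.closure ((Subtype.val : K → L) ⁻¹' (WW E L ℓ : Set L)), (y : L) = w := by
    intro w hw
    induction hw using Submonoid.closure_induction with
    | mem w hw => exact ⟨⟨w, WW_le_K hK hw⟩, Submonoid.subset_closure hw, rfl⟩
    | one => exact ⟨1, Submonoid.one_mem _, rfl⟩
    | mul x y _ _ hx hy =>
      obtain ⟨x', hx', hx⟩ := hx
      obtain ⟨y', hy', hy⟩ := hy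
      refine ⟨x' * y', Submonoid.mul_mem _ hx' hy', ?_⟩
      rw [← hx, ← hy]
      rfl
  obtain ⟨y, hy, hyw⟩ := key _ hz
  rwa [← Subtype.ext hyw]

omit hK hp in
lemma closure_form {w : (MvPolynomial (Fin n) R)} (hw : w ∈ Submonoid.closure {w | IsInvForm ℓ w}) :
    algebraMap (MvPolynomial (Fin n) R) L w ∈ Submonoid.closure (WW E L ℓ : Set L) := by
  induction hw using Submonoid.closure_induction with
  | mem w hw => exact Submonoid.subset_closure (form_mem_WW hw)
  | one => rw [map_one]; exact Submonoid.one_mem _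
  | mul x y _ _ hx hy => rw [map_mul]; exact Submonoid.mul_mem _ hx hy

/-- A projective model on which products of forms are comparable. -/
theorem exists_pm' (p' : ℕ) [Fact p'.Prime] [CharP k p'] (hE : HasLM k E) {r : ℕ} {s : Fin r → Fin n}
    (hs : LinearIndependent E (lL R L ℓ ∘ s))
    {α : Fin n → Fin r → E} (hα : ∀ j, lL R L ℓ j = ∑ l, α j l • lL R L ℓ (s l))
    (hr : r = Module.finrank E (Submodule.span E (Set.range (lL R L ℓ))))
    (G : Type) [Finite G] (z : G → K)
    (hz : ∀ a, (z a : L) ∈ Submonoid.closure (WW E L ℓ : Set L) ∨ z a = 0) :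
    ∃ (T : Type) (_ : Finite T) (P : PM k K T), ∀ t a b, z a ≠ 0 → z b ≠ 0 →
      z a / z b ∈ P.A t ∨ z b / z a ∈ P.A t := by
  obtain ⟨htr, -⟩ := trdeg_K hs hα hr K hK
  -- the space of forms
  obtain ⟨V, hVset⟩ : ∃ V : Submodule E K,
      (V : Set K) = (Subtype.val : K → L) ⁻¹' (WW E L ℓ : Set L) :=
    ⟨(WW E L ℓ).comap K.val.toLinearMap, rfl⟩
  have hVmem : ∀ z : K, z ∈ V ↔ (z : L) ∈ WW E L ℓ := by
    intro z
    rw [← SetLike.mem_coe, hVset]
    rfl
  have hVmap : V.map K.val.toLinearMap = WW E L ℓ := by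
    ext w
    constructor
    · rintro ⟨y, hy, rfl⟩
      exact (hVmem y).1 hy
    · intro hw
      exact ⟨⟨w, WW_le_K hK hw⟩, (hVmem _).2 hw, rfl⟩
  have hWfin : FiniteDimensional E (WW E L ℓ) := by
    unfold WW
    infer_instance
  have eV : V ≃ₗ[E] WW E L ℓ :=
    (Submodule.equivMapOfInjective K.val.toLinearMap Subtype.val_injective V).trans
      (LinearEquiv.ofEq _ _ hVmap)
  have hVfin : FiniteDimensional E V := eV.symm.finiteDimensional
  have hV1 : (1 : K) ∈ V := by
    rw [hVmem]
    exact one_mem_WW (R := R) (ℓ := ℓ)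
  have hVgen : IntermediateField.adjoin E (V : Set K) = ⊤ := by
    rw [hVset]
    exact adjoin_preimage K hK
  have hz' : ∀ a, toU (z a) ∈ Subgroup.closure {x : Kˣ | (x : K) ∈ V} := by
    intro a
    rcases hz a with h | h
    · have h1 := closure_K hK h
      rw [← hVset] at h1
      exact toU_mem h1
    · rw [h, toU, dif_pos rfl]
      exact Subgroup.one_mem _
  obtain ⟨T, hT, P, hP⟩ := exists_pm p' k E K hE V hV1 hVgen
    (by rw [htr, eV.finrank_eq]) G (fun a => toU (z a)) hz'
  refine ⟨T, hT, P, fun t a b ha hb => ?_⟩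
  have h1 := hP t a b
  rwa [toU_val ha, toU_val hb] at h1

/-- The charts of the resolution. -/
theorem ga_aux [Algebra.FiniteType k R] (hE : HasLM k E)
    (hℓ : ∀ j, ℓ j = 0 ∨ ℓ j ∈ Submonoid.closure {w | IsInvForm ℓ w}) :
    ∃ (T : Type) (_ : Finite T) (P : PM k K T), ∀ t, Algebra.Smooth k
      (infM (mulA (P.A t) (img k (MvPolynomial (Fin n) R) L)) (FF0 k hK p m c)) := by
  classical
  have hBL : Function.Injective (algebraMap (MvPolynomial (Fin n) R) L) := IsFractionRing.injective (MvPolynomial (Fin n) R) L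
  have hco : ∀ j, co ℓ (ℓ j) = Polynomial.C (ℓ j) := by
    intro j
    rcases hℓ j with h | h
    · rw [h, map_zero, map_zero]
    · exact co_closure h
  obtain ⟨r, hr⟩ : ∃ r, r = Module.finrank E (Submodule.span E (Set.range (lL R L ℓ))) :=
    ⟨_, rfl⟩
  obtain ⟨v, ⟨s1, hs1⟩, hv⟩ := exists_minors (E := E) (lL R L ℓ) hr
  let Sr := {s : Fin r → Fin n // pl v s ≠ 0}
  let α : (Fin r → Fin n) → Fin n → Fin r → E := fun s j l =>
    pl v (Function.update s l j) / pl v s
  have hli : ∀ s : Sr, LinearIndependent E (lL R L ℓ ∘ s.1) := fun s => (hv s.1 s.2).1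
  have hα : ∀ s : Sr, ∀ j, lL R L ℓ j = ∑ l, α s.1 j l • lL R L ℓ (s.1 l) :=
    fun s => (hv s.1 s.2).2
  -- the generators of `R`
  obtain ⟨S, hS⟩ : (⊤ : Subalgebra k R).FG := (inferInstance : Algebra.FiniteType k R).1
  -- the functions
  have hcl : ∀ j, lL R L ℓ j ∈ Submonoid.closure (WW E L ℓ : Set L) ∨ lL R L ℓ j = 0 := by
    intro j
    rcases hℓ j with h | h
    · right
      rw [lL, h, map_zero]
    · exact Or.inl (closure_form h)
  have hLK : ∀ j, lL R L ℓ j ∈ K := by
    intro j
    rcases hℓ j with h | h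
    · have : lL R L ℓ j = 0 := by rw [lL, h, map_zero]
      rw [this]
      exact K.zero_mem
    · exact form_mem_K hK h
  have hEW : ∀ x : E, algebraMap E L x ∈ Submonoid.closure (WW E L ℓ : Set L) := by
    intro x
    apply Submonoid.subset_closure
    rw [Algebra.algebraMap_eq_smul_one]
    exact (WW E L ℓ).smul_mem x (one_mem_WW (R := R) (ℓ := ℓ))
  let zL : Fin n → K := fun j => ⟨lL R L ℓ j, hLK j⟩
  let zu : Sr × Fin n → K := fun a => ⟨uu (R := R) a.1.1 (α a.1.1) a.2,
    WW_le_K hK (uu_mem (hα a.1) a.2)⟩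
  let zm : Sr → K := fun s => algebraMap E K (pl v s.1)
  let qS := S.equivFin
  let zR : Fin S.card → K := fun i => algebraMap E K (algebraMap R E (qS.symm i).1)
  let z : Sr ⊕ (Sr × Fin n) ⊕ Fin n ⊕ Fin S.card ⊕ Unit → K :=
    Sum.elim zm (Sum.elim zu (Sum.elim zL (Sum.elim zR fun _ => 1)))
  have hz : ∀ a, (z a : L) ∈ Submonoid.closure (WW E L ℓ : Set L) ∨ z a = 0 := by
    rintro (s | s | j | i | _)
    · exact Or.inl (hEW _)
    · exact Or.inl (Submonoid.subset_closure (uu_mem (hα s.1) s.2))
    · rcases hcl j with h | h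
      · exact Or.inl h
      · exact Or.inr (Subtype.ext h)
    · exact Or.inl (hEW _)
    · exact Or.inl (Submonoid.one_mem _)
  obtain ⟨T, hT, P, hcmp⟩ := exists_pm' hK p hE (hli ⟨s1, hs1⟩) (hα ⟨s1, hs1⟩) hr _ z hz
  refine ⟨T, hT, P, fun t => ?_⟩
  have hone : ∀ a, z a ≠ 0 → z a ∈ P.A t ∨ (z a)⁻¹ ∈ P.A t := by
    intro a ha
    have h1 := hcmp t a (Sum.inr (Sum.inr (Sum.inr (Sum.inr ())))) ha one_ne_zero
    change z a / 1 ∈ P.A t ∨ 1 / z a ∈ P.A t at h1
    rwa [div_one, one_div] at h1
  -- the minimal minor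
  have hSrne : Nonempty Sr := ⟨⟨s1, hs1⟩⟩
  have hzm0 : ∀ s : Sr, zm s ≠ 0 := fun s => (map_ne_zero _).2 s.2
  obtain ⟨s, -, hs⟩ := exists_min (P.A t) (Finset.univ : Finset Sr) Finset.univ_nonempty zm
    hzm0 (fun a b => hcmp t (Sum.inl a) (Sum.inl b) (hzm0 a) (hzm0 b))
  have hM : Algebra.Smooth k (mulA (P.A t) (img k (MvPolynomial (Fin n) R) L)) := by
    refine chart_smooth hK (hli s) (hα s) hr (P.A t) (P.sm t) ?_ S hS ?_ ?_
    · intro j l
      by_cases h : pl v (Function.update s.1 l j) = 0
      · have : α s.1 j l = 0 := by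
          change pl v (Function.update s.1 l j) / pl v s.1 = 0
          rw [h, zero_div]
        rw [this, map_zero]
        exact Subalgebra.zero_mem _
      · have h1 := hs ⟨_, h⟩ (Finset.mem_univ _)
        change algebraMap E K (pl v (Function.update s.1 l j)) / algebraMap E K (pl v s.1) ∈ _ at h1
        rw [← map_div₀] at h1
        exact h1
    · intro a ha ha0
      have h0 : algebraMap E K (algebraMap R E a) ≠ 0 := by
        rw [Ne, map_eq_zero]
        exact fun h => ha0 (IsFractionRing.injective R E (h.trans (map_zero _).symm))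
      have h2 : z (Sum.inr (Sum.inr (Sum.inr (Sum.inl (qS ⟨a, ha⟩))))) =
          algebraMap E K (algebraMap R E a) := by
        change algebraMap E K (algebraMap R E (qS.symm (qS ⟨a, ha⟩)).1) = _
        rw [Equiv.symm_apply_apply]
      have h1 := hone (Sum.inr (Sum.inr (Sum.inr (Sum.inl (qS ⟨a, ha⟩)))))
      rw [h2] at h1
      exact h1 h0
    · intro j y hy hy0
      have h2 : z (Sum.inr (Sum.inl (s, j))) = y := Subtype.ext hy.symm
      have h1 := hone (Sum.inr (Sum.inl (s, j)))
      rw [h2] at h1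
      exact h1 hy0
  by_cases hall : ∀ j, ℓ j = 0
  · have h1 : infM (mulA (P.A t) (img k (MvPolynomial (Fin n) R) L)) (FF0 k hK p m c) = mulA (P.A t) (img k (MvPolynomial (Fin n) R) L) := by
      apply le_antisymm (infM_le _ _)
      intro x hx
      refine ⟨hx, ?_⟩
      change x ∈ frF (invs k p m c ℓ) L
      obtain ⟨a, b, hb, rfl⟩ := IsFractionRing.div_surjective (A := (MvPolynomial (Fin n) R)) x
      have h2 : ∀ b : (MvPolynomial (Fin n) R), b ∈ invs k p m c ℓ := by
        intro b
        apply mem_invs_of_eq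
        induction b using MvPolynomial.induction_on with
        | C a => exact co_C a
        | add a b ha hb => rw [map_add, ha, hb, Polynomial.C_add]
        | mul_X a j ha =>
          rw [map_mul, ha, co_X, hall, map_zero, mul_zero, add_zero, Polynomial.C_mul]
      exact Subfield.div_mem _ (frF_mem (h2 a)) (frF_mem (h2 b))
    rw [h1]
    exact hM
  · obtain ⟨j0, hj0⟩ := not_forall.1 hall
    have hzL0 : ∀ j, zL j ≠ 0 ↔ ℓ j ≠ 0 := by
      intro j
      constructor
      · intro h h'
        apply h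
        apply Subtype.ext
        change lL R L ℓ j = 0
        rw [lL, h', map_zero]
      · intro h h'
        have h2 : lL R L ℓ j = 0 := congrArg Subtype.val h'
        exact h (hBL (h2.trans (map_zero _).symm))
    let Sl := {j : Fin n // ℓ j ≠ 0}
    have : Nonempty Sl := ⟨⟨j0, hj0⟩⟩
    obtain ⟨a, -, ha⟩ := exists_min (P.A t) (Finset.univ : Finset Sl) Finset.univ_nonempty
      (fun j => zL j.1) (fun j => (hzL0 _).2 j.2)
      (fun a b => hcmp t (Sum.inr (Sum.inr (Sum.inl a.1))) (Sum.inr (Sum.inr (Sum.inl b.1)))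
        ((hzL0 _).2 a.2) ((hzL0 _).2 b.2))
    have ha0 : (zL a.1 : L) ≠ 0 := fun h => (hzL0 _).2 a.2 (Subtype.ext h)
    refine chart_desc hK (P.A t) hM hco a.2 (fun j => zL j / zL a.1) ?_ ?_
    · intro j
      exact div_mul_cancel₀ _ ha0
    · intro j
      by_cases h : ℓ j = 0
      · have h1 : zL j = 0 := by
          by_contra h2
          exact (hzL0 j).1 h2 h
        rw [h1, zero_div]
        exact Subalgebra.zero_mem _
      · exact ha ⟨j, h⟩ (Finset.mem_univ _)

end K

end fld

section final

variable {k R : Type u} [Field k] [PerfectField k] [CommRing R] [IsDomain R] [Algebra k R]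
  [Algebra.FiniteType k R] {n : ℕ} {ℓ : Fin n → MvPolynomial (Fin n) R}
  {p m : ℕ} [hp : Fact p.Prime] [CharP k p] {c : Fin m → R}

/-- The invariants are of finite type. -/
theorem finiteType_invs (hℓ : ∀ j, co ℓ (ℓ j) = Polynomial.C (ℓ j)) :
    Algebra.FiniteType k (invs k p m c ℓ) := by
  have h1 : Algebra.IsIntegral (invs k p m c ℓ) (MvPolynomial (Fin n) R) :=
    ⟨fun b => integral_invs hℓ b⟩
  have h0 : Algebra.FiniteType k (MvPolynomial (Fin n) R) :=
    Algebra.FiniteType.trans (S := R) inferInstance inferInstance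
  have h2 : Algebra.FiniteType (invs k p m c ℓ) (MvPolynomial (Fin n) R) :=
    Algebra.FiniteType.of_restrictScalars_finiteType k _ _
  have h3 : Module.Finite (invs k p m c ℓ) (MvPolynomial (Fin n) R) := Algebra.IsIntegral.finite
  refine ⟨?_⟩
  exact fg_of_fg_of_fg k (invs k p m c ℓ) (MvPolynomial (Fin n) R) h0.1 h3.1
    Subtype.val_injective

/-- The resolution of the quotient. -/
theorem ga_main (hE : HasLM k (FractionRing R))
    (hℓ : ∀ j, ℓ j = 0 ∨ ℓ j ∈ Submonoid.closure {w | IsInvForm ℓ w}) :
    HasResolution (X := Spec (CommRingCat.of (invs k p m c ℓ)))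
      (Spec.map (CommRingCat.ofHom (algebraMap k (invs k p m c ℓ)))) := by
  classical
  have hco : ∀ j, co ℓ (ℓ j) = Polynomial.C (ℓ j) := by
    intro j
    rcases hℓ j with h | h
    · rw [h, map_zero, map_zero]
    · exact co_closure h
  let L : Type u := FractionRing (MvPolynomial (Fin n) R)
  have hBL : Function.Injective (algebraMap (MvPolynomial (Fin n) R) L) :=
    IsFractionRing.injective _ L
  have hf : FaithfulSMul R L := by
    rw [faithfulSMul_iff_algebraMap_injective,
      IsScalarTower.algebraMap_eq R (MvPolynomial (Fin n) R) L]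
    exact hBL.comp (MvPolynomial.C_injective _ _)
  let _ : Algebra (FractionRing R) L := FractionRing.liftAlgebra R L
  have t1 : IsScalarTower R (FractionRing R) L := FractionRing.isScalarTower_liftAlgebra R L
  have t2 : IsScalarTower k (FractionRing R) L := by
    refine IsScalarTower.of_algebraMap_eq fun x => ?_
    rw [IsScalarTower.algebraMap_apply k R (FractionRing R),
      ← IsScalarTower.algebraMap_apply R (FractionRing R) L,
      IsScalarTower.algebraMap_apply R (MvPolynomial (Fin n) R) L,
      ← IsScalarTower.algebraMap_apply k R (MvPolynomial (Fin n) R),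
      ← IsScalarTower.algebraMap_apply k (MvPolynomial (Fin n) R)]
  obtain ⟨K, hK⟩ : ∃ K : IntermediateField (FractionRing R) L,
    K = IntermediateField.adjoin (FractionRing R) (WW (FractionRing R) L ℓ : Set L) := ⟨_, rfl⟩
  obtain ⟨T, hT, P, hP⟩ := ga_aux (p := p) (c := c) hK hE hℓ
  have h1 := main2 (B := MvPolynomial (Fin n) R) P (FF0 k hK p m c) ?_ (K_frac hK) hP
  · rwa [cF_eq hK] at h1
  · intro b
    rw [cF_eq hK]
    exact integral_invs hco b

end final

end Pool.Agent.Q40.FC
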