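import Pool.Agent.Q40.FC.Main

/-! Quotients by finite groups. -/

set_option autoImplicit false
set_option linter.unusedSectionVars false

universe u

open Finset

namespace Pool.Agent.Q40.FC

section field

variable {E L : Type u} [Field E] [Field L] [Algebra E L] (G : Type*) [Group G] [Fintype G]
  [DecidableEq G] [MulSemiringAction G L] [SMulCommClass G E L]

/-- the fixed field -/
abbrev fxd (E : Type u) {L : Type u} [Field E] [Field L] [Algebra E L] (G : Type*) [Group G]
    [MulSemiringAction G L] [SMulCommClass G E L] : IntermediateField E L :=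
  FixedPoints.intermediateField G

theorem mem_fxd {x : L} : x ∈ fxd E G (L := L) ↔ ∀ g : G, g • x = x := Iff.rfl

theorem finrank_fxd [FaithfulSMul G L] : Module.finrank (fxd E G (L := L)) L = Fintype.card G :=
  FixedPoints.finrank_eq_card G L

theorem finite_fxd : FiniteDimensional (fxd E G (L := L)) L :=
  (inferInstance : FiniteDimensional (FixedPoints.subfield G L) L)

theorem exists_basis [FaithfulSMul G L] : Nonempty (Module.Basis G (fxd E G (L := L)) L) := by
  have h1 : FiniteDimensional (fxd E G (L := L)) L := finite_fxd G
  have h2 := Module.finBasisOfFinrankEq (fxd E G (L := L)) L (finrank_fxd (E := E) G)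
  exact ⟨h2.reindex (Fintype.equivFin G).symm⟩

/-- Dedekind -/
theorem det_ne_zero [FaithfulSMul G L] (e : Module.Basis G (fxd E G (L := L)) L) :
    Matrix.det (Matrix.of fun g h : G => g • e h) ≠ 0 := by
  intro h0
  obtain ⟨v, hv, hv0⟩ := Matrix.exists_vecMul_eq_zero_iff.2 h0
  apply hv
  have h1 : ∀ x : L, ∑ g, v g * (g • x) = 0 := by
    intro x
    have h2 : ∀ g : G, g • x = ∑ h, (e.repr x h : L) * (g • e h) := by
      intro g
      conv_lhs => rw [← e.sum_repr x]
      rw [Finset.smul_sum]
      refine Finset.sum_congr rfl fun h _ => ?_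
      have h3 : e.repr x h • e h = (e.repr x h : L) * e h := rfl
      rw [h3, smul_mul', (mem_fxd G).1 (e.repr x h).2 g]
    have h4 : ∀ h, ∑ g, v g * (g • e h) = 0 := by
      intro h
      have := congrFun hv0 h
      simpa [Matrix.vecMul, dotProduct] using this
    calc ∑ g, v g * (g • x) = ∑ g, ∑ h, (e.repr x h : L) * (v g * (g • e h)) := by
          refine Finset.sum_congr rfl fun g _ => ?_
          rw [h2 g, Finset.mul_sum]
          exact Finset.sum_congr rfl fun h _ => by ring
      _ = ∑ h, (e.repr x h : L) * ∑ g, v g * (g • e h) := by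
          rw [Finset.sum_comm]
          exact Finset.sum_congr rfl fun h _ => by rw [Finset.mul_sum]
      _ = 0 := Finset.sum_eq_zero fun h _ => by rw [h4, mul_zero]
  let τ : G → (L →* L) := fun g => (MulSemiringAction.toRingHom G L g : L →* L)
  have hτ : Function.Injective τ := by
    intro g h hgh
    apply FaithfulSMul.eq_of_smul_eq_smul (α := L)
    intro x
    exact DFunLike.congr_fun hgh x
  have h5 := (linearIndependent_monoidHom L L).comp τ hτ
  rw [Fintype.linearIndependent_iff] at h5
  funext g
  refine h5 v ?_ g
  funext x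
  rw [Finset.sum_apply]
  exact h1 x

theorem det_smul (e : Module.Basis G (fxd E G (L := L)) L) (c : G → L) :
    Matrix.det (Matrix.of fun g h : G => g • c h) =
      Matrix.det (Matrix.of fun g h : G => g • e h) * (e.det c : L) := by
  rw [Module.Basis.det_apply]
  have h1 : ((Matrix.det (e.toMatrix c) : fxd E G (L := L)) : L) =
      Matrix.det ((e.toMatrix c).map (algebraMap (fxd E G (L := L)) L)) := by
    rw [← RingHom.mapMatrix_apply, ← RingHom.map_det]
    rfl
  rw [h1, ← Matrix.det_mul]
  congr 1
  ext g h
  rw [Matrix.mul_apply]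
  simp only [Matrix.of_apply, Matrix.map_apply]
  conv_lhs => rw [← e.sum_repr (c h)]
  rw [Finset.smul_sum]
  refine Finset.sum_congr rfl fun l _ => ?_
  have h3 : e.repr (c h) l • e l = (e.repr (c h) l : L) * e l := rfl
  rw [h3, smul_mul', (mem_fxd G).1 (e.repr (c h) l).2 g, mul_comm]
  rfl

end field

section span

/-- Multilinear maps and ideals. -/
theorem multilinear_mem {A W : Type*} [CommRing A] [AddCommGroup W] [Module A W] {ι : Type*}
    [Fintype ι] [DecidableEq ι] (f : MultilinearMap A (fun _ : ι => W) A) (S : Set W) (I : Ideal A)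
    (h : ∀ c : ι → W, (∀ i, c i ∈ S) → f c ∈ I) (c : ι → W)
    (hc : ∀ i, c i ∈ Submodule.span A S) : f c ∈ I := by
  have key : ∀ T : Finset ι, ∀ c : ι → W, (∀ i ∈ T, c i ∈ Submodule.span A S) →
      (∀ i ∉ T, c i ∈ S) → f c ∈ I := by
    intro T
    induction T using Finset.induction with
    | empty => exact fun c _ hc => h c fun i => hc i (by simp)
    | insert j T hj ih =>
      intro c hc1 hc2
      have h1 : ∀ x ∈ Submodule.span A S, f (Function.update c j x) ∈ I := by
        intro x hx
        induction hx using Submodule.span_induction with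
        | mem x hx =>
          refine ih _ ?_ ?_
          · intro i hi
            have : i ≠ j := fun h => hj (h ▸ hi)
            rw [Function.update_of_ne this]
            exact hc1 i (Finset.mem_insert_of_mem hi)
          · intro i hi
            by_cases hij : i = j
            · subst hij
              rw [Function.update_self]
              exact hx
            · rw [Function.update_of_ne hij]
              exact hc2 i (fun h => (Finset.mem_insert.1 h).elim hij hi)
        | zero => rw [MultilinearMap.map_update_zero]; exact I.zero_mem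
        | add x y _ _ hx hy => rw [MultilinearMap.map_update_add]; exact I.add_mem hx hy
        | smul a x _ hx => rw [MultilinearMap.map_update_smul]; exact I.mul_mem_left _ hx
      have h2 := h1 (c j) (hc1 j (Finset.mem_insert_self _ _))
      rwa [Function.update_eq_self] at h2
  exact key Finset.univ c (fun i _ => hc i) (fun i hi => absurd (Finset.mem_univ i) hi)

end span

section group

open Pool.Agent.W558 Pool.Agent.H920R2 Pool.Agent.Q40.RS Pool.Agent.Q40.FF Pool.Agent.W418.LCI
  AlgebraicGeometry CategoryTheory

variable {k R B E L : Type u} [Field k] [PerfectField k] [CommRing R] [IsDomain R] [Algebra k R]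
  [CommRing B] [IsDomain B] [Algebra k B] [Algebra R B] [IsScalarTower k R B] [Field E]
  [Algebra k E] [Algebra R E] [IsScalarTower k R E] [IsFractionRing R E] [Field L] [Algebra k L]
  [Algebra B L] [IsScalarTower k B L] [Algebra R L] [IsScalarTower R B L] [Algebra E L]
  [IsScalarTower R E L] [IsScalarTower k E L] [IsFractionRing B L]
  (G : Type*) [Group G] [Fintype G] [DecidableEq G] [MulSemiringAction G B] [MulSemiringAction G L]
  [SMulDistribClass G B L] [SMulCommClass G R B] [SMulCommClass G E L] [FaithfulSMul G L]

omit [PerfectField k] in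
theorem smul_algebraMap_L (g : G) (b : B) : g • algebraMap B L b = algebraMap B L (g • b) := by
  have h1 := SMulDistribClass.smul_distrib_smul g b (1 : L)
  rw [smul_one, Algebra.smul_def, Algebra.smul_def, mul_one, mul_one] at h1
  exact h1

omit [PerfectField k] in
/-- fractions with invariant denominators -/
theorem exists_inv_denom (x : L) : ∃ b d : B, d ≠ 0 ∧ (∀ g : G, g • d = d) ∧
    x = algebraMap B L b / algebraMap B L d := by
  obtain ⟨a, b, hb, rfl⟩ := IsFractionRing.div_surjective (A := B) x
  have hb0 : b ≠ 0 := nonZeroDivisors.ne_zero hb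
  have hne : ∀ g : G, g • b ≠ 0 := fun g h => hb0 ((smul_eq_zero_iff_eq g).1 h)
  refine ⟨a * ∏ g ∈ univ.erase (1 : G), g • b, ∏ g : G, g • b, ?_, ?_, ?_⟩
  · exact Finset.prod_ne_zero_iff.2 fun g _ => hne g
  · intro h
    rw [Finset.smul_prod']
    have h1 : ∏ g : G, h • g • b = ∏ g : G, (h * g) • b :=
      Finset.prod_congr rfl fun g _ => by rw [mul_smul]
    rw [h1]
    exact Equiv.prod_comp (Equiv.mulLeft h) fun g => g • b
  · rw [← Finset.mul_prod_erase univ (fun g : G => g • b) (Finset.mem_univ 1), one_smul, map_mul,
      map_mul]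
    have h1 : algebraMap B L (∏ g ∈ univ.erase (1 : G), g • b) ≠ 0 := by
      intro h
      have h2 : ∏ g ∈ univ.erase (1 : G), g • b = 0 :=
        IsFractionRing.injective B L (by rw [h, map_zero])
      exact (Finset.prod_ne_zero_iff.2 fun g _ => hne g) h2
    rw [mul_div_mul_right _ _ h1]

/-- Quotients by finite groups. -/
theorem main_group (p : ℕ) [hp : Fact p.Prime] [CharP k p] [Algebra.FiniteType k R]
    (hE : Princ (img k R E)) [Algebra.Smooth R B] (V : Set (G → R))
    (hV : Submodule.span B (Set.range fun (b : B) (g : G) => g • b) =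
      Submodule.span B ((fun (v : G → R) (g : G) => algebraMap R B (v g)) '' V)) :
    HasResolution (X := Spec (CommRingCat.of (cF k B (fxd E G (L := L)))))
      (Spec.map (CommRingCat.ofHom (algebraMap k (cF k B (fxd E G (L := L)))))) := by
  classical
  obtain ⟨e⟩ := exists_basis (E := E) (L := L) G
  have hfin : FiniteDimensional (fxd E G (L := L)) L := finite_fxd G
  have hinj : Function.Injective (algebraMap B L) := IsFractionRing.injective B L
  set Δ : L := Matrix.det (Matrix.of fun g h : G => g • e h) with hΔ
  have hΔ0 : Δ ≠ 0 := det_ne_zero G e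
  let δ : (G → B) → B := fun c => Matrix.det (Matrix.of fun h g : G => g • c h)
  have hδ' : ∀ c : G → L, Matrix.det (Matrix.of fun h g : G => g • c h) = Δ * (e.det c : L) := by
    intro c
    rw [← det_smul G e c, ← Matrix.det_transpose]
    rfl
  have hδL : ∀ c : G → B, algebraMap B L (δ c) =
      Matrix.det (Matrix.of fun h g : G => g • algebraMap B L (c h)) := by
    intro c
    rw [RingHom.map_det]
    congr 1
    ext h g
    rw [RingHom.mapMatrix_apply, Matrix.map_apply, Matrix.of_apply, Matrix.of_apply,
      smul_algebraMap_L]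
  have hδ : ∀ c : G → B, (e.det (fun i => algebraMap B L (c i)) : L) =
      Δ⁻¹ * algebraMap B L (δ c) := by
    intro c
    rw [hδL, hδ', inv_mul_cancel_left₀ hΔ0]
  let I : Ideal R := Ideal.span {x | ∃ v : G → (G → R), (∀ h, v h ∈ V) ∧
    x = Matrix.det (Matrix.of v)}
  -- the determinant as a multilinear map
  let f : MultilinearMap B (fun _ : G => G → B) B :=
    (Matrix.detRowAlternating : (G → B) [⋀^G]→ₗ[B] B).toMultilinearMap
  have hf : ∀ c : G → (G → B), f c = Matrix.det (Matrix.of c) := fun c => rfl
  have hI : Ideal.span (Set.range δ) = I.map (algebraMap R B) := by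
    apply le_antisymm
    · rw [Ideal.span_le]
      rintro _ ⟨c, rfl⟩
      change f (fun h g => g • c h) ∈ I.map (algebraMap R B)
      refine multilinear_mem f ((fun (v : G → R) (g : G) => algebraMap R B (v g)) '' V) _ ?_ _ ?_
      · intro w hw
        choose v hv1 hv2 using hw
        have h1 : f w = algebraMap R B (Matrix.det (Matrix.of v)) := by
          rw [RingHom.map_det, hf]
          congr 1
          ext h g
          rw [RingHom.mapMatrix_apply, Matrix.map_apply, Matrix.of_apply, Matrix.of_apply, ← hv2 h]
        rw [h1]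
        exact Ideal.mem_map_of_mem _ (Ideal.subset_span ⟨v, hv1, rfl⟩)
      · intro h
        rw [← hV]
        exact Submodule.subset_span ⟨c h, rfl⟩
    · rw [Ideal.map_le_iff_le_comap, Ideal.span_le]
      rintro _ ⟨v, hv, rfl⟩
      rw [SetLike.mem_coe, Ideal.mem_comap]
      have h1 : algebraMap R B (Matrix.det (Matrix.of v)) =
          f (fun h g => algebraMap R B (v h g)) := by
        rw [RingHom.map_det, hf]
        rfl
      rw [h1]
      refine multilinear_mem f (Set.range fun (b : B) (g : G) => g • b) _ ?_ _ ?_
      · intro w hw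
        choose c hc using hw
        refine Ideal.subset_span ⟨c, ?_⟩
        change Matrix.det (Matrix.of fun h g : G => g • c h) = Matrix.det (Matrix.of w)
        congr 1
        ext h g
        rw [Matrix.of_apply, Matrix.of_apply, ← hc h]
      · intro h
        rw [hV]
        exact Submodule.subset_span ⟨v h, hv h, rfl⟩
  have hI0 : I ≠ ⊥ := by
    intro h0
    rw [h0, Ideal.map_bot, Ideal.span_eq_bot] at hI
    choose b d hd0 hdG hbd using fun h : G => exists_inv_denom (B := B) G (e h)
    have h1 := hI (δ b) ⟨b, rfl⟩
    apply hΔ0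
    have h2 : Matrix.det (Matrix.of fun h g : G => g • algebraMap B L (b h)) =
        (∏ h, algebraMap B L (d h)) * Matrix.det (Matrix.of fun h g : G => g • e h) := by
      rw [← Matrix.det_mul_column]
      congr 1
      ext h g
      rw [Matrix.of_apply, Matrix.of_apply, Matrix.of_apply]
      have h3 : algebraMap B L (b h) = algebraMap B L (d h) * e h := by
        rw [hbd h, mul_div_cancel₀]
        intro h4
        exact hd0 h (hinj (by rw [h4, map_zero]))
      rw [h3, smul_mul', smul_algebraMap_L, hdG]
    rw [← hδL, h1, map_zero] at h2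
    have h3 : (∏ h, algebraMap B L (d h)) ≠ 0 :=
      Finset.prod_ne_zero_iff.2 fun h _ h4 => hd0 h (hinj (by rw [h4, map_zero]))
    have h4 := (mul_eq_zero.1 h2.symm).resolve_left h3
    rw [hΔ, ← Matrix.det_transpose]
    exact h4
  -- integrality
  have hint : ∀ b : B, IsIntegral (cF k B (fxd E G (L := L))) b := by
    intro b
    have h1 : Algebra.IsInvariant (cF k B (fxd E G (L := L))) B G := by
      refine ⟨fun x hx => ⟨⟨x, ?_⟩, rfl⟩⟩
      rw [mem_cF, mem_fxd]
      intro g
      rw [smul_algebraMap_L, hx g]
    exact (Algebra.IsInvariant.isIntegral (cF k B (fxd E G (L := L))) B G).isIntegral b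
  exact main p hE (fxd E G (L := L)) hint e Δ⁻¹ (inv_ne_zero hΔ0) δ hδ I hI0 hI

end group

end Pool.Agent.Q40.FC
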