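import Pool.Agent.Q40.FC.Frame
import Mathlib.RingTheory.HopfAlgebra.TensorProduct

/-! Actions of finite group schemes over a field `E` on an extension field `L`: elements which are
independent over the field of invariants have independent orbit maps. -/

set_option autoImplicit false
set_option linter.unusedSectionVars false

universe u

open Finset TensorProduct

namespace Pool.Agent.Q40.FC

section

variable {E L Q : Type*} [Field E] [Field L] [Algebra E L] [CommRing Q] [HopfAlgebra E Q]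

/-- An action of the group scheme `Spec Q` over `E` on the field `L`, given by the homomorphism
`ρ : L → L ⊗ Q`. -/
structure IsCoaction (ρ : L →ₐ[E] L ⊗[E] Q) : Prop where
  coassoc : ∀ x, TensorProduct.map ρ.toLinearMap LinearMap.id (ρ x) =
    (TensorProduct.assoc E L Q Q).symm
      (TensorProduct.map LinearMap.id (Coalgebra.comul (R := E)) (ρ x))
  counit : ∀ x, TensorProduct.map LinearMap.id (Coalgebra.counit (R := E)) (ρ x) = x ⊗ₜ[E] (1 : E)

variable (ρ : L →ₐ[E] L ⊗[E] Q)

/-- The field of invariants. -/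
def coinv : IntermediateField E L where
  carrier := {x | ρ x = x ⊗ₜ 1}
  mul_mem' := by
    intro x y hx hy
    have hx' : ρ x = x ⊗ₜ 1 := hx
    have hy' : ρ y = y ⊗ₜ 1 := hy
    change ρ (x * y) = (x * y) ⊗ₜ 1
    rw [map_mul, hx', hy', Algebra.TensorProduct.tmul_mul_tmul, one_mul]
  add_mem' := by
    intro x y hx hy
    have hx' : ρ x = x ⊗ₜ 1 := hx
    have hy' : ρ y = y ⊗ₜ 1 := hy
    change ρ (x + y) = (x + y) ⊗ₜ 1
    rw [map_add, hx', hy', TensorProduct.add_tmul]
  algebraMap_mem' := by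
    intro r
    change ρ (algebraMap E L r) = (algebraMap E L r) ⊗ₜ 1
    rw [AlgHom.commutes, Algebra.TensorProduct.algebraMap_apply]
  inv_mem' := by
    intro x hx
    have hx' : ρ x = x ⊗ₜ 1 := hx
    change ρ x⁻¹ = x⁻¹ ⊗ₜ 1
    by_cases h0 : x = 0
    · rw [h0, inv_zero, map_zero, TensorProduct.zero_tmul]
    · have h1 : ρ x * ρ x⁻¹ = 1 := by rw [← map_mul, mul_inv_cancel₀ h0, map_one]
      have h2 : (x⁻¹ ⊗ₜ[E] (1 : Q)) * ρ x = 1 := by
        rw [hx', Algebra.TensorProduct.tmul_mul_tmul, inv_mul_cancel₀ h0, one_mul]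
        rfl
      calc ρ x⁻¹ = ((x⁻¹ ⊗ₜ[E] (1 : Q)) * ρ x) * ρ x⁻¹ := by rw [h2, one_mul]
        _ = x⁻¹ ⊗ₜ 1 := by rw [mul_assoc, h1, mul_one]

theorem mem_coinv {x : L} : x ∈ coinv ρ ↔ ρ x = x ⊗ₜ 1 := Iff.rfl

/-- Evaluation at a functional. -/
noncomputable def evl (φ : Q →ₗ[E] E) : L ⊗[E] Q →ₗ[E] L :=
  (TensorProduct.rid E L).toLinearMap ∘ₗ TensorProduct.map LinearMap.id φ

theorem evl_tmul (φ : Q →ₗ[E] E) (x : L) (q : Q) : evl φ (x ⊗ₜ[E] q) = φ q • x := by
  rw [evl, LinearMap.comp_apply, TensorProduct.map_tmul, LinearMap.id_apply]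
  exact TensorProduct.rid_tmul _ _

theorem evl_mul (φ : Q →ₗ[E] E) (x : L) (u : L ⊗[E] Q) :
    evl φ ((x ⊗ₜ[E] (1 : Q)) * u) = x * evl φ u := by
  induction u using TensorProduct.induction_on with
  | zero => rw [mul_zero, map_zero, mul_zero]
  | tmul y q =>
    rw [Algebra.TensorProduct.tmul_mul_tmul, one_mul, evl_tmul, evl_tmul, mul_smul_comm]
  | add u v hu hv => rw [mul_add, map_add, map_add, mul_add, hu, hv]

/-- The map `h ⊗ (q ⊗ q') ↦ h S(q) ⊗ q'`. -/
noncomputable def kap (E Q : Type*) [Field E] [CommRing Q] [HopfAlgebra E Q] :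
    Q ⊗[E] (Q ⊗[E] Q) →ₗ[E] Q ⊗[E] Q :=
  TensorProduct.map (LinearMap.mul' E Q ∘ₗ TensorProduct.map LinearMap.id (HopfAlgebra.antipode E))
    LinearMap.id ∘ₗ (TensorProduct.assoc E Q Q Q).symm.toLinearMap

theorem kap_tmul (h q q' : Q) : kap E Q (h ⊗ₜ (q ⊗ₜ q')) = (h * HopfAlgebra.antipode E q) ⊗ₜ q' := by
  simp [kap]

theorem kap_comul (q : Q) : kap E Q (TensorProduct.map LinearMap.id (Coalgebra.comul (R := E))
    (Coalgebra.comul (R := E) q)) = 1 ⊗ₜ q := by
  have h1 : (TensorProduct.assoc E Q Q Q).symm (TensorProduct.map LinearMap.id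
      (Coalgebra.comul (R := E)) (Coalgebra.comul (R := E) q)) =
      TensorProduct.map (Coalgebra.comul (R := E)) LinearMap.id (Coalgebra.comul (R := E) q) := by
    rw [LinearEquiv.symm_apply_eq]
    exact (Coalgebra.coassoc_apply (R := E) q).symm
  rw [kap, LinearMap.comp_apply, LinearEquiv.coe_toLinearMap, h1]
  have h2 : ∀ t : Q ⊗[E] Q, TensorProduct.map (LinearMap.mul' E Q ∘ₗ
      TensorProduct.map LinearMap.id (HopfAlgebra.antipode E)) (LinearMap.id : Q →ₗ[E] Q)
      (TensorProduct.map (Coalgebra.comul (R := E)) LinearMap.id t) =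
      TensorProduct.map (Algebra.linearMap E Q) LinearMap.id
        (TensorProduct.map (Coalgebra.counit (R := E)) LinearMap.id t) := by
    intro t
    induction t using TensorProduct.induction_on with
    | zero => simp only [map_zero]
    | tmul a b =>
      simp only [TensorProduct.map_tmul, LinearMap.id_apply, LinearMap.comp_apply]
      have h3 := HopfAlgebra.mul_antipode_lTensor_comul_apply (R := E) a
      have h4 : (LinearMap.mul' E Q) (TensorProduct.map LinearMap.id (HopfAlgebra.antipode E)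
          (Coalgebra.comul (R := E) a)) = algebraMap E Q (Coalgebra.counit (R := E) a) := h3
      rw [h4]
      rfl
    | add a b ha hb => simp only [map_add, ha, hb]
  rw [h2]
  have h5 := Coalgebra.rTensor_counit_comul (R := E) q
  have h6 : TensorProduct.map (Coalgebra.counit (R := E)) LinearMap.id (Coalgebra.comul (R := E) q)
      = (1 : E) ⊗ₜ[E] q := h5
  rw [h6, TensorProduct.map_tmul, Algebra.linearMap_apply, map_one, LinearMap.id_apply]

/-- The linear maps `u ⊗ (q ⊗ q') ↦ φ(v u (1 ⊗ S q)) ⊗ q'`. -/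
noncomputable def xi (φ : Q →ₗ[E] E) (v : L ⊗[E] Q) :
    (L ⊗[E] Q) ⊗[E] (Q ⊗[E] Q) →ₗ[E] L ⊗[E] Q :=
  TensorProduct.map (evl φ ∘ₗ LinearMap.mulLeft E v ∘ₗ LinearMap.mul' E (L ⊗[E] Q) ∘ₗ
    TensorProduct.map LinearMap.id ((TensorProduct.mk E L Q 1) ∘ₗ HopfAlgebra.antipode E))
    LinearMap.id ∘ₗ (TensorProduct.assoc E (L ⊗[E] Q) Q Q).symm.toLinearMap

theorem xi_tmul (φ : Q →ₗ[E] E) (v u : L ⊗[E] Q) (q q' : Q) :
    xi φ v (u ⊗ₜ (q ⊗ₜ q')) =
      (evl φ (v * (u * (1 ⊗ₜ HopfAlgebra.antipode E q)))) ⊗ₜ[E] q' := by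
  simp [xi]

/-- The linear map `x ⊗ q ↦ φ(ρ(x) (1 ⊗ S q_1)) ⊗ q_2`. -/
noncomputable def theta (φ : Q →ₗ[E] E) : L ⊗[E] Q →ₗ[E] L ⊗[E] Q :=
  xi φ 1 ∘ₗ TensorProduct.map ρ.toLinearMap (Coalgebra.comul (R := E))

theorem xi_mul (φ : Q →ₗ[E] E) (v u : L ⊗[E] Q) (t : Q ⊗[E] Q) :
    xi φ 1 ((v * u) ⊗ₜ t) = xi φ v (u ⊗ₜ t) := by
  induction t using TensorProduct.induction_on with
  | zero => simp only [TensorProduct.tmul_zero, map_zero]
  | tmul q q' => rw [xi_tmul, xi_tmul, one_mul, mul_assoc]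
  | add s t hs ht => rw [TensorProduct.tmul_add, TensorProduct.tmul_add, map_add, map_add, hs, ht]

theorem theta_mul (φ : Q →ₗ[E] E) (a : L) (z : L ⊗[E] Q) :
    theta ρ φ ((a ⊗ₜ[E] (1 : Q)) * z) =
      xi φ (ρ a) (TensorProduct.map ρ.toLinearMap (Coalgebra.comul (R := E)) z) := by
  induction z using TensorProduct.induction_on with
  | zero => simp only [mul_zero, map_zero]
  | tmul x q =>
    rw [Algebra.TensorProduct.tmul_mul_tmul, one_mul, theta, LinearMap.comp_apply,
      TensorProduct.map_tmul, TensorProduct.map_tmul]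
    change xi φ 1 (ρ (a * x) ⊗ₜ _) = xi φ (ρ a) (ρ x ⊗ₜ _)
    rw [map_mul, xi_mul]
  | add u v hu hv => rw [mul_add, map_add, hu, hv, map_add, map_add]

theorem theta_rho (hρ : IsCoaction ρ) (φ : Q →ₗ[E] E) (a b : L) :
    theta ρ φ ((a ⊗ₜ[E] (1 : Q)) * ρ b) = (evl φ (ρ a) ⊗ₜ[E] (1 : Q)) * ρ b := by
  rw [theta_mul]
  have h1 : ∀ z : L ⊗[E] Q, TensorProduct.map ρ.toLinearMap (Coalgebra.comul (R := E)) z =
      TensorProduct.map LinearMap.id (Coalgebra.comul (R := E))
        (TensorProduct.map ρ.toLinearMap (LinearMap.id : Q →ₗ[E] Q) z) := by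
    intro z
    induction z using TensorProduct.induction_on with
    | zero => simp only [map_zero]
    | tmul x q => simp only [TensorProduct.map_tmul, LinearMap.id_apply]
    | add u v hu hv => simp only [map_add, hu, hv]
  rw [h1, hρ.coassoc]
  -- the identity on elementary tensors
  have h2 : ∀ (x : L) (t : Q ⊗[E] Q), xi φ (ρ a) (TensorProduct.map (LinearMap.id : L ⊗[E] Q →ₗ[E] L ⊗[E] Q)
      (Coalgebra.comul (R := E)) ((TensorProduct.assoc E L Q Q).symm (x ⊗ₜ t))) =
      TensorProduct.map (evl φ ∘ₗ LinearMap.mulLeft E (ρ a) ∘ₗ TensorProduct.mk E L Q x)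
        LinearMap.id (kap E Q (TensorProduct.map LinearMap.id (Coalgebra.comul (R := E)) t)) := by
    intro x t
    induction t using TensorProduct.induction_on with
    | zero => simp only [TensorProduct.tmul_zero, map_zero]
    | tmul h q =>
      rw [TensorProduct.assoc_symm_tmul, TensorProduct.map_tmul, TensorProduct.map_tmul,
        LinearMap.id_apply, LinearMap.id_apply]
      generalize Coalgebra.comul (R := E) q = s
      induction s using TensorProduct.induction_on with
      | zero => simp only [TensorProduct.tmul_zero, map_zero]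
      | tmul q q' =>
        rw [xi_tmul, kap_tmul, TensorProduct.map_tmul, LinearMap.id_apply,
          Algebra.TensorProduct.tmul_mul_tmul, mul_one]
        rfl
      | add s t hs ht => simp only [TensorProduct.tmul_add, map_add, hs, ht]
    | add s t hs ht => simp only [TensorProduct.tmul_add, map_add, hs, ht]
  have h3 : ∀ w : L ⊗[E] Q, xi φ (ρ a) (TensorProduct.map (LinearMap.id : L ⊗[E] Q →ₗ[E] L ⊗[E] Q)
      (Coalgebra.comul (R := E)) ((TensorProduct.assoc E L Q Q).symm
        (TensorProduct.map LinearMap.id (Coalgebra.comul (R := E)) w))) =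
      (evl φ (ρ a) ⊗ₜ[E] (1 : Q)) * w := by
    intro w
    induction w using TensorProduct.induction_on with
    | zero => simp only [mul_zero, map_zero]
    | tmul x q =>
      rw [TensorProduct.map_tmul, LinearMap.id_apply, h2, kap_comul, TensorProduct.map_tmul,
        LinearMap.id_apply, Algebra.TensorProduct.tmul_mul_tmul, one_mul]
      congr 1
      change evl φ (ρ a * (x ⊗ₜ 1)) = _
      rw [mul_comm (ρ a), evl_mul, mul_comm]
    | add s t hs ht => simp only [mul_add, map_add, hs, ht]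
  exact h3 _

end

end Pool.Agent.Q40.FC
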