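import Pool.Agent.Q40.FC.Hopf

/-! Actions of finite group schemes over a field `E` on an extension field `L`: elements which are
independent over the field of invariants have independent orbit maps. -/

set_option autoImplicit false
set_option linter.unusedSectionVars false

universe u

open Finset TensorProduct

namespace Pool.Agent.Q40.FC

section

variable {E L Q : Type*} [Field E] [Field L] [Algebra E L] [CommRing Q] [HopfAlgebra E Q]

theorem eq_zero_of_evl {u : L ⊗[E] Q} (h : ∀ φ : Q →ₗ[E] E, evl φ u = 0) : u = 0 := by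
  let β := Module.Basis.ofVectorSpace E Q
  have h1 : ∀ (u : L ⊗[E] Q) j, (Algebra.TensorProduct.basis L β).repr u j =
      evl (β.coord j) u := by
    intro u j
    induction u using TensorProduct.induction_on with
    | zero => simp only [map_zero, Finsupp.coe_zero, Pi.zero_apply]
    | tmul x q =>
      rw [Algebra.TensorProduct.basis_repr_tmul, evl_tmul, Finsupp.smul_apply,
        Finsupp.mapRange_apply, smul_eq_mul, Module.Basis.coord_apply, Algebra.smul_def, mul_comm]
    | add u v hu hv => rw [map_add, Finsupp.add_apply, map_add, hu, hv]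
  apply (Algebra.TensorProduct.basis L β).repr.injective
  rw [map_zero]
  ext j
  rw [h1, h]
  rfl

variable (ρ : L →ₐ[E] L ⊗[E] Q)

theorem rho_injective (hρ : IsCoaction ρ) : Function.Injective ρ := by
  rw [injective_iff_map_eq_zero]
  intro x hx
  have h1 := hρ.counit x
  rw [hx, map_zero] at h1
  have h2 := congrArg (TensorProduct.rid E L) h1
  rw [map_zero, TensorProduct.rid_tmul, one_smul] at h2
  exact h2.symm

theorem smul_eq (c : L) (u : L ⊗[E] Q) : c • u = (c ⊗ₜ[E] (1 : Q)) * u := by
  rw [Algebra.smul_def]
  rfl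

/-- **Artin's lemma** for actions of group schemes. -/
theorem indep_rho (hρ : IsCoaction ρ) {ι : Type*} [Fintype ι] (b : ι → L)
    (hb : LinearIndependent (coinv ρ) b) : LinearIndependent L fun i => ρ (b i) := by
  classical
  have key : ∀ n : ℕ, ∀ a : ι → L, #{i | a i ≠ 0} = n → ∑ i, a i • ρ (b i) = 0 →
      ∀ i, a i = 0 := by
    intro n
    induction n using Nat.strong_induction_on with
    | _ n ih =>
      intro a ha hsum i0
      by_contra hi0
      let a' : ι → L := fun i => (a i0)⁻¹ * a i
      have ha'1 : a' i0 = 1 := inv_mul_cancel₀ hi0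
      have ha's : ∑ i, a' i • ρ (b i) = 0 := by
        have h1 : ∑ i, a' i • ρ (b i) = (a i0)⁻¹ • ∑ i, a i • ρ (b i) := by
          rw [Finset.smul_sum]
          exact Finset.sum_congr rfl fun i _ => mul_smul _ _ _
        rw [h1, hsum, smul_zero]
      have h1 : ∀ (φ : Q →ₗ[E] E) i, evl φ (ρ (a' i)) - φ 1 • a' i = 0 := by
        intro φ
        refine ih _ ?_ (fun i => evl φ (ρ (a' i)) - φ 1 • a' i) rfl ?_
        · rw [← ha]
          apply Finset.card_lt_card
          rw [Finset.ssubset_iff_of_subset]
          · refine ⟨i0, by simpa using hi0, ?_⟩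
            rw [Finset.mem_filter, not_and, not_not]
            intro _
            rw [ha'1, map_one]
            have h2 : evl φ (1 : L ⊗[E] Q) = φ 1 • (1 : L) := evl_tmul φ 1 1
            rw [h2, sub_self]
          · intro i hi
            rw [Finset.mem_filter] at hi ⊢
            refine ⟨Finset.mem_univ i, fun h0 => hi.2 ?_⟩
            have h2 : a' i = 0 := by
              change (a i0)⁻¹ * a i = 0
              rw [h0, mul_zero]
            rw [h2, map_zero, map_zero, smul_zero, sub_zero]
        · have h2 : theta ρ φ (∑ i, a' i • ρ (b i)) = ∑ i, evl φ (ρ (a' i)) • ρ (b i) := by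
            rw [map_sum]
            refine Finset.sum_congr rfl fun i _ => ?_
            rw [smul_eq, theta_rho ρ hρ, ← smul_eq]
          rw [ha's, map_zero] at h2
          have h3 : ∑ i, (evl φ (ρ (a' i)) - φ 1 • a' i) • ρ (b i) =
              ∑ i, evl φ (ρ (a' i)) • ρ (b i) - φ 1 • ∑ i, a' i • ρ (b i) := by
            rw [Finset.smul_sum, ← Finset.sum_sub_distrib]
            refine Finset.sum_congr rfl fun i _ => ?_
            rw [sub_smul, smul_assoc]
          rw [h3, ← h2, ha's, smul_zero, sub_zero]
      have h2 : ∀ i, a' i ∈ coinv ρ := by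
        intro i
        rw [mem_coinv, ← sub_eq_zero]
        apply eq_zero_of_evl
        intro φ
        rw [map_sub, evl_tmul]
        exact h1 φ i
      rw [Fintype.linearIndependent_iff] at hb
      have h3 := hb (fun i => ⟨a' i, h2 i⟩) (by
        apply rho_injective ρ hρ
        rw [map_zero, map_sum, ← ha's]
        refine Finset.sum_congr rfl fun i _ => ?_
        have h4 : (⟨a' i, h2 i⟩ : coinv ρ) • b i = a' i * b i := rfl
        rw [h4, map_mul, (mem_coinv ρ).1 (h2 i), ← smul_eq]) i0
      have h4 : a' i0 = 0 := congrArg Subtype.val h3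
      rw [ha'1] at h4
      exact one_ne_zero h4
  rw [Fintype.linearIndependent_iff]
  intro a ha i
  exact key _ a rfl ha i

variable [Module.Finite E Q]

theorem finite_coinv (hρ : IsCoaction ρ) : FiniteDimensional (coinv ρ) L := by
  have h1 : Module.rank (coinv ρ) L ≤ Module.finrank L (L ⊗[E] Q) := by
    apply rank_le
    intro s hs
    have h2 := indep_rho ρ hρ (fun i : s => (i : L)) hs
    have h3 := h2.fintype_card_le_finrank
    rwa [Fintype.card_coe] at h3
  exact Module.rank_lt_aleph0_iff.1 (h1.trans_lt (Cardinal.natCast_lt_aleph0))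

/-- bases -/
theorem exists_frame (hρ : IsCoaction ρ) (hsp : Submodule.span L (Set.range ρ) = ⊤) :
    ∃ (e : Module.Basis (Fin (Module.finrank (coinv ρ) L)) (coinv ρ) L)
      (eT : Module.Basis (Fin (Module.finrank (coinv ρ) L)) L (L ⊗[E] Q))
      (w : Module.Basis (Fin (Module.finrank (coinv ρ) L)) E Q), ∀ i, eT i = ρ (e i) := by
  have hfd := finite_coinv ρ hρ
  let e := Module.finBasis (coinv ρ) L
  have h1 := indep_rho ρ hρ e e.linearIndependent
  have h2 : ⊤ ≤ Submodule.span L (Set.range fun i => ρ (e i)) := by
    rw [← hsp, Submodule.span_le]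
    rintro _ ⟨x, rfl⟩
    rw [← e.sum_repr x, map_sum]
    refine Submodule.sum_mem _ fun i _ => ?_
    have h3 : e.repr x i • e i = (e.repr x i : L) * e i := rfl
    rw [h3, map_mul, (mem_coinv ρ).1 (e.repr x i).2, ← smul_eq]
    exact Submodule.smul_mem _ _ (Submodule.subset_span ⟨i, rfl⟩)
  let eT := Module.Basis.mk h1 h2
  have h3 : Module.finrank E Q = Module.finrank (coinv ρ) L := by
    rw [← Module.finrank_baseChange (R := L) (M' := Q), Module.finrank_eq_card_basis eT,
      Fintype.card_fin]
  exact ⟨e, eT, Module.finBasisOfFinrankEq E Q h3, fun i => by simp [eT]⟩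

end

section chart

variable {k E L : Type u} [Field k] [Field E] [Field L] [Algebra k E] [Algebra k L]
  [Algebra E L] [IsScalarTower k E L] {Q : Type u} [CommRing Q] [HopfAlgebra E Q]
  [Module.Finite E Q]

/-- The relation of the action of `Spec Q` on the chart `Spec B` is extended from the base. -/
def IsConst (ρ : L →ₐ[E] L ⊗[E] Q) (B : Subalgebra k L) : Prop :=
  ∃ V : Set Q, Submodule.span E V = ⊤ ∧
    Submodule.span B (ρ '' (B : Set L)) = Submodule.span B ((fun v => (1 : L) ⊗ₜ[E] v) '' V)

theorem span_range_of_const {ρ : L →ₐ[E] L ⊗[E] Q} {B : Subalgebra k L} (h : IsConst ρ B) :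
    Submodule.span L (Set.range ρ) = ⊤ := by
  obtain ⟨V, hV, hB⟩ := h
  have h1 : ∀ v ∈ V, (1 : L) ⊗ₜ[E] v ∈ Submodule.span L (Set.range ρ) := by
    intro v hv
    have h2 : (1 : L) ⊗ₜ[E] v ∈ Submodule.span B (ρ '' (B : Set L)) := by
      rw [hB]
      exact Submodule.subset_span ⟨v, hv, rfl⟩
    have h3 := Submodule.span_subset_span B L _ h2
    exact Submodule.span_mono (Set.image_subset_range _ _) h3
  have h2 : ∀ q : Q, (1 : L) ⊗ₜ[E] q ∈ Submodule.span L (Set.range ρ) := by
    intro q
    have h3 : q ∈ Submodule.span E V := by rw [hV]; trivial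
    induction h3 using Submodule.span_induction with
    | mem x hx => exact h1 x hx
    | zero => rw [TensorProduct.tmul_zero]; exact Submodule.zero_mem _
    | add x y _ _ hx hy => rw [TensorProduct.tmul_add]; exact Submodule.add_mem _ hx hy
    | smul c x _ hx =>
      have h4 : (1 : L) ⊗ₜ[E] (c • x) = (algebraMap E L c) • ((1 : L) ⊗ₜ[E] x) := by
        rw [TensorProduct.tmul_smul, algebraMap_smul]
      rw [h4]
      exact Submodule.smul_mem _ _ hx
  rw [eq_top_iff]
  intro u _
  induction u using TensorProduct.induction_on with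
  | zero => exact Submodule.zero_mem _
  | tmul x q =>
    have h3 : x ⊗ₜ[E] q = x • ((1 : L) ⊗ₜ[E] q) := by
      rw [TensorProduct.smul_tmul', smul_eq_mul, mul_one]
    rw [h3]
    exact Submodule.smul_mem _ _ (h2 q)
  | add u v hu hv => exact Submodule.add_mem _ (hu trivial) (hv trivial)

end chart

end Pool.Agent.Q40.FC
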