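import Pool.Agent.Q40.FC.Hopf2

/-! Actions of group schemes given by the operators of the dual algebra. -/

set_option autoImplicit false
set_option linter.unusedSectionVars false

universe u

open Finset TensorProduct

namespace Pool.Agent.Q40.FC

section

variable {E M Q : Type*} [Field E] [AddCommGroup M] [Module E M] [AddCommGroup Q] [Module E Q]

/-- Functionals separate the elements of a tensor product. -/
theorem eq_zero_of_ev {u : M ⊗[E] Q}
    (h : ∀ φ : Q →ₗ[E] E, TensorProduct.rid E M (TensorProduct.map LinearMap.id φ u) = 0) :
    u = 0 := by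
  classical
  let β := Module.Basis.ofVectorSpace E Q
  have h1 : ∀ (u : M ⊗[E] Q) j, TensorProduct.equivFinsuppOfBasisRight β u j =
      TensorProduct.rid E M (TensorProduct.map LinearMap.id (β.coord j) u) := by
    intro u j
    induction u using TensorProduct.induction_on with
    | zero => simp only [map_zero, Finsupp.coe_zero, Pi.zero_apply]
    | tmul x q =>
      rw [TensorProduct.map_tmul, TensorProduct.rid_tmul, LinearMap.id_apply,
        TensorProduct.equivFinsuppOfBasisRight_apply_tmul_apply, Module.Basis.coord_apply]
    | add u v hu hv => rw [map_add, Finsupp.add_apply, map_add, map_add, hu, hv]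
  apply (TensorProduct.equivFinsuppOfBasisRight β).injective
  rw [map_zero]
  ext j
  rw [h1, h]
  rfl

end

section

variable {E L Q : Type*} [Field E] [Field L] [Algebra E L] [CommRing Q] [HopfAlgebra E Q]

theorem isCoaction_of_ops (ρ : L →ₐ[E] L ⊗[E] Q)
    (h1 : ∀ (φ ψ : Q →ₗ[E] E) (x : L), evl φ (ρ (evl ψ (ρ x))) =
      evl ((LinearMap.mul' E E ∘ₗ TensorProduct.map φ ψ) ∘ₗ Coalgebra.comul) (ρ x))
    (h2 : ∀ x : L, evl (Coalgebra.counit (R := E) (A := Q)) (ρ x) = x) : IsCoaction ρ := by
  constructor
  · intro x
    rw [← sub_eq_zero]
    apply eq_zero_of_ev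
    intro ψ
    apply eq_zero_of_ev
    intro φ
    rw [map_sub, map_sub, map_sub, map_sub, sub_eq_zero]
    have e1 : ∀ w : L ⊗[E] Q, TensorProduct.rid E L (TensorProduct.map LinearMap.id φ
        (TensorProduct.rid E (L ⊗[E] Q) (TensorProduct.map LinearMap.id ψ
          (TensorProduct.map ρ.toLinearMap LinearMap.id w)))) = evl φ (ρ (evl ψ w)) := by
      intro w
      induction w using TensorProduct.induction_on with
      | zero => simp only [map_zero]
      | tmul x q =>
        rw [TensorProduct.map_tmul, TensorProduct.map_tmul, TensorProduct.rid_tmul, evl_tmul,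
          map_smul, map_smul, map_smul, map_smul]
        rfl
      | add u v hu hv => simp only [map_add, hu, hv]
    have e2 : ∀ (x : L) (t : Q ⊗[E] Q), TensorProduct.rid E L (TensorProduct.map LinearMap.id φ
        (TensorProduct.rid E (L ⊗[E] Q) (TensorProduct.map LinearMap.id ψ
          ((TensorProduct.assoc E L Q Q).symm (x ⊗ₜ[E] t))))) =
        ((LinearMap.mul' E E ∘ₗ TensorProduct.map φ ψ) t) • x := by
      intro x t
      induction t using TensorProduct.induction_on with
      | zero => simp only [TensorProduct.tmul_zero, map_zero, zero_smul]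
      | tmul p q =>
        rw [TensorProduct.assoc_symm_tmul, TensorProduct.map_tmul, TensorProduct.rid_tmul,
          map_smul, LinearMap.id_apply, map_smul, TensorProduct.map_tmul, TensorProduct.rid_tmul,
          LinearMap.comp_apply, TensorProduct.map_tmul, LinearMap.mul'_apply, LinearMap.id_apply,
          smul_smul, mul_comm]
      | add u v hu hv => simp only [TensorProduct.tmul_add, map_add, hu, hv, add_smul]
    have e3 : ∀ w : L ⊗[E] Q, TensorProduct.rid E L (TensorProduct.map LinearMap.id φ
        (TensorProduct.rid E (L ⊗[E] Q) (TensorProduct.map LinearMap.id ψ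
          ((TensorProduct.assoc E L Q Q).symm
            (TensorProduct.map LinearMap.id (Coalgebra.comul (R := E)) w))))) =
        evl ((LinearMap.mul' E E ∘ₗ TensorProduct.map φ ψ) ∘ₗ Coalgebra.comul) w := by
      intro w
      induction w using TensorProduct.induction_on with
      | zero => simp only [map_zero]
      | tmul x q =>
        rw [TensorProduct.map_tmul, LinearMap.id_apply, e2, evl_tmul]
        rfl
      | add u v hu hv => simp only [map_add, hu, hv]
    rw [e1, e3, h1]
  · intro x
    apply (TensorProduct.rid E L).injective
    rw [TensorProduct.rid_tmul, one_smul]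
    exact h2 x

end

end Pool.Agent.Q40.FC
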