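import Pool.Agent.Q40.FC.Sub
import Pool.Agent.Q40.FC.Ops

/-! Local uniformization of finite quotients of smooth families whose relation is extended from the
base. -/

set_option autoImplicit false
set_option linter.unusedSectionVars false

universe u

open Finset TensorProduct

namespace Pool.Agent.Q40.FC

open Pool.Agent.W558 Pool.Agent.H920R2 Pool.Agent.Q40.RS Pool.Agent.Q40.FF Pool.Agent.W418.LCI

section smooth

variable {k E L : Type} [Field k] [PerfectField k] [Field E] [Field L] [Algebra k E] [Algebra k L]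
  [Algebra E L] [IsScalarTower k E L]

/-- The quotient is smooth where the discriminant ideal is principal. -/
theorem smooth_of_disc (p : ℕ) [Fact p.Prime] [CharP k p] (F : IntermediateField E L)
    [FiniteDimensional F L] (A R : Subalgebra k E) (hRA : R ≤ A)
    (hR : ∀ x : E, ∃ a ∈ R, ∃ b ∈ R, b ≠ 0 ∧ x = a * b⁻¹) (hA : Algebra.Smooth k A)
    (B : Subalgebra k L) (ρ : R →+* B) (hρ : ∀ r : R, (ρ r : L) = algebraMap E L r)
    (hρs : ρ.Smooth) (hfr : ∀ x : L, ∃ a ∈ B, ∃ b ∈ B, b ≠ 0 ∧ x = a * b⁻¹)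
    (hint : ∀ x ∈ B, IsIntegral (infM B F) x) {ι : Type*} [Fintype ι] [DecidableEq ι]
    (e : Module.Basis ι F L) (lam : L) (hlam : lam ≠ 0) (δ : (ι → B) → B)
    (hδ : ∀ c : ι → B, (e.det (fun i => (c i : L)) : L) = lam * δ c) (I : Ideal R)
    (hI : Ideal.span (Set.range δ) = I.map ρ) (S : Finset R) (hS : Ideal.span (S : Set R) = I)
    (f : R) (hf : f ∈ S) (hf0 : f ≠ 0) (hdiv : ∀ x ∈ S, (x : E) / (f : E) ∈ A) :
    Algebra.Smooth k (infM (mulA A B) F) := by
  classical
  have hf0' : (f : E) ≠ 0 := fun h => hf0 (Subtype.ext h)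
  have hfL : algebraMap E L f ≠ 0 := (map_ne_zero _).2 hf0'
  have hEF : ∀ x : E, algebraMap E L x ∈ F := fun x => F.algebraMap_mem x
  have hdivB : ∀ b ∈ I.map ρ, (b : L) / algebraMap E L f ∈ mulA A B := by
    intro b hb
    rw [← hS, Ideal.map_span] at hb
    induction hb using Submodule.span_induction with
    | mem x hx =>
      obtain ⟨x, hx, rfl⟩ := hx
      rw [hρ, ← map_div₀]
      exact le_mulA _ (hdiv x hx)
    | zero =>
      rw [ZeroMemClass.coe_zero, zero_div]
      exact Subalgebra.zero_mem _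
    | add x y _ _ hx hy =>
      rw [Subalgebra.coe_add, add_div]
      exact Subalgebra.add_mem _ hx hy
    | smul c x _ hx =>
      rw [smul_eq_mul, Subalgebra.coe_mul, mul_div_assoc]
      exact Subalgebra.mul_mem _ (le_mulA' _ c.2) hx
  have hBsm : Algebra.Smooth k (mulA A B) := smooth_mulA A R hRA hR hA B ρ hρ hρs
  have hint' : ∀ x ∈ mulA A B, IsIntegral (infM (mulA A B) F) x := by
    refine int_chart F A B (B : Set L) (Algebra.adjoin_eq B).symm ?_
    intro x hx
    obtain ⟨P, hP, hPx⟩ := hint x hx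
    have hle : infM B F ≤ infM (mulA A B) F := fun y hy => ⟨le_mulA' _ hy.1, hy.2⟩
    refine ⟨P.map (Subalgebra.inclusion hle).toRingHom, hP.map _, ?_⟩
    rw [Polynomial.eval₂_map]
    exact hPx
  have hfrac : ∀ x : L, ∃ a ∈ mulA A B, ∃ b ∈ mulA A B, b ≠ 0 ∧ x = a * b⁻¹ := by
    intro x
    obtain ⟨b, hb, c, hc, hc0, h⟩ := hfr x
    exact ⟨b, le_mulA' _ hb, c, le_mulA' _ hc, hc0, h⟩
  have hμ : lam * algebraMap E L f ≠ 0 := mul_ne_zero hlam hfL
  have hdet : ∀ c : ι → L, (∀ i, c i ∈ mulA A B) →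
      (e.det c : L) / (lam * algebraMap E L f) ∈ mulA A B := by
    intro c hc
    refine det_div F e A B _ ?_ c hc
    intro c hc
    have h2 : (e.det c : L) = lam * δ (fun i => ⟨c i, hc i⟩) := hδ (fun i => ⟨c i, hc i⟩)
    rw [h2, mul_div_mul_left _ _ hlam]
    apply hdivB
    rw [← hI]
    exact Ideal.subset_span ⟨_, rfl⟩
  have hex : ∀ c : ι → mulA A B, ∃ y : mulA A B,
      ((e.det fun i => ((c i : mulA A B) : L) : F) : L) = (lam * algebraMap E L f) * y := by
    intro c
    exact ⟨⟨_, hdet (fun i => (c i : L)) fun i => (c i).2⟩, (mul_div_cancel₀ _ hμ).symm⟩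
  choose s' hs' using hex
  refine smooth_infM p F (mulA A B) hfrac hint' e _ hμ s' hs' ?_
  have h1 : ρ f ∈ Ideal.span (Set.range δ) := by
    rw [hI]
    refine Ideal.mem_map_of_mem _ ?_
    rw [← hS]
    exact Ideal.subset_span hf
  rw [Ideal.span, Finsupp.mem_span_range_iff_exists_finsupp] at h1
  obtain ⟨α, hα⟩ := h1
  rw [Ideal.eq_top_iff_one]
  let j' : B → mulA A B := fun b => ⟨b, le_mulA' _ b.2⟩
  have h2 : (1 : mulA A B) = α.sum fun c b => j' b * s' (fun i => j' (c i)) := by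
    apply Subtype.ext
    have h3 : ((α.sum fun c b => j' b * s' (fun i => j' (c i)) : mulA A B) : L) =
        ((α.sum fun c b => b • δ c : B) : L) / algebraMap E L f := by
      rw [Finsupp.sum, Finsupp.sum, AddSubmonoidClass.coe_finsetSum,
        AddSubmonoidClass.coe_finsetSum, Finset.sum_div]
      refine Finset.sum_congr rfl fun c _ => ?_
      have h4 := hs' (fun i => j' (c i))
      have h5 : ((e.det fun i => ((j' (c i) : mulA A B) : L) : F) : L) = lam * δ c := hδ c
      rw [h5, mul_assoc] at h4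
      have h6 := mul_left_cancel₀ hlam h4
      change (α c : L) * (s' fun i => j' (c i) : mulA A B) = _
      rw [smul_eq_mul, Subalgebra.coe_mul, h6, mul_div_assoc, mul_div_cancel_left₀ _ hfL]
    rw [h3, hα, hρ]
    exact (div_self hfL).symm
  rw [h2]
  refine Ideal.sum_mem _ fun c _ => ?_
  apply Ideal.mul_mem_left
  exact Ideal.subset_span ⟨_, rfl⟩

/-- The valuation ring `W` of `E` is uniformizable: every finite subset of `W` is contained in a
smooth algebra contained in `W`. -/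
def Unif (k : Type u) [Field k] {E : Type u} [Field E] [Algebra k E] (W : ValuationSubring E) :
    Prop :=
  ∀ Z : Finset E, (∀ z ∈ Z, z ∈ W) → ∃ A : Subalgebra k E, Algebra.Smooth k A ∧
    (∀ z ∈ Z, z ∈ A) ∧ ∀ a ∈ A, a ∈ W

theorem lu_disc (p : ℕ) [Fact p.Prime] [CharP k p] (F : IntermediateField E L)
    [FiniteDimensional F L] (R : Subalgebra k E) (hRfg : R.FG)
    (hR : ∀ x : E, ∃ a ∈ R, ∃ b ∈ R, b ≠ 0 ∧ x = a * b⁻¹)
    (B : Subalgebra k L) (ρ : R →+* B) (hρ : ∀ r : R, (ρ r : L) = algebraMap E L r)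
    (hρs : ρ.Smooth) (hfr : ∀ x : L, ∃ a ∈ B, ∃ b ∈ B, b ≠ 0 ∧ x = a * b⁻¹)
    (hint : ∀ x ∈ B, IsIntegral (infM B F) x) {ι : Type*} [Fintype ι] [DecidableEq ι]
    (e : Module.Basis ι F L) (lam : L) (hlam : lam ≠ 0) (δ : (ι → B) → B)
    (hδ : ∀ c : ι → B, (e.det (fun i => (c i : L)) : L) = lam * δ c) (I : Ideal R) (hI0 : I ≠ ⊥)
    (hI : Ideal.span (Set.range δ) = I.map ρ) (W : ValuationSubring L)
    (hW : ∀ x ∈ infM B F, x ∈ W) (hu : Unif k (W.comap (algebraMap E L))) :
    ∃ D : Subalgebra k L, Algebra.Smooth k D ∧ infM B F ≤ D ∧ (∀ x ∈ D, x ∈ W) ∧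
      ∀ x ∈ D, x ∈ F := by
  classical
  have hft : Algebra.FiniteType k R := (Subalgebra.fg_iff_finiteType _).1 hRfg
  have hnoe : IsNoetherianRing R := Algebra.FiniteType.isNoetherianRing k R
  obtain ⟨S0, hS0⟩ : I.FG := IsNoetherian.noetherian I
  let S : Finset R := S0.erase 0
  have hS : Ideal.span (S : Set R) = I := by
    rw [← hS0]
    apply le_antisymm
    · exact Ideal.span_mono (by exact_mod_cast Finset.erase_subset _ _)
    · refine Ideal.span_le.2 fun x hx => ?_
      by_cases h0 : x = 0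
      · rw [h0]; exact Ideal.zero_mem _
      · exact Ideal.subset_span (Finset.mem_coe.2 (Finset.mem_erase.2 ⟨h0, hx⟩))
  have hSne : S.Nonempty := by
    rw [Finset.nonempty_iff_ne_empty]
    intro h
    apply hI0
    rw [← hS, h]
    simp
  let U := W.comap (algebraMap E L)
  obtain ⟨f, hf, hmin⟩ := Finset.exists_max_image S (fun x : R => U.valuation (x : E)) hSne
  have hf0 : f ≠ 0 := (Finset.mem_erase.1 hf).1
  have hf0' : (f : E) ≠ 0 := fun h => hf0 (Subtype.ext h)
  have hvf : U.valuation (f : E) ≠ 0 := (map_ne_zero _).2 hf0'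
  have hdivU : ∀ x ∈ S, (x : E) / (f : E) ∈ U := by
    intro x hx
    rw [← U.valuation_le_one_iff, map_div₀]
    exact (div_le_one₀ (zero_lt_iff.2 hvf)).2 (hmin x hx)
  obtain ⟨G, hG⟩ := hRfg
  have hRU : ∀ x ∈ R, x ∈ U := by
    intro x hx
    have h1 : algebraMap E L x ∈ infM B F := by
      refine ⟨?_, F.algebraMap_mem x⟩
      rw [← hρ ⟨x, hx⟩]
      exact (ρ ⟨x, hx⟩).2
    exact hW _ h1
  obtain ⟨A, hA, hZA, hAU⟩ := hu (G ∪ S.image fun x : R => (x : E) / (f : E)) (by
    intro z hz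
    rcases Finset.mem_union.1 hz with hz | hz
    · exact hRU z (by rw [← hG]; exact Algebra.subset_adjoin hz)
    · obtain ⟨x, hx, rfl⟩ := Finset.mem_image.1 hz
      exact hdivU x hx)
  have hRA : R ≤ A := by
    rw [← hG]
    exact Algebra.adjoin_le fun z hz => hZA z (Finset.mem_union_left _ hz)
  have hdiv : ∀ x ∈ S, (x : E) / (f : E) ∈ A := fun x hx =>
    hZA _ (Finset.mem_union_right _ (Finset.mem_image_of_mem _ hx))
  refine ⟨infM (mulA A B) F, smooth_of_disc p F A R hRA hR hA B ρ hρ hρs hfr hint e lam hlam δ hδ I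
    hI S hS f hf hf0 hdiv, fun x hx => ⟨le_mulA' _ hx.1, hx.2⟩, ?_, fun x hx => hx.2⟩
  have hBW : ∀ b ∈ B, b ∈ W := by
    intro b hb
    obtain ⟨P, hP, hPb⟩ := hint b hb
    let φ : infM B F →+* W :=
      { toFun := fun x => ⟨x.1, hW x.1 x.2⟩
        map_one' := rfl
        map_mul' := fun _ _ => rfl
        map_zero' := rfl
        map_add' := fun _ _ => rfl }
    have h2 : IsIntegral W b := by
      refine ⟨P.map φ, hP.map φ, ?_⟩
      rw [Polynomial.eval₂_map]
      exact hPb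
    obtain ⟨w, hw⟩ := IsIntegrallyClosed.isIntegral_iff.1 h2
    rw [← hw]
    exact w.2
  intro x hx
  refine mulA_induction (P := fun x => x ∈ W) ?_ (fun x y => W.add_mem x y) hx.1
  intro a ha b hb
  exact W.mul_mem _ _ (hAU a ha) (hBW b hb)

/-- All valuations are uniformizable if there are log smooth models. -/
theorem unif_of_LM {k E : Type} [Field k] [Field E] [Algebra k E] (hE : HasLM k E)
    (W : ValuationSubring E) (hW : ∀ c : k, algebraMap k E c ∈ W) : Unif k W := by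
  classical
  intro Z hZ
  let Z' := insert (1 : E) (Z.erase 0)
  have hZ'0 : ∀ z ∈ Z', z ≠ 0 := by
    intro z hz
    rcases Finset.mem_insert.1 hz with rfl | hz
    · exact one_ne_zero
    · exact (Finset.mem_erase.1 hz).1
  obtain ⟨T, I, hT, hI, M, hM⟩ := exists_cmp_proj hE {z // z ∈ Z'} (fun z => (z : E))
    (fun z => hZ'0 z z.2)
  obtain ⟨t, ht⟩ := M.cv W (by
    intro x hx
    obtain ⟨c, rfl⟩ := Algebra.mem_bot.1 hx
    exact hW c)
  let o : {z // z ∈ Z'} := ⟨1, Finset.mem_insert_self _ _⟩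
  -- adjoin the inverses
  have key : ∀ Y : Finset E, (∀ y ∈ Y, y ∈ W ∧ y ≠ 0 ∧ (y ∈ M.A t ∨ y⁻¹ ∈ M.A t)) →
      ∃ A : Subalgebra k E, Algebra.Smooth k A ∧ M.A t ≤ A ∧ (∀ y ∈ Y, y ∈ A) ∧
        ∀ a ∈ A, a ∈ W := by
    intro Y
    induction Y using Finset.induction with
    | empty => exact fun _ => ⟨M.A t, M.sm t, le_rfl, by simp, ht⟩
    | insert y Y hy ih =>
      intro hY
      obtain ⟨A, hA1, hA2, hA3, hA4⟩ := ih fun z hz => hY z (Finset.mem_insert_of_mem hz)
      obtain ⟨h1, h2, h3 | h3⟩ := hY y (Finset.mem_insert_self _ _)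
      · refine ⟨A, hA1, hA2, fun z hz => ?_, hA4⟩
        rcases Finset.mem_insert.1 hz with rfl | hz
        · exact hA2 h3
        · exact hA3 z hz
      · have h4 := smooth_adj_inv (A := A) (hA2 h3) (inv_ne_zero h2)
        rw [inv_inv] at h4
        refine ⟨adj A y, h4, fun z hz => le_adj _ _ (hA2 hz), fun z hz => ?_, fun a ha => ?_⟩
        · rcases Finset.mem_insert.1 hz with rfl | hz
          · exact self_mem_adj _ _
          · exact le_adj _ _ (hA3 z hz)
        · rw [show adj A y = adj A (y⁻¹)⁻¹ by rw [inv_inv],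
            mem_adj_inv (hA2 h3) (inv_ne_zero h2)] at ha
          obtain ⟨n, hn⟩ := ha
          have h5 : a = a * (y⁻¹) ^ n * y ^ n := by
            rw [mul_assoc, ← mul_pow, inv_mul_cancel₀ h2, one_pow, mul_one]
          rw [h5]
          exact W.mul_mem _ _ (hA4 _ hn) (pow_mem h1 n)
  obtain ⟨A, hA1, -, hA3, hA4⟩ := key (Z.erase 0) (by
    intro y hy
    obtain ⟨hy0, hyZ⟩ := Finset.mem_erase.1 hy
    refine ⟨hZ y hyZ, hy0, ?_⟩
    rcases hM t ⟨y, Finset.mem_insert_of_mem hy⟩ o with h | h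
    · left
      have h' : y / 1 ∈ M.A t := h
      rwa [div_one] at h'
    · right
      have h' : 1 / y ∈ M.A t := h
      rwa [one_div] at h')
  refine ⟨A, hA1, fun z hz => ?_, hA4⟩
  by_cases h0 : z = 0
  · rw [h0]; exact A.zero_mem
  · exact hA3 z (Finset.mem_erase.2 ⟨h0, hz⟩)

end smooth

end Pool.Agent.Q40.FC
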