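import Pool.Agent.Q40.FC.LU
import Pool.Agent.H519R3.RS.LUS

/-! Local uniformization of local rings of finite quotients. -/

set_option autoImplicit false
set_option linter.unusedSectionVars false

universe u

open Finset TensorProduct

namespace Pool.Agent.Q40.FC

open Pool.Agent.W558 Pool.Agent.H920R2 Pool.Agent.Q40.RS Pool.Agent.Q40.FF Pool.Agent.W418.LCI

/-- Extension of valuations. -/
theorem exists_ext_valuation' {K L : Type*} [Field K] [Field L] (φ : K →+* L)
    (V : ValuationSubring K) : ∃ W : ValuationSubring L, ∀ x : K, φ x ∈ W ↔ x ∈ V := by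
  obtain ⟨W, h, hW⟩ := IsLocalRing.exists_factor_valuationRing (φ.comp (algebraMap V K))
  refine ⟨W, fun x => ⟨fun hx => ?_, fun hx => h ⟨x, hx⟩⟩⟩
  by_contra hxV
  have hx0 : x ≠ 0 := fun h0 => hxV (h0 ▸ V.zero_mem)
  have h1 : x⁻¹ ∈ V := (V.mem_or_inv_mem x).resolve_left hxV
  let y : V := ⟨x⁻¹, h1⟩
  have h2 : IsUnit (((φ.comp (algebraMap V K)).codRestrict W.toSubring h) y) := by
    refine isUnit_iff_exists_inv.2 ⟨⟨φ x, hx⟩, ?_⟩
    apply Subtype.ext
    change φ x⁻¹ * φ x = 1
    rw [← map_mul, inv_mul_cancel₀ hx0, map_one]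
  have h3 : IsUnit y := hW.map_nonunit _ h2
  obtain ⟨z, hz⟩ := isUnit_iff_exists_inv.1 h3
  have h4 : x⁻¹ * (z : K) = 1 := congrArg Subtype.val hz
  have h5 : (z : K) = x := by
    have := congrArg (fun w => x * w) h4
    rw [← mul_assoc, mul_inv_cancel₀ hx0, one_mul, mul_one] at this
    exact this
  exact hxV (h5 ▸ z.2)

/-- From the valuations of `L` to the local rings of `Spec A`. -/
theorem admitsLU_of_lu {k A L : Type} [Field k] [CommRing A] [IsDomain A] [Algebra k A] [Field L]
    [Algebra k L] (g : A →ₐ[k] L) (hinj : Function.Injective g)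
    (h : ∀ W : ValuationSubring L, (∀ a, g a ∈ W) → ∃ D : Subalgebra k L, Algebra.Smooth k D ∧
      (∀ a, g a ∈ D) ∧ (∀ x ∈ D, x ∈ W) ∧ ∀ x ∈ D, ∃ a b, g b ≠ 0 ∧ x = g a / g b)
    (P : Ideal A) [P.IsPrime] (R : Type) [CommRing R] [IsLocalRing R] [Algebra A R]
    [IsLocalization.AtPrime R P] : Pool.Agent.H519R3.RS.AdmitsLU R := by
  intro K _ _ _ V hV hVm
  have e1 : Function.Injective (algebraMap A R) :=
    IsLocalization.injective R P.primeCompl_le_nonZeroDivisors
  have e2 : Function.Injective (algebraMap R K) := IsFractionRing.injective R K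
  let g0 : A →+* K := (algebraMap R K).comp (algebraMap A R)
  have hg0 : Function.Injective g0 := e2.comp e1
  let _ : Algebra k K := (g0.comp (algebraMap k A)).toAlgebra
  let gK : A →ₐ[k] K := { g0 with commutes' := fun r => rfl }
  have hgK : ∀ a, gK a = g0 a := fun a => rfl
  let _ : Algebra A K := g0.toAlgebra
  have t1 : IsScalarTower A R K := IsScalarTower.of_algebraMap_eq fun x => rfl
  have hfs : FaithfulSMul A K := (faithfulSMul_iff_algebraMap_injective A K).2 hg0
  have hfrac : IsFractionRing A K := by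
    refine IsFractionRing.of_field A K fun z => ?_
    obtain ⟨r, s, hs, rfl⟩ := IsFractionRing.div_surjective (A := R) z
    obtain ⟨⟨a, u⟩, ha⟩ := IsLocalization.surj P.primeCompl r
    obtain ⟨⟨b, v⟩, hb⟩ := IsLocalization.surj P.primeCompl s
    have ha' : r * algebraMap A R u = algebraMap A R a := ha
    have hb' : s * algebraMap A R v = algebraMap A R b := hb
    have hu0 : g0 u ≠ 0 := by
      intro h0
      have : (u : A) = 0 := hg0 (by rw [h0, map_zero])
      exact u.2 (this ▸ P.zero_mem)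
    have hv0 : g0 v ≠ 0 := by
      intro h0
      have : (v : A) = 0 := hg0 (by rw [h0, map_zero])
      exact v.2 (this ▸ P.zero_mem)
    have hs0 : algebraMap R K s ≠ 0 := IsFractionRing.to_map_ne_zero_of_mem_nonZeroDivisors hs
    have ha2 : algebraMap R K r * g0 u = g0 a := by
      have h1 := congrArg (algebraMap R K) ha'
      rw [map_mul] at h1
      exact h1
    have hb2 : algebraMap R K s * g0 v = g0 b := by
      have h1 := congrArg (algebraMap R K) hb'
      rw [map_mul] at h1
      exact h1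
    refine ⟨a * v, b * u, ?_⟩
    change _ = g0 (a * v) / g0 (b * u)
    rw [map_mul, map_mul, ← ha2, ← hb2]
    field_simp
  let φ : K →+* L := IsFractionRing.lift (A := A) (g := (g : A →+* L)) hinj
  have hφ : ∀ a, φ (g0 a) = g a := fun a => IsFractionRing.lift_algebraMap hinj a
  have hφk : ∀ c : k, φ (algebraMap k K c) = algebraMap k L c := by
    intro c
    have h1 : algebraMap k K c = g0 (algebraMap k A c) := rfl
    rw [h1, hφ, AlgHom.commutes]
  let φk : K →ₐ[k] L := { φ with commutes' := hφk }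
  obtain ⟨W, hW⟩ := exists_ext_valuation' φ V
  obtain ⟨D, hD1, hD2, hD3, hD4⟩ := h W (fun a => by
    rw [← hφ, hW]
    exact hV _)
  let DK := D.comap φk
  let ee : DK ≃ₐ[k] D := AlgEquiv.ofBijective
    ({ toFun := fun x => ⟨φk x.1, x.2⟩
       map_one' := Subtype.ext (map_one φk)
       map_mul' := fun _ _ => Subtype.ext (map_mul φk _ _)
       map_zero' := Subtype.ext (map_zero φk)
       map_add' := fun _ _ => Subtype.ext (map_add φk _ _)
       commutes' := fun c => Subtype.ext (hφk c) } : DK →ₐ[k] D)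
    ⟨fun x y hxy => Subtype.ext (φ.injective (congrArg Subtype.val hxy)), fun y => by
      obtain ⟨a, b, hb, hab⟩ := hD4 y y.2
      have h1 : φ (g0 a / g0 b) = y := by rw [map_div₀, hφ, hφ, hab]
      refine ⟨⟨g0 a / g0 b, ?_⟩, Subtype.ext h1⟩
      change φ (g0 a / g0 b) ∈ D
      rw [h1]
      exact y.2⟩
  have hDK : Algebra.Smooth k DK := Algebra.Smooth.of_equiv ee.symm
  refine Pool.Agent.H519R3.RS.lu_local (R := R) P gK (fun a => rfl) V hV ?_ DK hDK ?_ ?_
  · intro a ha hlt
    have h3 := (hVm (algebraMap A R a)).2 hlt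
    exact h3 (IsLocalization.map_units R (⟨a, ha⟩ : P.primeCompl))
  · intro a
    change φ (g0 a) ∈ D
    rw [hφ]
    exact hD2 a
  · intro x hx
    rw [← hW]
    exact hD3 _ hx

section setup

variable {k R B E L : Type} [Field k] [PerfectField k] [CommRing R] [IsDomain R] [Algebra k R]
  [CommRing B] [IsDomain B] [Algebra k B] [Algebra R B] [IsScalarTower k R B] [Field E]
  [Algebra k E] [Algebra R E] [IsScalarTower k R E] [IsFractionRing R E] [Field L] [Algebra k L]
  [Algebra B L] [IsScalarTower k B L] [Algebra R L] [IsScalarTower R B L] [Algebra E L]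
  [IsScalarTower R E L] [IsScalarTower k E L] [IsFractionRing B L]

/-- Integrality over `B ∩ F`. -/
theorem int_img (F : IntermediateField E L) (hint : ∀ b : B, IsIntegral (cF k B F) b) :
    ∀ x ∈ img k B L, IsIntegral (infM (img k B L) F) x := by
  rintro _ ⟨b, rfl⟩
  obtain ⟨P, hP, hPb⟩ := hint b
  let φ : cF k B F →+* infM (img k B L) F :=
    { toFun := fun x => ⟨algebraMap B L x.1, ⟨x.1, rfl⟩, x.2⟩
      map_one' := Subtype.ext (map_one (algebraMap B L))
      map_mul' := fun x y => Subtype.ext (map_mul (algebraMap B L) _ _)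
      map_zero' := Subtype.ext (map_zero (algebraMap B L))
      map_add' := fun x y => Subtype.ext (map_add (algebraMap B L) _ _) }
  refine ⟨P.map φ, hP.map φ, ?_⟩
  rw [Polynomial.eval₂_map]
  have h1 : (algebraMap (infM (img k B L) F) L).comp φ =
      (algebraMap B L).comp (algebraMap (cF k B F) B) := rfl
  have h2 : Polynomial.eval₂ ((algebraMap (infM (img k B L) F) L).comp φ)
      (algebraMap B L b) P = 0 := by
    rw [h1, ← Polynomial.hom_eval₂, hPb, map_zero]
  exact h2

theorem img_frac_B (x : L) : ∃ a ∈ img k B L, ∃ b ∈ img k B L, b ≠ 0 ∧ x = a * b⁻¹ := by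
  obtain ⟨a, b, hb, rfl⟩ := IsFractionRing.div_surjective (A := B) x
  exact ⟨_, ⟨a, rfl⟩, _, ⟨b, rfl⟩, IsFractionRing.to_map_ne_zero_of_mem_nonZeroDivisors hb,
    div_eq_mul_inv _ _⟩

/-- Local uniformization along valuations whose restriction to the base is uniformizable. -/
theorem lu_frame (p : ℕ) [Fact p.Prime] [CharP k p] [Algebra.FiniteType k R] [Algebra.Smooth R B]
    (F : IntermediateField E L) (hint : ∀ b : B, IsIntegral (cF k B F) b)
    {ι : Type} [Fintype ι] [DecidableEq ι] (e : Module.Basis ι F L)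
    {T : Type} [CommRing T] [Algebra L T] [Algebra E T] [IsScalarTower E L T] (σ : L →+* T)
    (hσ : ∀ x ∈ F, σ x = algebraMap L T x) (eT : Module.Basis ι L T) (heT : ∀ i, eT i = σ (e i))
    (V : Set T)
    (hV : Submodule.span (img k B L) (σ '' (img k B L : Set L)) =
      Submodule.span (img k B L) V) (w : ι → T)
    (hw : ∀ v ∈ V, v ∈ Submodule.span E (Set.range w)) (W : ValuationSubring L)
    (hW : ∀ b : cF k B F, algebraMap B L b ∈ W) (hu : Unif k (W.comap (algebraMap E L))) :
    ∃ D : Subalgebra k L, Algebra.Smooth k D ∧ (∀ b : cF k B F, algebraMap B L b ∈ D) ∧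
      (∀ x ∈ D, x ∈ W) ∧ ∀ x ∈ D, x ∈ F := by
  have hfd : FiniteDimensional F L := Module.Finite.of_basis e
  have hBL : Function.Injective (algebraMap B L) := IsFractionRing.injective B L
  obtain ⟨ρ, hρ, hρs⟩ := exists_rho (k := k) (R := R) (B := B) (E := E) (L := L) hBL
  have hftB : Algebra.FiniteType k B := Algebra.FiniteType.trans (S := R) inferInstance
    inferInstance
  have hft : Algebra.FiniteType k (img k B L) :=
    Algebra.FiniteType.equiv hftB (AlgEquiv.ofInjective (IsScalarTower.toAlgHom k B L) hBL)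
  obtain ⟨lam, δ, I, hlam, hI0, hδ, hI⟩ := disc_of_frame F e σ hσ eT heT (img k R E) img_frac
    (img k B L) img_frac_B (int_img F hint) ρ hρ V hV w hw
  have hC : infM (img k B L) F ≤ (cF k B F).map (IsScalarTower.toAlgHom k B L) := by
    rintro _ ⟨⟨b, rfl⟩, hb⟩
    exact ⟨b, hb, rfl⟩
  obtain ⟨D, hD1, hD2, hD3, hD4⟩ := lu_disc p F (img k R E) img_fg img_frac (img k B L) ρ hρ hρs
    img_frac_B (int_img F hint) e lam hlam δ hδ I hI0 hI W (by
      rintro _ ⟨⟨b, rfl⟩, hb⟩
      exact hW ⟨b, hb⟩) hu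
  exact ⟨D, hD1, fun b => hD2 ⟨⟨b.1, rfl⟩, b.2⟩, hD3, hD4⟩

end setup

end Pool.Agent.Q40.FC
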