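import Pool.Agent.Q40.FC.Ga

/-! The field generated by the invariant linear forms. -/

set_option autoImplicit false
set_option linter.unusedSectionVars false

universe u

open Finset

namespace Pool.Agent.Q40.FC

open Pool.Agent.W558 Pool.Agent.Q40.RS Pool.Agent.Q40.FF Pool.Agent.W418.Lin

section trdeg

variable {E K : Type u} [Field E] [Field K] [Algebra E K]

lemma isAlgebraic_of_adjoin {S : Set K} (h : IntermediateField.adjoin E S = ⊤) :
    Algebra.IsAlgebraic (Algebra.adjoin E S) K := by
  rw [← IntermediateField.isAlgebraic_adjoin_iff_top, h]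
  infer_instance

lemma trdeg_le_of_adjoin {S : Set K} (h : IntermediateField.adjoin E S = ⊤) :
    Algebra.trdeg E K ≤ Cardinal.mk S := by
  have := isAlgebraic_of_adjoin h
  exact Algebra.IsAlgebraic.trdeg_le_cardinalMk E S

end trdeg

section fld

variable {k R E L : Type u} [Field k] [CommRing R] [IsDomain R] [Algebra k R] [Field E]
  [Algebra k E] [Algebra R E] [IsScalarTower k R E] [IsFractionRing R E] {n : ℕ}
  [Field L] [Algebra k L] [Algebra (MvPolynomial (Fin n) R) L]
  [IsScalarTower k (MvPolynomial (Fin n) R) L] [IsFractionRing (MvPolynomial (Fin n) R) L]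
  [Algebra R L]
  [IsScalarTower R (MvPolynomial (Fin n) R) L] [Algebra E L] [IsScalarTower R E L]
  [IsScalarTower k E L]


/-- The coordinates. -/
noncomputable def xx (R : Type u) [CommRing R] {n : ℕ} (L : Type u) [Field L]
    [Algebra (MvPolynomial (Fin n) R) L] (j : Fin n) : L :=
  algebraMap (MvPolynomial (Fin n) R) L (MvPolynomial.X j)

lemma top_of_mem (F : IntermediateField E L) (h : ∀ j : Fin n, xx R L j ∈ F) : F = ⊤ := by
  have h1 : ∀ b : (MvPolynomial (Fin n) R), algebraMap (MvPolynomial (Fin n) R) L b ∈ F := by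
    intro b
    induction b using MvPolynomial.induction_on with
    | C a =>
      have : algebraMap (MvPolynomial (Fin n) R) L (MvPolynomial.C a) = algebraMap E L (algebraMap R E a) := by
        rw [← IsScalarTower.algebraMap_apply R E L, IsScalarTower.algebraMap_apply R (MvPolynomial (Fin n) R) L]
        rfl
      rw [this]
      exact F.algebraMap_mem _
    | add a b ha hb => rw [map_add]; exact F.add_mem ha hb
    | mul_X a j ha => rw [map_mul]; exact F.mul_mem ha (h j)
  rw [eq_top_iff]
  intro z _
  obtain ⟨a, b, hb, rfl⟩ := IsFractionRing.div_surjective (A := (MvPolynomial (Fin n) R)) z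
  exact F.div_mem (h1 a) (h1 b)

lemma trdeg_L (R E L : Type u) [CommRing R] [IsDomain R] [Field E]
    [Algebra R E] [IsFractionRing R E] (n : ℕ)
    [Field L] [Algebra (MvPolynomial (Fin n) R) L]
    [IsFractionRing (MvPolynomial (Fin n) R) L]
    [Algebra R L]
    [IsScalarTower R (MvPolynomial (Fin n) R) L] [Algebra E L] [IsScalarTower R E L] :
    Algebra.trdeg E L = n := by
  have hBL : Function.Injective (algebraMap (MvPolynomial (Fin n) R) L) :=
    IsFractionRing.injective (MvPolynomial (Fin n) R) L
  have hRE : Function.Injective (algebraMap R E) := IsFractionRing.injective R E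
  have f1 : FaithfulSMul R (MvPolynomial (Fin n) R) :=
    (faithfulSMul_iff_algebraMap_injective R (MvPolynomial (Fin n) R)).2
    (MvPolynomial.C_injective _ _)
  have f2 : FaithfulSMul (MvPolynomial (Fin n) R) L :=
    (faithfulSMul_iff_algebraMap_injective (MvPolynomial (Fin n) R) L).2 hBL
  have f3 : FaithfulSMul R E := (faithfulSMul_iff_algebraMap_injective R E).2 hRE
  have f4 : FaithfulSMul E L := (faithfulSMul_iff_algebraMap_injective E L).2
    (algebraMap E L).injective
  have h1 := trdeg_add_eq R E (A := L)
  have h2 := trdeg_add_eq R (MvPolynomial (Fin n) R) (A := L)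
  have a1 : Algebra.IsAlgebraic R E := IsLocalization.isAlgebraic E (nonZeroDivisors R)
  have a2 : Algebra.IsAlgebraic (MvPolynomial (Fin n) R) L :=
    IsLocalization.isAlgebraic L (nonZeroDivisors (MvPolynomial (Fin n) R))
  rw [trdeg_eq_zero_iff.2 a1, zero_add] at h1
  rw [trdeg_eq_zero_iff.2 a2, add_zero,
    MvPolynomial.trdeg_of_isDomain] at h2
  rw [h1, ← h2]
  simp

variable (R E L) in
/-- The coordinates are algebraically independent. -/
lemma xx_indep : AlgebraicIndependent E (xx R L (n := n)) := by
  have h1 : IntermediateField.adjoin E (Set.range (xx R L (n := n))) = ⊤ :=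
    top_of_mem (R := R) _ fun j => IntermediateField.subset_adjoin _ _ ⟨j, rfl⟩
  have := isAlgebraic_of_adjoin h1
  refine (Algebra.IsAlgebraic.isTranscendenceBasis_of_lift_le_trdeg_of_finite E _ ?_).1
  rw [trdeg_L R E L n]
  simp

variable (ℓ : Fin n → MvPolynomial (Fin n) R)

/-- The polynomials `ℓ j` in `L`. -/
noncomputable def lL (R : Type u) [CommRing R] {n : ℕ} (L : Type u) [Field L]
    [Algebra (MvPolynomial (Fin n) R) L] (ℓ : Fin n → MvPolynomial (Fin n) R) (j : Fin n) : L :=
  algebraMap (MvPolynomial (Fin n) R) L (ℓ j)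

/-- The affine linear forms. -/
noncomputable def phi (E R L : Type u) [Field E] [CommRing R] [Field L] {n : ℕ} [Algebra E L]
    [Algebra (MvPolynomial (Fin n) R) L] : ((Fin n → E) × E) →ₗ[E] L :=
  (Fintype.linearCombination E (xx R L (n := n))).coprod (LinearMap.toSpanSingleton E L 1)

lemma phi_apply (v : (Fin n → E) × E) :
    phi E R L v = ∑ j, v.1 j • xx R L j + v.2 • (1 : L) := by
  simp [phi, Fintype.linearCombination_apply]

lemma phi_injective : Function.Injective (phi E R L (n := n)) := by
  rw [injective_iff_map_eq_zero]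
  intro v hv
  rw [phi_apply] at hv
  let P : MvPolynomial (Fin n) E := ∑ j, MvPolynomial.C (v.1 j) * MvPolynomial.X j +
    MvPolynomial.C v.2
  have h1 : MvPolynomial.aeval (xx R L) P = 0 := by
    simp only [P, map_add, map_sum, map_mul, MvPolynomial.aeval_X, MvPolynomial.algHom_C]
    rw [← hv]
    simp [Algebra.smul_def]
  have h2 : P = 0 := by
    have h3 : Function.Injective (MvPolynomial.aeval (R := E) (xx R L (n := n))) :=
      xx_indep R E L
    apply h3
    rw [h1, map_zero]
  have h3 : v.2 = 0 := by
    have := congrArg MvPolynomial.constantCoeff h2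
    simpa [P] using this
  have h4 : ∀ j, v.1 j = 0 := by
    intro j
    have := congrArg (MvPolynomial.coeff (Finsupp.single j 1)) h2
    rw [MvPolynomial.coeff_zero, MvPolynomial.coeff_add, MvPolynomial.coeff_sum,
      Finset.sum_eq_single j] at this
    · rw [MvPolynomial.coeff_C_mul, MvPolynomial.coeff_X, if_pos rfl, MvPolynomial.coeff_C,
        if_neg, add_zero, mul_one] at this
      · exact this
      · intro h
        have := congrArg (fun f => f j) h
        simp at this
    · intro i _ hi
      rw [MvPolynomial.coeff_C_mul, MvPolynomial.coeff_X, if_neg, mul_zero]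
      intro h
      exact hi (Finsupp.single_left_injective one_ne_zero h)
    · intro h; exact absurd (Finset.mem_univ _) h
  exact Prod.ext (funext h4) h3

/-- The invariant affine forms over `E`. -/
noncomputable def WW (E L : Type u) [Field E] [Field L] [Algebra E L] {R : Type u} [CommRing R]
    {n : ℕ} [Algebra (MvPolynomial (Fin n) R) L] (ℓ : Fin n → MvPolynomial (Fin n) R) :
    Submodule E L :=
  (LinearMap.ker ((Fintype.linearCombination E (lL R L ℓ)).comp
    (LinearMap.fst E (Fin n → E) E))).map (phi E R L)

variable {ℓ}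

lemma mem_WW {w : L} : w ∈ WW E L ℓ ↔ ∃ (a : Fin n → E) (b : E),
    w = ∑ j, a j • xx R L j + b • (1 : L) ∧ ∑ j, a j • lL R L ℓ j = 0 := by
  constructor
  · rintro ⟨v, hv, rfl⟩
    refine ⟨v.1, v.2, phi_apply v, ?_⟩
    have h1 : (Fintype.linearCombination E (lL R L ℓ)) v.1 = 0 := hv
    rwa [Fintype.linearCombination_apply] at h1
  · rintro ⟨a, b, rfl, h⟩
    refine ⟨(a, b), ?_, phi_apply (a, b)⟩
    change (Fintype.linearCombination E (lL R L ℓ)) a = 0
    rwa [Fintype.linearCombination_apply]

variable (ℓ) in
lemma finrank_WW : Module.finrank E (WW E L ℓ) +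
    Module.finrank E (Submodule.span E (Set.range (lL R L ℓ))) = n + 1 := by
  have h1 := (Submodule.equivMapOfInjective (phi E R L (n := n)) phi_injective
    (LinearMap.ker ((Fintype.linearCombination E (lL R L ℓ)).comp
    (LinearMap.fst E (Fin n → E) E)))).finrank_eq
  have h2 := LinearMap.finrank_range_add_finrank_ker
    ((Fintype.linearCombination E (lL R L ℓ)).comp (LinearMap.fst E (Fin n → E) E))
  have h3 : LinearMap.range ((Fintype.linearCombination E (lL R L ℓ)).comp
      (LinearMap.fst E (Fin n → E) E)) = Submodule.span E (Set.range (lL R L ℓ)) := by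
    rw [LinearMap.range_comp, LinearMap.range_eq_top.2 LinearMap.fst_surjective,
      Submodule.map_top, Fintype.range_linearCombination]
  rw [h3] at h2
  have h4 : Module.finrank E ((Fin n → E) × E) = n + 1 := by simp
  rw [h4] at h2
  rw [WW, ← h1, add_comm]
  exact h2

lemma one_mem_WW : (1 : L) ∈ WW E L ℓ :=
  mem_WW.2 ⟨0, 1, by simp, by simp⟩

lemma form_mem_WW {w : MvPolynomial (Fin n) R} (h : IsInvForm ℓ w) :
    algebraMap (MvPolynomial (Fin n) R) L w ∈ WW E L ℓ := by
  obtain ⟨a, b, rfl, h1⟩ := h
  have hC : ∀ a : R, algebraMap (MvPolynomial (Fin n) R) L (MvPolynomial.C a) =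
      algebraMap E L (algebraMap R E a) := by
    intro a
    rw [← IsScalarTower.algebraMap_apply R E L,
      IsScalarTower.algebraMap_apply R (MvPolynomial (Fin n) R) L]
    rfl
  refine mem_WW.2 ⟨fun j => algebraMap R E (a j), algebraMap R E b, ?_, ?_⟩
  · rw [map_add, map_sum, hC, Algebra.smul_def, mul_one]
    congr 1
    refine Finset.sum_congr rfl fun j _ => ?_
    rw [map_mul, hC, Algebra.smul_def]
    rfl
  · have h2 := congrArg (algebraMap (MvPolynomial (Fin n) R) L) h1
    rw [map_sum, map_zero] at h2
    rw [← h2]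
    refine Finset.sum_congr rfl fun j _ => ?_
    rw [map_mul, hC, Algebra.smul_def]
    rfl

/-- A subfield generated by `S` is generated by the preimage of `S`. -/
lemma adjoin_preimage {S : Set L} (K : IntermediateField E L)
    (hK : K = IntermediateField.adjoin E S) :
    IntermediateField.adjoin E ((Subtype.val : K → L) ⁻¹' S) = ⊤ := by
  apply IntermediateField.map_injective K.val
  rw [IntermediateField.adjoin_map]
  have h1 : (K.val : K → L) '' ((Subtype.val : K → L) ⁻¹' S) = S := by
    change (Subtype.val : K → L) '' ((Subtype.val : K → L) ⁻¹' S) = S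
    rw [Set.image_preimage_eq_inter_range, Set.inter_eq_left]
    intro x hx
    refine ⟨⟨x, ?_⟩, rfl⟩
    rw [hK]
    exact IntermediateField.subset_adjoin _ _ hx
  rw [h1, ← hK, ← AlgHom.fieldRange_eq_map, IntermediateField.fieldRange_val]

/-- The reduced coordinates. -/
noncomputable def uu {E R L : Type u} [Field E] [CommRing R] [Field L] {n : ℕ} [Algebra E L]
    [Algebra (MvPolynomial (Fin n) R) L] {r : ℕ} (s : Fin r → Fin n) (α : Fin n → Fin r → E)
    (j : Fin n) : L :=
  xx R L j - ∑ l, α j l • xx R L (s l)

section indep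

variable {r : ℕ} {s : Fin r → Fin n} (hs : LinearIndependent E (lL R L ℓ ∘ s))
  {α : Fin n → Fin r → E} (hα : ∀ j, lL R L ℓ j = ∑ l, α j l • lL R L ℓ (s l))

include hs hα

lemma alpha_self (i l : Fin r) : α (s i) l = if l = i then 1 else 0 := by
  classical
  have h1 : ∑ l, (α (s i) l - if l = i then 1 else 0) • lL R L ℓ (s l) = 0 := by
    simp only [sub_smul, Finset.sum_sub_distrib, ite_smul, one_smul, zero_smul]
    rw [← hα, Finset.sum_ite_eq', if_pos (Finset.mem_univ _), sub_self]
  have h2 := Fintype.linearIndependent_iff.1 hs _ h1 l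
  exact sub_eq_zero.1 h2

lemma uu_self (i : Fin r) : uu (R := R) (L := L) s α (s i) = 0 := by
  classical
  unfold uu
  simp only [alpha_self hs hα, ite_smul, one_smul, zero_smul]
  rw [Finset.sum_ite_eq', if_pos (Finset.mem_univ _), sub_self]

omit hs in
lemma uu_mem (j : Fin n) : uu (R := R) (L := L) s α j ∈ WW E L ℓ := by
  classical
  refine mem_WW.2 ⟨fun i => (if i = j then 1 else 0) - ∑ l, if s l = i then α j l else 0, 0,
    ?_, ?_⟩
  · simp only [sub_smul, Finset.sum_sub_distrib, ite_smul, one_smul, zero_smul, add_zero,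
      Finset.sum_smul]
    rw [Finset.sum_ite_eq', if_pos (Finset.mem_univ _), Finset.sum_comm]
    simp only [Finset.sum_ite_eq, Finset.mem_univ, if_true]
    rfl
  · simp only [sub_smul, Finset.sum_sub_distrib, ite_smul, one_smul, zero_smul,
      Finset.sum_smul]
    rw [Finset.sum_ite_eq', if_pos (Finset.mem_univ _), Finset.sum_comm]
    simp only [Finset.sum_ite_eq, Finset.mem_univ, if_true]
    rw [← hα, sub_self]

/-- The invariant forms are combinations of the reduced coordinates. -/
lemma WW_le : (WW E L ℓ : Set L) ⊆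
    IntermediateField.adjoin E ((uu (R := R) (L := L) s α) '' (Set.range s)ᶜ) := by
  classical
  intro w hw
  obtain ⟨a, b, rfl, h1⟩ := mem_WW.1 hw
  set F := IntermediateField.adjoin E ((uu (R := R) (L := L) s α) '' (Set.range s)ᶜ) with hF
  have hE : ∀ x : E, ∀ y ∈ F, x • y ∈ F := by
    intro x y hy
    rw [Algebra.smul_def]
    exact F.mul_mem (F.algebraMap_mem x) hy
  have hx : ∀ j, xx R L j = uu (R := R) (L := L) s α j + ∑ l, α j l • xx R L (s l) := by
    intro j
    unfold uu
    rw [sub_add_cancel]
  have hu : ∀ j, uu (R := R) (L := L) s α j ∈ F := by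
    intro j
    by_cases h : j ∈ Set.range s
    · obtain ⟨i, rfl⟩ := h
      rw [uu_self hs hα]
      exact F.zero_mem
    · exact IntermediateField.subset_adjoin _ _ ⟨j, h, rfl⟩
  have h2 : ∑ l, (∑ j, a j * α j l) • lL R L ℓ (s l) = 0 := by
    rw [← h1]
    simp only [Finset.sum_smul, mul_smul]
    rw [Finset.sum_comm]
    refine Finset.sum_congr rfl fun j _ => ?_
    rw [← Finset.smul_sum, ← hα]
  have h3 := Fintype.linearIndependent_iff.1 hs _ h2
  have h4 : ∑ j, a j • xx R L j = ∑ j, a j • uu (R := R) (L := L) s α j := by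
    have h5 : ∑ j, a j • xx R L j = ∑ j, a j • uu (R := R) (L := L) s α j +
        ∑ l, (∑ j, a j * α j l) • xx R L (s l) := by
      simp only [Finset.sum_smul, mul_smul]
      rw [Finset.sum_comm, ← Finset.sum_add_distrib]
      refine Finset.sum_congr rfl fun j _ => ?_
      rw [← Finset.smul_sum, ← smul_add, ← hx]
    have h6 : ∑ l, (∑ j, a j * α j l) • xx R L (s l) = 0 :=
      Finset.sum_eq_zero fun l _ => by rw [h3 l, zero_smul]
    rw [h5, h6, add_zero]
  rw [h4]
  exact F.add_mem (F.sum_mem fun j _ => hE _ _ (hu j)) (hE _ _ F.one_mem)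

/-- The transcendence degree of the field generated by the invariant forms, and the algebraic
independence of the remaining coordinates. -/
lemma trdeg_K (hr : r = Module.finrank E (Submodule.span E (Set.range (lL R L ℓ))))
    (K : IntermediateField E L) (hK : K = IntermediateField.adjoin E (WW E L ℓ : Set L)) :
    Algebra.trdeg E K + 1 = ((Module.finrank E (WW E L ℓ) : ℕ) : Cardinal.{u}) ∧
      AlgebraicIndependent K (fun l => xx R L (s l)) := by
  classical
  have hsi : Function.Injective s := by
    have h1 := hs.injective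
    exact Function.Injective.of_comp h1
  have hrn : r ≤ n := by simpa using Fintype.card_le_of_injective s hsi
  have hfr := finrank_WW (E := E) (L := L) ℓ
  -- the first inequality
  have hK' : K = IntermediateField.adjoin E ((uu (R := R) (L := L) s α) '' (Set.range s)ᶜ) := by
    rw [hK]
    apply le_antisymm
    · exact IntermediateField.adjoin_le_iff.2 (WW_le hs hα)
    · refine IntermediateField.adjoin_le_iff.2 ?_
      rintro _ ⟨j, -, rfl⟩
      exact IntermediateField.subset_adjoin _ _ (uu_mem hα j)
  have h1 : Algebra.trdeg E K ≤ ((n - r : ℕ) : Cardinal.{u}) := by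
    refine le_trans (trdeg_le_of_adjoin (adjoin_preimage K hK')) ?_
    have h2 : Cardinal.mk ((Subtype.val : K → L) ⁻¹' ((uu (R := R) (L := L) s α) ''
        (Set.range s)ᶜ)) ≤ Cardinal.mk ((uu (R := R) (L := L) s α) '' (Set.range s)ᶜ) := by
      refine Cardinal.mk_le_of_injective (f := fun x => ⟨x.1.1, x.2⟩) ?_
      intro x y h
      have h' : (x.1.1 : L) = y.1.1 := by
        simpa using h
      exact Subtype.ext (Subtype.ext h')
    refine le_trans h2 ?_
    have h3 := Cardinal.mk_image_le_lift (f := uu (R := R) (L := L) s α) (s := (Set.range s)ᶜ)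
    have h4 : Cardinal.mk ((Set.range s)ᶜ : Set (Fin n)) = ((n - r : ℕ) : Cardinal) := by
      rw [Cardinal.mk_fintype]
      congr 1
      rw [Fintype.card_compl_set, Fintype.card_fin, Set.card_range_of_injective hsi,
        Fintype.card_fin]
    rw [h4] at h3
    simpa using h3
  -- the second inequality
  have htop : IntermediateField.adjoin K (Set.range fun l => xx R L (s l)) = ⊤ := by
    have h2 : (IntermediateField.adjoin K (Set.range fun l => xx R L (s l))).restrictScalars E =
        ⊤ := by
      refine top_of_mem (R := R) (n := n) _ fun j => ?_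
      change xx R L j ∈ IntermediateField.adjoin K (Set.range fun l => xx R L (s l))
      set F := IntermediateField.adjoin K (Set.range fun l => xx R L (s l)) with hF
      have h3 : xx R L j = uu (R := R) (L := L) s α j + ∑ l, α j l • xx R L (s l) := by
        unfold uu
        rw [sub_add_cancel]
      rw [h3]
      refine F.add_mem ?_ (F.sum_mem fun l _ => ?_)
      · have h4 : uu (R := R) (L := L) s α j ∈ K := by
          rw [hK]
          exact IntermediateField.subset_adjoin _ _ (uu_mem hα j)
        exact F.algebraMap_mem ⟨_, h4⟩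
      · rw [Algebra.smul_def]
        refine F.mul_mem ?_ (IntermediateField.subset_adjoin _ _ ⟨l, rfl⟩)
        exact F.algebraMap_mem (algebraMap E K (α j l))
    rw [eq_top_iff]
    intro z _
    have : z ∈ (IntermediateField.adjoin K (Set.range fun l => xx R L (s l))).restrictScalars E :=
      by rw [h2]; trivial
    exact this
  have halg := isAlgebraic_of_adjoin htop
  have h2 : Algebra.trdeg K L ≤ (r : Cardinal.{u}) := by
    refine le_trans (trdeg_le_of_adjoin htop) ?_
    have h3 := Cardinal.mk_range_le_lift (f := fun l => xx R L (s l))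
    simpa using h3
  have h3 := trdeg_add_eq E K (A := L)
  rw [trdeg_L R E L n] at h3
  obtain ⟨a, ha⟩ := Cardinal.lt_aleph0.1 (lt_of_le_of_lt h1 (Cardinal.natCast_lt_aleph0))
  obtain ⟨b, hb⟩ := Cardinal.lt_aleph0.1 (lt_of_le_of_lt h2 (Cardinal.natCast_lt_aleph0))
  rw [ha, hb] at h3
  rw [ha] at h1
  rw [hb] at h2
  have h1' : a ≤ n - r := by exact_mod_cast h1
  have h2' : b ≤ r := by exact_mod_cast h2
  have h3' : a + b = n := by exact_mod_cast h3
  refine ⟨?_, ?_⟩
  · rw [ha]
    have : a + 1 = Module.finrank E (WW E L ℓ) := by omega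
    exact_mod_cast this
  · refine (Algebra.IsAlgebraic.isTranscendenceBasis_of_lift_le_trdeg_of_finite K _ ?_).1
    rw [hb]
    have : r ≤ b := by omega
    simpa using this

end indep

end fld

end Pool.Agent.Q40.FC
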