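import Pool.Agent.Q40.RS.Main

/-! Smooth modifications of affine varieties which principalize an ideal. -/

set_option autoImplicit false
set_option linter.unusedSectionVars false

universe u

open Finset

namespace Pool.Agent.Q40.FC

open Pool.Agent.W558 Pool.Agent.Q40.RS Pool.Agent.W418.LCI

section defs

variable {k E : Type u} [Field k] [Field E] [Algebra k E]

/-- A smooth modification of `Spec R`, given by finitely many charts. -/
structure Md (R : Subalgebra k E) (T : Type) where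
  /-- the charts -/
  A : T → Subalgebra k E
  /-- the homogeneous coordinates -/
  H : T → E
  sm : ∀ t, Algebra.Smooth k (A t)
  base : ∀ t, R ≤ A t
  H0 : ∀ t, H t ≠ 0
  HR : ∀ t, H t ∈ R
  rt : ∀ t t', H t' / H t ∈ A t
  gl : ∀ t t', ∀ f ∈ A t', ∃ n : ℕ, (H t' / H t) ^ n * f ∈ A t
  dn : ∀ t, ∀ f ∈ A t, ∃ n : ℕ, H t ^ n * f ∈ R
  cv : ∀ V : ValuationSubring E, (∀ a ∈ R, a ∈ V) → ∃ t, ∀ f ∈ A t, f ∈ V

/-- Every projective variety with function field `E` is dominated by a smooth projective variety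
(both given by homogeneous coordinates). -/
def HasSmoothModels (k E : Type u) [Field k] [Field E] [Algebra k E] : Prop :=
  ∀ (m : ℕ) (w : Fin (m + 1) → E), (∀ i, w i ≠ 0) →
    ∃ (N : ℕ) (H : Fin (N + 1) → E), (∀ i, H i ≠ 0) ∧
      ∀ i, Algebra.Smooth k (Algebra.adjoin k (Set.range fun j => H j / H i)) ∧
        ∃ l, ∀ j, w j / w l ∈ Algebra.adjoin k (Set.range fun j => H j / H i)

/-- the base has a smooth modification which principalizes the finite family -/
def Princ (R : Subalgebra k E) : Prop :=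
  ∀ (G : Type) [Fintype G] [Nonempty G] (g : G → E), (∀ a, g a ≠ 0) →
    ∃ (T : Type) (_ : Finite T) (M : Md R T), ∀ t, ∃ a, ∀ b, g b / g a ∈ M.A t

theorem princ_of_LM (hE : HasLM k E) (R : Subalgebra k E) (hfg : R.FG)
    (hfr : ∀ x : E, ∃ a ∈ R, ∃ b ∈ R, b ≠ 0 ∧ x = a * b⁻¹) : Princ R := by
  intro G _ _ g hg
  obtain ⟨T, I', hT, hI', M, hM⟩ := exists_cmp hE R hfg hfr G g hg
  refine ⟨T, hT, ⟨M.A, M.H, M.sm, M.base, M.H0, M.HR, M.rt, M.gl, M.dn, M.cv⟩, fun t => ?_⟩
  obtain ⟨i, -, hi⟩ := exists_min (M.A t) Finset.univ Finset.univ_nonempty g hg (hM t)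
  exact ⟨i, fun b => hi b (Finset.mem_univ b)⟩

theorem exists_valuation_min (V : ValuationSubring E) {N : ℕ} (H : Fin (N + 1) → E) :
    ∃ i, ∀ j, H j / H i ∈ V := by
  classical
  obtain ⟨i, hi⟩ := Finite.exists_max (fun j => V.valuation (H j))
  refine ⟨i, fun j => ?_⟩
  rw [← V.valuation_le_one_iff, map_div₀]
  exact div_le_one_of_le₀ (hi j) zero_le

theorem princ_of_models (hE : HasSmoothModels k E) (R : Subalgebra k E) (hfg : R.FG)
    (hfr : ∀ x : E, ∃ a ∈ R, ∃ b ∈ R, b ≠ 0 ∧ x = a * b⁻¹) : Princ R := by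
  classical
  intro G _ hG g hg
  obtain ⟨S, hS⟩ := hfg
  let S' : Finset E := S.erase 0
  have hS' : Algebra.adjoin k (S' : Set E) = R := by
    rw [← hS]
    apply le_antisymm
    · exact Algebra.adjoin_mono (by exact_mod_cast Finset.erase_subset _ _)
    · refine Algebra.adjoin_le fun x hx => ?_
      by_cases h0 : x = 0
      · rw [h0]; exact Subalgebra.zero_mem _
      · exact Algebra.subset_adjoin (Finset.mem_coe.2 (Finset.mem_erase.2 ⟨h0, hx⟩))
  -- the generators and `1`
  let Y := Option {x // x ∈ S'}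
  let y : Y → E := fun o => o.elim 1 fun x => x.1
  have hy0 : ∀ a, y a ≠ 0 := by
    rintro (_ | x)
    · exact one_ne_zero
    · exact (Finset.mem_erase.1 x.2).1
  have hyR : ∀ a, y a ∈ R := by
    rintro (_ | x)
    · exact R.one_mem
    · rw [← hS']
      exact Algebra.subset_adjoin x.2
  obtain ⟨m, hm⟩ : ∃ m, Fintype.card (Y × G) = m + 1 :=
    ⟨Fintype.card (Y × G) - 1, (Nat.succ_pred_eq_of_pos Fintype.card_pos).symm⟩
  let q : Y × G ≃ Fin (m + 1) := (Fintype.equivFin (Y × G)).trans (finCongr hm)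
  obtain ⟨N, H, hH0, hH⟩ := hE m (fun i => y (q.symm i).1 * g (q.symm i).2)
    (fun i => mul_ne_zero (hy0 _) (hg _))
  choose hsm l hl using hH
  let A0 : Fin (N + 1) → Subalgebra k E := fun i => Algebra.adjoin k (Set.range fun j => H j / H i)
  let a0 : Fin (N + 1) → Y := fun i => (q.symm (l i)).1
  let b0 : Fin (N + 1) → G := fun i => (q.symm (l i)).2
  have hab : ∀ i a b, (y a * g b) / (y (a0 i) * g (b0 i)) ∈ A0 i := by
    intro i a b
    have := hl i (q (a, b))
    simp only [Equiv.symm_apply_apply] at this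
    exact this
  have hgd : ∀ i b, g b / g (b0 i) ∈ A0 i := by
    intro i b
    have h1 := hab i (a0 i) b
    rwa [mul_div_mul_left _ _ (hy0 _)] at h1
  have hyd : ∀ i a, y a / y (a0 i) ∈ A0 i := by
    intro i a
    have h1 := hab i a (b0 i)
    rwa [mul_div_mul_right _ _ (hg _)] at h1
  have hyi : ∀ i, (y (a0 i))⁻¹ ∈ A0 i := by
    intro i
    have h1 := hyd i none
    rw [← one_div]
    exact h1
  -- a common denominator
  choose u hu v hv hv0 huv using fun i => hfr (H i)
  let d : E := ∏ i, v i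
  have hd0 : d ≠ 0 := Finset.prod_ne_zero_iff.2 fun i _ => hv0 i
  have hdH : ∀ i, d * H i ∈ R := by
    intro i
    have h1 : d * H i = u i * ∏ j ∈ Finset.univ.erase i, v j := by
      have h2 : d = v i * ∏ j ∈ Finset.univ.erase i, v j :=
        (Finset.mul_prod_erase Finset.univ v (Finset.mem_univ i)).symm
      have h3 := hv0 i
      rw [h2, huv i]
      field_simp
    rw [h1]
    exact R.mul_mem (hu i) (Subalgebra.prod_mem _ fun j _ => hv j)
  have hbase : ∀ i, R ≤ adj (A0 i) ((y (a0 i))⁻¹)⁻¹ := by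
    intro i
    rw [← hS']
    refine Algebra.adjoin_le fun x hx => ?_
    have h1 : x = (x / y (a0 i)) * ((y (a0 i))⁻¹)⁻¹ := by
      rw [inv_inv]
      exact (div_mul_cancel₀ _ (hy0 _)).symm
    rw [h1]
    exact Subalgebra.mul_mem _ (le_adj _ _ (hyd i (some ⟨x, hx⟩))) (self_mem_adj _ _)
  have hmono : ∀ (i i' : Fin (N + 1)) (n m : ℕ) (f : E) , n ≤ m →
      (H i' / H i) ^ n * f ∈ adj (A0 i) ((y (a0 i))⁻¹)⁻¹ →
      (H i' / H i) ^ m * f ∈ adj (A0 i) ((y (a0 i))⁻¹)⁻¹ := by
    intro i i' n m f hnm h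
    obtain ⟨e, rfl⟩ := Nat.exists_eq_add_of_le hnm
    rw [add_comm, pow_add, mul_assoc]
    have h0 : H i' / H i ∈ A0 i := Algebra.subset_adjoin ⟨i', rfl⟩
    exact Subalgebra.mul_mem _ (Subalgebra.pow_mem _ (le_adj _ _ h0) e) h
  have hHd : ∀ i i', (d * H i') / (d * H i) = H i' / H i := fun i i' => mul_div_mul_left _ _ hd0
  refine ⟨Fin (N + 1), inferInstance,
    { A := fun i => adj (A0 i) ((y (a0 i))⁻¹)⁻¹
      H := fun i => d * H i
      sm := fun i => ?_
      base := hbase
      H0 := fun i => mul_ne_zero hd0 (hH0 i)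
      HR := hdH
      rt := fun i i' => ?_
      gl := fun i i' f hf => ?_
      dn := fun i f hf => ?_
      cv := fun V hV => ?_ }, fun i => ⟨b0 i, fun b => le_adj _ _ (hgd i b)⟩⟩
  · have := hsm i
    exact smooth_adj_inv (A := A0 i) (hyi i) (inv_ne_zero (hy0 _))
  · rw [hHd]
    have h0 : H i' / H i ∈ A0 i := Algebra.subset_adjoin ⟨i', rfl⟩
    exact le_adj _ _ h0
  · simp only [hHd]
    -- induction
    have hA0 : ∀ f ∈ A0 i', ∃ n : ℕ, (H i' / H i) ^ n * f ∈ adj (A0 i) ((y (a0 i))⁻¹)⁻¹ := by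
      intro f hf
      induction hf using Algebra.adjoin_induction with
      | mem x hx =>
        obtain ⟨j, rfl⟩ := hx
        refine ⟨1, ?_⟩
        have h1 : (H i' / H i) ^ 1 * (H j / H i') = H j / H i := by
          have := hH0 i'
          field_simp
        rw [h1]
        have h0 : H j / H i ∈ A0 i := Algebra.subset_adjoin ⟨j, rfl⟩
        exact le_adj _ _ h0
      | algebraMap r => exact ⟨0, by rw [pow_zero, one_mul]; exact Subalgebra.algebraMap_mem _ r⟩
      | add x z _ _ hx hz =>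
        obtain ⟨n, hn⟩ := hx
        obtain ⟨m, hm⟩ := hz
        refine ⟨n + m, ?_⟩
        rw [mul_add]
        exact Subalgebra.add_mem _ (hmono i i' n _ x (Nat.le_add_right _ _) hn)
          (hmono i i' m _ z (Nat.le_add_left _ _) hm)
      | mul x z _ _ hx hz =>
        obtain ⟨n, hn⟩ := hx
        obtain ⟨m, hm⟩ := hz
        refine ⟨n + m, ?_⟩
        have h1 : (H i' / H i) ^ (n + m) * (x * z) = ((H i' / H i) ^ n * x) *
            ((H i' / H i) ^ m * z) := by ring
        rw [h1]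
        exact Subalgebra.mul_mem _ hn hm
    rw [mem_adj_inv (hyi i') (inv_ne_zero (hy0 _))] at hf
    obtain ⟨e, he⟩ := hf
    obtain ⟨n, hn⟩ := hA0 _ he
    refine ⟨n, ?_⟩
    have h1 : (H i' / H i) ^ n * f = ((H i' / H i) ^ n * (f * ((y (a0 i'))⁻¹) ^ e)) *
        (y (a0 i')) ^ e := by
      have h2 : ((y (a0 i'))⁻¹) ^ e * (y (a0 i')) ^ e = 1 := by
        rw [← mul_pow, inv_mul_cancel₀ (hy0 _), one_pow]
      linear_combination (- (H i' / H i) ^ n * f) * h2
    rw [h1]
    exact Subalgebra.mul_mem _ hn (Subalgebra.pow_mem _ (hbase i (hyR _)) _)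
  · have hA0 : ∀ f ∈ A0 i, ∃ n : ℕ, (d * H i) ^ n * f ∈ R := by
      intro f hf
      induction hf using Algebra.adjoin_induction with
      | mem x hx =>
        obtain ⟨j, rfl⟩ := hx
        refine ⟨1, ?_⟩
        have h1 : (d * H i) ^ 1 * (H j / H i) = d * H j := by
          have := hH0 i
          field_simp
        rw [h1]
        exact hdH j
      | algebraMap r => exact ⟨0, by rw [pow_zero, one_mul]; exact Subalgebra.algebraMap_mem _ r⟩
      | add x z _ _ hx hz =>
        obtain ⟨n, hn⟩ := hx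
        obtain ⟨m, hm⟩ := hz
        refine ⟨n + m, ?_⟩
        have h1 : (d * H i) ^ (n + m) * (x + z) = (d * H i) ^ m * ((d * H i) ^ n * x) +
            (d * H i) ^ n * ((d * H i) ^ m * z) := by ring
        rw [h1]
        exact R.add_mem (R.mul_mem (R.pow_mem (hdH i) _) hn) (R.mul_mem (R.pow_mem (hdH i) _) hm)
      | mul x z _ _ hx hz =>
        obtain ⟨n, hn⟩ := hx
        obtain ⟨m, hm⟩ := hz
        refine ⟨n + m, ?_⟩
        have h1 : (d * H i) ^ (n + m) * (x * z) = ((d * H i) ^ n * x) * ((d * H i) ^ m * z) := by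
          ring
        rw [h1]
        exact R.mul_mem hn hm
    rw [mem_adj_inv (hyi i) (inv_ne_zero (hy0 _))] at hf
    obtain ⟨e, he⟩ := hf
    obtain ⟨n, hn⟩ := hA0 _ he
    refine ⟨n, ?_⟩
    have h1 : (d * H i) ^ n * f = ((d * H i) ^ n * (f * ((y (a0 i))⁻¹) ^ e)) *
        (y (a0 i)) ^ e := by
      have h2 : ((y (a0 i))⁻¹) ^ e * (y (a0 i)) ^ e = 1 := by
        rw [← mul_pow, inv_mul_cancel₀ (hy0 _), one_pow]
      linear_combination (- (d * H i) ^ n * f) * h2
    rw [h1]
    exact R.mul_mem hn (R.pow_mem (hyR _) _)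
  · obtain ⟨i, hi⟩ := exists_valuation_min V H
    have hkV : ∀ r : k, algebraMap k E r ∈ V := fun r => hV _ (R.algebraMap_mem r)
    have hA0 : ∀ f ∈ A0 i, f ∈ V := by
      intro f hf
      induction hf using Algebra.adjoin_induction with
      | mem x hx => obtain ⟨j, rfl⟩ := hx; exact hi j
      | algebraMap r => exact hkV r
      | add x z _ _ hx hz => exact V.add_mem _ _ hx hz
      | mul x z _ _ hx hz => exact V.mul_mem _ _ hx hz
    refine ⟨i, fun f hf => ?_⟩
    rw [mem_adj_inv (hyi i) (inv_ne_zero (hy0 _))] at hf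
    obtain ⟨e, he⟩ := hf
    have h1 : f = (f * ((y (a0 i))⁻¹) ^ e) * (y (a0 i)) ^ e := by
      have h2 : ((y (a0 i))⁻¹) ^ e * (y (a0 i)) ^ e = 1 := by
        rw [← mul_pow, inv_mul_cancel₀ (hy0 _), one_pow]
      linear_combination (- f) * h2
    rw [h1]
    exact V.mul_mem _ _ (hA0 _ he) (pow_mem (hV _ (hyR _)) _)

end defs

end Pool.Agent.Q40.FC
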