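import Pool.Agent.Q40.FC.Disc
import Pool.Agent.Q40.FC.Mod

/-! The resolution of a variety `Y` over `S = Spec R` with a finite cover `X = Spec B → Y`, where
`X` is smooth over `S` and the discriminant module of the cover is extended from `S`. -/

set_option autoImplicit false
set_option linter.unusedSectionVars false

universe u

open Finset

namespace Pool.Agent.Q40.FC

open Pool.Agent.W558 Pool.Agent.H920R2 Pool.Agent.Q40.RS Pool.Agent.Q40.FF Pool.Agent.W418.LCI AlgebraicGeometry
  CategoryTheory

section ext

variable {k E L : Type u} [Field k] [Field E] [Field L] [Algebra k E] [Algebra k L]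
  [Algebra E L] [IsScalarTower k E L] (F : IntermediateField E L)

/-- The determinants are divisible on the charts. -/
theorem det_div {ι : Type*} [Fintype ι] [DecidableEq ι] (e : Module.Basis ι F L)
    (A : Subalgebra k E) (B : Subalgebra k L) (μ : L)
    (hB : ∀ c : ι → L, (∀ i, c i ∈ B) → (e.det c : L) / μ ∈ mulA A B) (c : ι → L)
    (hc : ∀ i, c i ∈ mulA A B) : (e.det c : L) / μ ∈ mulA A B := by
  have key : ∀ S : Finset ι, ∀ c : ι → L, (∀ i ∈ S, c i ∈ mulA A B) → (∀ i ∉ S, c i ∈ B) →
      (e.det c : L) / μ ∈ mulA A B := by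
    intro S
    induction S using Finset.induction with
    | empty => exact fun c _ hc => hB c fun i => hc i (by simp)
    | insert j S hj ih =>
      intro c hc1 hc2
      have h1 : ∀ x ∈ mulA A B, (e.det (Function.update c j x) : L) / μ ∈ mulA A B := by
        intro x hx
        refine mulA_induction (P := fun x => (e.det (Function.update c j x) : L) / μ ∈ mulA A B)
          ?_ ?_ hx
        · intro a ha b hb
          have h2 : algebraMap E L a * b = (algebraMap E F a) • b := by
            rw [Algebra.smul_def]
            rfl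
          rw [h2, AlternatingMap.map_update_smul]
          have h3 : ((algebraMap E F a • e.det (Function.update c j b) : F) : L) / μ =
              algebraMap E L a * ((e.det (Function.update c j b) : L) / μ) := by
            rw [← mul_div_assoc]
            rfl
          rw [h3]
          refine Subalgebra.mul_mem _ (le_mulA B ha) (ih _ ?_ ?_)
          · intro i hi
            have : i ≠ j := fun h => hj (h ▸ hi)
            rw [Function.update_of_ne this]
            exact hc1 i (Finset.mem_insert_of_mem hi)
          · intro i hi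
            by_cases hij : i = j
            · subst hij
              rw [Function.update_self]
              exact hb
            · rw [Function.update_of_ne hij]
              exact hc2 i (fun h => (Finset.mem_insert.1 h).elim hij hi)
        · intro x y hx hy
          rw [AlternatingMap.map_update_add]
          have h3 : ((e.det (Function.update c j x) + e.det (Function.update c j y) : F) : L) / μ =
              (e.det (Function.update c j x) : L) / μ + (e.det (Function.update c j y) : L) / μ :=
            add_div _ _ _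
          rw [h3]
          exact Subalgebra.add_mem _ hx hy
      have h2 := h1 (c j) (hc1 j (Finset.mem_insert_self _ _))
      rwa [Function.update_eq_self] at h2
  exact key Finset.univ c (fun i _ => hc i) (fun i hi => absurd (Finset.mem_univ i) hi)

end ext

section setup

variable {k R B E L : Type u} [Field k] [PerfectField k] [CommRing R] [IsDomain R] [Algebra k R]
  [CommRing B] [IsDomain B] [Algebra k B] [Algebra R B] [IsScalarTower k R B] [Field E]
  [Algebra k E] [Algebra R E] [IsScalarTower k R E] [IsFractionRing R E] [Field L] [Algebra k L]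
  [Algebra B L] [IsScalarTower k B L] [Algebra R L] [IsScalarTower R B L] [Algebra E L]
  [IsScalarTower R E L] [IsScalarTower k E L] [IsFractionRing B L]

/-- The subalgebra `B ∩ F` of `B`. -/
def cF (k : Type u) [Field k] (B : Type u) [CommRing B] [Algebra k B] [Algebra k E] [Algebra k L]
    [IsScalarTower k E L] [Algebra B L] [IsScalarTower k B L] (F : IntermediateField E L) :
    Subalgebra k B :=
  (F.toSubalgebra.restrictScalars k).comap (IsScalarTower.toAlgHom k B L)

theorem mem_cF {F : IntermediateField E L} {b : B} : b ∈ cF k B F ↔ algebraMap B L b ∈ F := Iff.rfl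

/-- The resolution of the quotient. -/
theorem main (p : ℕ) [hp : Fact p.Prime] [CharP k p] [Algebra.FiniteType k R]
    (hE : Princ (img k R E)) [Algebra.Smooth R B] (F : IntermediateField E L) [FiniteDimensional F L]
    (hint : ∀ b : B, IsIntegral (cF k B F) b) {ι : Type*} [Fintype ι] [DecidableEq ι]
    (e : Module.Basis ι F L) (lam : L) (hlam : lam ≠ 0) (δ : (ι → B) → B)
    (hδ : ∀ c, (e.det (fun i => algebraMap B L (c i)) : L) = lam * algebraMap B L (δ c))
    (I : Ideal R) (hI0 : I ≠ ⊥) (hI : Ideal.span (Set.range δ) = I.map (algebraMap R B)) :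
    HasResolution (X := Spec (CommRingCat.of (cF k B F)))
      (Spec.map (CommRingCat.ofHom (algebraMap k (cF k B F)))) := by
  classical
  have hBL : Function.Injective (algebraMap B L) := IsFractionRing.injective B L
  have hnoe : IsNoetherianRing R := Algebra.FiniteType.isNoetherianRing k R
  obtain ⟨S0, hS0⟩ : I.FG := IsNoetherian.noetherian I
  let S : Finset R := S0.erase 0
  have hS : Ideal.span (S : Set R) = I := by
    rw [← hS0]
    apply le_antisymm
    · exact Ideal.span_mono (by exact_mod_cast Finset.erase_subset _ _)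
    · refine Ideal.span_le.2 fun x hx => ?_
      by_cases h0 : x = 0
      · rw [h0]; exact Ideal.zero_mem _
      · exact Ideal.subset_span (Finset.mem_coe.2 (Finset.mem_erase.2 ⟨h0, hx⟩))
  have hSne : S.Nonempty := by
    rw [Finset.nonempty_iff_ne_empty]
    intro h
    apply hI0
    rw [← hS, h]
    simp
  let q := S.equivFin
  let g : Fin S.card → E := fun i => algebraMap R E (q.symm i).1
  have hREinj : Function.Injective (algebraMap R E) := IsFractionRing.injective R E
  have hg : ∀ a, g a ≠ 0 := by
    intro a h
    have h1 := (Finset.mem_erase.1 (q.symm a).2).1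
    exact h1 (hREinj (by rw [map_zero]; exact h))
  have hne : Nonempty (Fin S.card) := by
    obtain ⟨x, hx⟩ := hSne
    exact ⟨q ⟨x, hx⟩⟩
  obtain ⟨T, hT, M, hM⟩ := hE (Fin S.card) g hg
  choose i0 hi0 using hM
  let f : T → E := fun t => g (i0 t)
  have hf0 : ∀ t, f t ≠ 0 := fun t => hg _
  have hdiv : ∀ t, ∀ s ∈ S, algebraMap R E s / f t ∈ M.A t := by
    intro t s hs
    have h1 := hi0 t (q ⟨s, hs⟩)
    have h2 : g (q ⟨s, hs⟩) = algebraMap R E s := by
      change algebraMap R E (q.symm (q ⟨s, hs⟩)).1 = _
      rw [Equiv.symm_apply_apply]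
    rwa [h2] at h1
  have hdivB : ∀ t, ∀ b ∈ I.map (algebraMap R B),
      algebraMap B L b / algebraMap E L (f t) ∈ mulA (M.A t) (img k B L) := by
    intro t b hb
    rw [← hS] at hb
    exact div_mem (hdiv t) hb
  obtain ⟨ρ, hρ, hρs⟩ := exists_rho (k := k) (R := R) (B := B) (E := E) (L := L) hBL
  let Bt : T → Subalgebra k L := fun t => mulA (M.A t) (img k B L)
  have hBt : ∀ t, Algebra.Smooth k (Bt t) := fun t =>
    smooth_mulA (M.A t) (img k R E) (M.base t) img_frac (M.sm t) (img k B L) ρ hρ hρs
  have hEF : ∀ x : E, algebraMap E L x ∈ F := fun x => F.algebraMap_mem x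
  -- integrality
  have hbint : ∀ t (b : B), IsIntegral (infM (Bt t) F) (algebraMap B L b) := by
    intro t b
    obtain ⟨P, hP, hPb⟩ := hint b
    let φ : cF k B F →+* infM (Bt t) F :=
      { toFun := fun x => ⟨algebraMap B L x.1, le_mulA' _ ⟨x.1, rfl⟩, x.2⟩
        map_one' := Subtype.ext (map_one (algebraMap B L))
        map_mul' := fun x y => Subtype.ext (map_mul (algebraMap B L) _ _)
        map_zero' := Subtype.ext (map_zero (algebraMap B L))
        map_add' := fun x y => Subtype.ext (map_add (algebraMap B L) _ _) }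
    refine ⟨P.map φ, hP.map φ, ?_⟩
    rw [Polynomial.eval₂_map]
    have h1 : (algebraMap (infM (Bt t) F) L).comp φ =
        (algebraMap B L).comp (algebraMap (cF k B F) B) := rfl
    rw [h1, ← Polynomial.hom_eval₂, hPb, map_zero]
  have hint' : ∀ t, ∀ x ∈ Bt t, IsIntegral (infM (Bt t) F) x := by
    intro t x hx
    refine mulA_induction (P := fun x => IsIntegral (infM (Bt t) F) x) ?_ ?_ hx
    · rintro a ha _ ⟨b, rfl⟩
      refine IsIntegral.mul ?_ (hbint t b)
      exact isIntegral_algebraMap (R := infM (Bt t) F)
        (x := ⟨algebraMap E L a, le_mulA _ ha, hEF a⟩)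
    · exact fun x y hx hy => IsIntegral.add hx hy
  have hfrac : ∀ t, ∀ x : L, ∃ a ∈ Bt t, ∃ b ∈ Bt t, b ≠ 0 ∧ x = a * b⁻¹ := by
    intro t x
    obtain ⟨a, b, hb, rfl⟩ := IsFractionRing.div_surjective (A := B) x
    refine ⟨_, le_mulA' _ ⟨a, rfl⟩, _, le_mulA' _ ⟨b, rfl⟩, ?_, div_eq_mul_inv _ _⟩
    exact IsFractionRing.to_map_ne_zero_of_mem_nonZeroDivisors hb
  -- smoothness
  have hsm : ∀ t, Algebra.Smooth k (infM (Bt t) F) := by
    intro t
    have hμ : lam * algebraMap E L (f t) ≠ 0 := mul_ne_zero hlam ((map_ne_zero _).2 (hf0 t))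
    have hdet : ∀ c : ι → L, (∀ i, c i ∈ Bt t) →
        (e.det c : L) / (lam * algebraMap E L (f t)) ∈ Bt t := by
      intro c hc
      refine det_div F e (M.A t) (img k B L) _ ?_ c hc
      intro c hc
      choose b hb using hc
      have h1 : c = fun i => algebraMap B L (b i) := funext fun i => (hb i).symm
      rw [h1, hδ, mul_div_mul_left _ _ hlam]
      apply hdivB
      rw [← hI]
      exact Ideal.subset_span ⟨b, rfl⟩
    have hex : ∀ c : ι → Bt t, ∃ y : Bt t, ((e.det fun i => ((c i : Bt t) : L) : F) : L) =
        (lam * algebraMap E L (f t)) * y := by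
      intro c
      exact ⟨⟨_, hdet (fun i => (c i : L)) fun i => (c i).2⟩, (mul_div_cancel₀ _ hμ).symm⟩
    choose s hs using hex
    refine smooth_infM p F (Bt t) (hfrac t) (hint' t) e _ hμ s hs ?_
    have h1 : algebraMap R B (q.symm (i0 t)).1 ∈ Ideal.span (Set.range δ) := by
      rw [hI]
      refine Ideal.mem_map_of_mem _ ?_
      rw [← hS]
      exact Ideal.subset_span (q.symm (i0 t)).2
    rw [Ideal.span, Finsupp.mem_span_range_iff_exists_finsupp] at h1
    obtain ⟨a, ha⟩ := h1
    rw [Ideal.eq_top_iff_one]
    let j : B → Bt t := fun b => ⟨algebraMap B L b, le_mulA' _ ⟨b, rfl⟩⟩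
    have h2 : (1 : Bt t) = a.sum fun c b => j b * s (fun i => j (c i)) := by
      apply Subtype.ext
      have h3 : ((a.sum fun c b => j b * s (fun i => j (c i)) : Bt t) : L) =
          algebraMap B L (a.sum fun c b => b • δ c) / algebraMap E L (f t) := by
        rw [Finsupp.sum, Finsupp.sum, AddSubmonoidClass.coe_finsetSum, map_sum, Finset.sum_div]
        refine Finset.sum_congr rfl fun c _ => ?_
        have h4 := hs (fun i => j (c i))
        have h5 : (e.det fun i => ((j (c i) : Bt t) : L) : F) =
          (e.det fun i => algebraMap B L (c i)) := rfl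
        rw [h5, hδ, mul_assoc] at h4
        have h6 := mul_left_cancel₀ hlam h4
        change algebraMap B L (a c) * (s fun i => j (c i) : Bt t) = _
        rw [smul_eq_mul, map_mul, h6, mul_div_assoc,
          mul_div_cancel_left₀ _ ((map_ne_zero _).2 (hf0 t))]
      rw [h3, ha, ← IsScalarTower.algebraMap_apply R B L, IsScalarTower.algebraMap_apply R E L]
      exact (div_self ((map_ne_zero _).2 (hf0 t))).symm
    rw [h2]
    refine Ideal.sum_mem _ fun c _ => ?_
    apply Ideal.mul_mem_left
    exact Ideal.subset_span ⟨_, rfl⟩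
  -- the atlas
  let gC : cF k B F →ₐ[k] L := (IsScalarTower.toAlgHom k B L).comp (cF k B F).val
  have hgC : ∀ a : cF k B F, gC a = algebraMap B L a.1 := fun a => rfl
  have hinj : Function.Injective gC := hBL.comp Subtype.val_injective
  refine hasResolution_of_atl gC hinj (T := T) (C := fun t => infM (Bt t) F)
    (H := fun t => algebraMap E L (M.H t))
    { sm := hsm
      aa := fun t a => ⟨le_mulA' _ ⟨a.1, rfl⟩, a.2⟩
      H0 := fun t => (map_ne_zero _).2 (M.H0 t)
      hA := ?_
      rt := ?_
      gl := ?_
      dn := ?_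
      cv := ?_ }
  · intro t
    obtain ⟨s, hs⟩ := M.HR t
    have hs' : algebraMap R E s = M.H t := hs
    refine ⟨⟨algebraMap R B s, ?_⟩, ?_⟩
    · rw [mem_cF, ← IsScalarTower.algebraMap_apply R B L, IsScalarTower.algebraMap_apply R E L]
      exact hEF _
    · rw [hgC, ← hs', ← IsScalarTower.algebraMap_apply R B L,
        ← IsScalarTower.algebraMap_apply R E L]
  · intro t t'
    rw [← map_div₀]
    exact ⟨le_mulA _ (M.rt t t'), hEF _⟩
  · intro t t' x hx
    have h1 : ∃ n : ℕ, (algebraMap E L (M.H t') / algebraMap E L (M.H t)) ^ n * x ∈ Bt t := by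
      refine mulA_induction (P := fun x => ∃ n : ℕ,
        (algebraMap E L (M.H t') / algebraMap E L (M.H t)) ^ n * x ∈ Bt t) ?_ ?_ hx.1
      · intro a ha b hb
        obtain ⟨n, hn⟩ := M.gl t t' a ha
        refine ⟨n, ?_⟩
        rw [← mul_assoc, ← map_div₀, ← map_pow, ← map_mul]
        exact (Bt t).mul_mem (le_mulA _ hn) (le_mulA' _ hb)
      · rintro x y ⟨n, hn⟩ ⟨m, hm⟩
        refine ⟨n + m, ?_⟩
        have hr : algebraMap E L (M.H t') / algebraMap E L (M.H t) ∈ Bt t := by
          rw [← map_div₀]
          exact le_mulA _ (M.rt t t')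
        have h2 : (algebraMap E L (M.H t') / algebraMap E L (M.H t)) ^ (n + m) * (x + y) =
            (algebraMap E L (M.H t') / algebraMap E L (M.H t)) ^ m *
              ((algebraMap E L (M.H t') / algebraMap E L (M.H t)) ^ n * x) +
            (algebraMap E L (M.H t') / algebraMap E L (M.H t)) ^ n *
              ((algebraMap E L (M.H t') / algebraMap E L (M.H t)) ^ m * y) := by ring
        rw [h2]
        exact (Bt t).add_mem ((Bt t).mul_mem ((Bt t).pow_mem hr _) hn)
          ((Bt t).mul_mem ((Bt t).pow_mem hr _) hm)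
    obtain ⟨n, hn⟩ := h1
    refine ⟨n, hn, F.mul_mem (pow_mem ?_ _) hx.2⟩
    rw [← map_div₀]
    exact hEF _
  · intro t x hx
    have h1 : ∃ n : ℕ, (algebraMap E L (M.H t)) ^ n * x ∈ img k B L := by
      have hH : algebraMap E L (M.H t) ∈ img k B L := by
        obtain ⟨s, hs⟩ := M.HR t
        have hs' : algebraMap R E s = M.H t := hs
        refine ⟨algebraMap R B s, ?_⟩
        change algebraMap B L (algebraMap R B s) = _
        rw [← hs', ← IsScalarTower.algebraMap_apply R B L,
          ← IsScalarTower.algebraMap_apply R E L]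
      refine mulA_induction (P := fun x => ∃ n : ℕ,
        (algebraMap E L (M.H t)) ^ n * x ∈ img k B L) ?_ ?_ hx.1
      · intro a ha b hb
        obtain ⟨n, s, hs⟩ := M.dn t a ha
        have hs' : algebraMap R E s = M.H t ^ n * a := hs
        refine ⟨n, ?_⟩
        rw [← mul_assoc, ← map_pow, ← map_mul, ← hs']
        refine (img k B L).mul_mem ⟨algebraMap R B s, ?_⟩ hb
        change algebraMap B L (algebraMap R B s) = _
        rw [← IsScalarTower.algebraMap_apply R B L, ← IsScalarTower.algebraMap_apply R E L]
      · rintro x y ⟨n, hn⟩ ⟨m, hm⟩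
        refine ⟨n + m, ?_⟩
        have h2 : (algebraMap E L (M.H t)) ^ (n + m) * (x + y) =
            (algebraMap E L (M.H t)) ^ m * ((algebraMap E L (M.H t)) ^ n * x) +
            (algebraMap E L (M.H t)) ^ n * ((algebraMap E L (M.H t)) ^ m * y) := by ring
        rw [h2]
        exact (img k B L).add_mem ((img k B L).mul_mem ((img k B L).pow_mem hH _) hn)
          ((img k B L).mul_mem ((img k B L).pow_mem hH _) hm)
    obtain ⟨n, b, hb⟩ := h1
    have hb' : algebraMap B L b = (algebraMap E L (M.H t)) ^ n * x := hb
    refine ⟨n, ⟨b, ?_⟩, ?_⟩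
    · rw [mem_cF, hb']
      exact F.mul_mem (pow_mem (hEF _) _) hx.2
    · rw [hgC]
      exact hb'.symm
  · intro V hV
    have hRV : ∀ a ∈ img k R E, a ∈ V.comap (algebraMap E L) := by
      rintro _ ⟨s, rfl⟩
      change algebraMap E L (algebraMap R E s) ∈ V
      have h1 := hV ⟨algebraMap R B s, by
        rw [mem_cF, ← IsScalarTower.algebraMap_apply R B L, IsScalarTower.algebraMap_apply R E L]
        exact hEF _⟩
      rw [hgC, ← IsScalarTower.algebraMap_apply R B L,
        IsScalarTower.algebraMap_apply R E L] at h1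
      exact h1
    obtain ⟨t, ht⟩ := M.cv _ hRV
    have hBV : ∀ b : B, algebraMap B L b ∈ V := by
      intro b
      obtain ⟨P, hP, hPb⟩ := hint b
      let φ : cF k B F →+* V :=
        { toFun := fun x => ⟨algebraMap B L x.1, hV x⟩
          map_one' := Subtype.ext (map_one (algebraMap B L))
          map_mul' := fun x y => Subtype.ext (map_mul (algebraMap B L) _ _)
          map_zero' := Subtype.ext (map_zero (algebraMap B L))
          map_add' := fun x y => Subtype.ext (map_add (algebraMap B L) _ _) }
      have h2 : IsIntegral V (algebraMap B L b) := by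
        refine ⟨P.map φ, hP.map φ, ?_⟩
        rw [Polynomial.eval₂_map]
        have h1 : (algebraMap V L).comp φ =
            (algebraMap B L).comp (algebraMap (cF k B F) B) := rfl
        rw [h1, ← Polynomial.hom_eval₂, hPb, map_zero]
      obtain ⟨y, hy⟩ := IsIntegrallyClosed.isIntegral_iff.1 h2
      rw [← hy]
      exact y.2
    refine ⟨t, fun x hx => ?_⟩
    refine mulA_induction (P := fun x => x ∈ V) ?_ (fun x y => V.add_mem x y) hx.1
    rintro a ha _ ⟨b, rfl⟩
    exact V.mul_mem _ _ (ht a ha) (hBV b)

end setup

end Pool.Agent.Q40.FC
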