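import Pool.Agent.Q40.FC.Main

/-! The resolution of a variety `Y` with a finite cover `X → Y` and a rational map `Y → P` to a
projective variety. -/

set_option autoImplicit false
set_option linter.unusedSectionVars false

universe u

open Finset

namespace Pool.Agent.Q40.FC

open Pool.Agent.W558 Pool.Agent.H920R2 Pool.Agent.Q40.RS Pool.Agent.Q40.FF Pool.Agent.W418.LCI AlgebraicGeometry
  CategoryTheory

/-- A smooth projective model of the field `K`. -/
structure PM (k K : Type u) [Field k] [Field K] [Algebra k K] (T : Type) where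
  /-- the charts -/
  A : T → Subalgebra k K
  /-- the homogeneous coordinates -/
  H : T → K
  sm : ∀ t, Algebra.Smooth k (A t)
  H0 : ∀ t, H t ≠ 0
  rt : ∀ t t', H t' / H t ∈ A t
  gl : ∀ t t', ∀ f ∈ A t', ∃ n : ℕ, (H t' / H t) ^ n * f ∈ A t
  cv : ∀ V : ValuationSubring K, (∀ a : k, algebraMap k K a ∈ V) → ∃ t, ∀ f ∈ A t, f ∈ V

section closure

variable {G : Type*} [CommGroup G]

theorem exists_finset_closure (s : Set G) {x : G} (hx : x ∈ Subgroup.closure s) :
    ∃ T : Finset G, (T : Set G) ⊆ s ∧ x ∈ Subgroup.closure (T : Set G) := by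
  classical
  induction hx using Subgroup.closure_induction with
  | mem x hx =>
    exact ⟨{x}, by simpa using hx, Subgroup.subset_closure (by simp)⟩
  | one => exact ⟨∅, by simp, Subgroup.one_mem _⟩
  | mul x y _ _ hx hy =>
    obtain ⟨T, hT, h1⟩ := hx
    obtain ⟨T', hT', h2⟩ := hy
    refine ⟨T ∪ T', ?_, Subgroup.mul_mem _ ?_ ?_⟩
    · rw [Finset.coe_union]; exact Set.union_subset hT hT'
    · exact Subgroup.closure_mono (by rw [Finset.coe_union]; exact Set.subset_union_left) h1
    · exact Subgroup.closure_mono (by rw [Finset.coe_union]; exact Set.subset_union_right) h2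
  | inv x _ hx =>
    obtain ⟨T, hT, h1⟩ := hx
    exact ⟨T, hT, Subgroup.inv_mem _ h1⟩

theorem exists_finset_closure' (s : Set G) {ι : Type*} [Finite ι] (g : ι → G)
    (hS : ∀ i, g i ∈ Subgroup.closure s) :
    ∃ T : Finset G, (T : Set G) ⊆ s ∧ ∀ i, g i ∈ Subgroup.closure (T : Set G) := by
  classical
  have := Fintype.ofFinite ι
  choose T hT h1 using fun i => exists_finset_closure s (hS i)
  refine ⟨Finset.univ.biUnion T, ?_, fun i => ?_⟩
  · rw [Finset.coe_biUnion]
    exact Set.iUnion₂_subset fun x _ => hT x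
  · refine Subgroup.closure_mono ?_ (h1 i)
    exact Finset.coe_subset.2 (Finset.subset_biUnion_of_mem T (Finset.mem_univ i))

end closure

/-- Functions which are products of elements of a finite-dimensional space over `E` (containing
`1` and with no relations) are pairwise comparable on some smooth projective model. -/
theorem exists_pm (p : ℕ) [Fact p.Prime] (k E K : Type u) [Field k] [PerfectField k] [CharP k p]
    [Field E] [Algebra k E] [Field K] [Algebra E K] [Algebra k K] [IsScalarTower k E K]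
    (hE : HasLM k E) (V : Submodule E K) [FiniteDimensional E V] (h1 : (1 : K) ∈ V)
    (hgen : IntermediateField.adjoin E (V : Set K) = ⊤)
    (htr : Algebra.trdeg E K + 1 = ((Module.finrank E V : ℕ) : Cardinal.{u}))
    (G : Type) [Finite G] (g : G → Kˣ)
    (hg : ∀ a, g a ∈ Subgroup.closure {x : Kˣ | (x : K) ∈ V}) :
    ∃ (T : Type) (_ : Finite T) (P : PM k K T),
      ∀ t a b, (g a : K) / g b ∈ P.A t ∨ (g b : K) / g a ∈ P.A t := by
  classical
  have : Fintype G := Fintype.ofFinite G
  obtain ⟨T0, hT0, hgT⟩ := exists_finset_closure' _ g hg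
  let N := T0.card
  let tt : Fin N → Kˣ := fun i => (T0.equivFin.symm i).1
  have htt : ∀ i, (tt i : K) ∈ V := fun i => hT0 (T0.equivFin.symm i).2
  have htr' : Set.range tt = T0 := by
    ext x
    constructor
    · rintro ⟨i, rfl⟩; exact (T0.equivFin.symm i).2
    · intro hx
      exact ⟨T0.equivFin ⟨x, hx⟩, by
        change (T0.equivFin.symm (T0.equivFin ⟨x, hx⟩)).1 = x
        rw [Equiv.symm_apply_apply]⟩
  let u : Fin N → K := fun i => tt i
  let d : ∀ _ : Fin 1, Fin 2 → Fin 1 → ℕ := fun _ i _ => if i = 0 then 1 else 0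
  let c : ∀ _ : Fin 1, Fin 2 → E := fun _ i => if i = 0 then 1 else -1
  obtain ⟨Q, Ds, hst, -⟩ := exists_sta' p k E K hE 1 (fun _ => V)
    (by rw [Set.iUnion_const]; exact hgen) 1 (fun _ => Fin 2) (fun _ => 0) c
    (by intro j i; change (if i = 0 then (1 : E) else -1) ≠ 0; split_ifs <;> simp)
    d (fun _ _ _ _ => 1) (fun _ _ _ _ => h1) (fun _ _ _ _ => one_ne_zero)
    (fun _ _ _ => 0) (fun _ => 0) (fun _ _ _ h => absurd rfl h)
    (by
      intro j
      rw [Fin.sum_univ_two]
      simp [c, d])
    (fun _ _ => 1) (by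
      intro j
      funext s
      simp [dg, d])
    (by
      let q0 : (j : Fin 1) × {i : Fin 2 // i ≠ 0} := ⟨0, 1, by decide⟩
      have : Subsingleton ((j : Fin 1) × {i : Fin 2 // i ≠ 0}) := by
        constructor
        rintro ⟨j, i, hi⟩ ⟨j', i', hi'⟩
        obtain rfl : j = j' := Subsingleton.elim _ _
        have : i = i' := by omega
        subst this
        rfl
      refine LinearIndependent.of_subsingleton' (R := ZMod p) (i := q0) ?_
      intro a h
      have h2 := congrFun h 0
      simpa [dg, d, q0] using h2)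
    (by
      have h2 : Nat.card {j : Fin 1 // (0 : K) = 0} = 1 := by simp
      rw [h2]
      simpa using htr)
    (Fin 0) Fin.elim0 (fun b => b.elim0) (Fin N) u (fun _ => 0) (fun q => htt q)
    (fun q => (tt q).ne_zero)
  obtain ⟨-, -, -, T, I, i1, i2, i3, M, Γ, -, -, hFn, -, -⟩ := hst
  -- the exponents
  have hex : ∀ a, ∃ e : Fin N → ℤ, g a = ∏ i, tt i ^ e i := by
    intro a
    have h2 : g a ∈ Subgroup.closure (Set.range tt) := by
      rw [htr']
      exact hgT a
    obtain ⟨e, he⟩ := Subgroup.mem_closure_range_iff_of_fintype.1 h2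
    exact ⟨e, he⟩
  choose e he using hex
  have he' : ∀ a, (g a : K) = ∏ i, u i ^ e a i := by
    intro a
    rw [he a, Units.coe_prod]
    refine Finset.prod_congr rfl fun i _ => ?_
    rw [Units.val_zpow_eq_zpow_val]
  let g' : G → K := fun a => ∏ i, u i ^ e a i
  have hg' : ∀ a, (g a : K) = g' a := he'
  have hF1 : Fn M g' _ := fn_mono (hFn.comp fun i : Fin N => Sum.inr (Sum.inl i)) e
  obtain ⟨T', I', hT', hI', _, M', Γ', hExt, hC⟩ := princ_all g' M _
  refine ⟨T', hT', ⟨M'.A, M'.H, M'.sm, M'.H0, M'.rt, M'.gl, fun V hV => M'.cv V ?_⟩,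
    fun t a b => ?_⟩
  · intro a ha
    obtain ⟨x, rfl⟩ := Algebra.mem_bot.1 ha
    exact hV x
  · rw [hg', hg']
    rcases hC a b t with h | h
    · exact Or.inr (fn_cmp (hExt.fn hF1) b a t h)
    · exact Or.inl (fn_cmp (hExt.fn hF1) a b t h)

section setup

variable {k B E L : Type u} [Field k] [PerfectField k] [CommRing B] [IsDomain B] [Algebra k B] [Field E]
  [Algebra k E] [Field L] [Algebra k L] [Algebra B L] [IsScalarTower k B L] [Algebra E L]
  [IsScalarTower k E L] [IsFractionRing B L]

/-- The elements of `E` which are regular functions on `Spec B`. -/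
noncomputable def capE (k B E L : Type u) [Field k] [CommRing B] [Algebra k B] [Field E]
    [Algebra k E] [Field L] [Algebra k L] [Algebra B L] [IsScalarTower k B L] [Algebra E L]
    [IsScalarTower k E L] : Subalgebra k E :=
  (img k B L).comap (IsScalarTower.toAlgHom k E L)

theorem mem_capE {x : E} : x ∈ capE k B E L ↔ ∃ b : B, algebraMap B L b = algebraMap E L x :=
  Iff.rfl

/-- The resolution of the quotient. -/
theorem main2 {T : Type} [Finite T] (P : PM k E T) (F : IntermediateField E L)
    (hint : ∀ b : B, IsIntegral (cF k B F) b)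
    (hfr : ∀ x : E, ∃ a ∈ capE k B E L, ∃ b ∈ capE k B E L, b ≠ 0 ∧ x = a * b⁻¹)
    (hsm : ∀ t, Algebra.Smooth k (infM (mulA (P.A t) (img k B L)) F)) :
    HasResolution (X := Spec (CommRingCat.of (cF k B F)))
      (Spec.map (CommRingCat.ofHom (algebraMap k (cF k B F)))) := by
  classical
  have : Fintype T := Fintype.ofFinite T
  have hBL : Function.Injective (algebraMap B L) := IsFractionRing.injective B L
  let Bt : T → Subalgebra k L := fun t => mulA (P.A t) (img k B L)
  have hEF : ∀ x : E, algebraMap E L x ∈ F := fun x => F.algebraMap_mem x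
  -- generators
  have hfg : ∀ t, ∃ y : Finset E, P.A t = Algebra.adjoin k (y : Set E) := by
    intro t
    have := P.sm t
    have h1 : Algebra.FiniteType k (P.A t) := inferInstance
    obtain ⟨y, hy⟩ := (P.A t).fg_iff_finiteType.2 h1
    exact ⟨y, hy.symm⟩
  choose y hy using hfg
  set R := capE k B E L with hRdef
  obtain ⟨c, hcR, hc0, hc⟩ := Pool.Agent.W22.W558Restr.exists_den R hfr
    (Finset.univ.image P.H ∪ Finset.univ.biUnion fun t => (y t).image fun z => P.H t * z)
  have hcH : ∀ t, c * P.H t ∈ R := fun t =>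
    hc _ (Finset.mem_union_left _ (Finset.mem_image_of_mem _ (Finset.mem_univ t)))
  have hcHy : ∀ t, ∀ z ∈ y t, c * (P.H t * z) ∈ R := fun t z hz =>
    hc _ (Finset.mem_union_right _ (Finset.mem_biUnion.2 ⟨t, Finset.mem_univ t,
      Finset.mem_image_of_mem _ hz⟩))
  have hdn1 : ∀ t, ∀ f ∈ P.A t, ∃ n : ℕ, (c * P.H t) ^ n * f ∈ R := by
    intro t f hf
    have hmono : ∀ (n m : ℕ) (f : E), n ≤ m → (c * P.H t) ^ n * f ∈ R →
        (c * P.H t) ^ m * f ∈ R := by
      intro n m f hnm h
      obtain ⟨e, rfl⟩ := Nat.exists_eq_add_of_le hnm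
      rw [add_comm, pow_add, mul_assoc]
      exact R.mul_mem (R.pow_mem (hcH t) e) h
    rw [hy t] at hf
    induction hf using Algebra.adjoin_induction with
    | mem x hx =>
      refine ⟨1, ?_⟩
      rw [pow_one, mul_assoc]
      exact hcHy t x hx
    | algebraMap a => exact ⟨0, by rw [pow_zero, one_mul]; exact R.algebraMap_mem a⟩
    | add a b _ _ ha hb =>
      obtain ⟨n, hn⟩ := ha
      obtain ⟨m, hm⟩ := hb
      refine ⟨max n m, ?_⟩
      rw [mul_add]
      exact R.add_mem (hmono _ _ _ (le_max_left _ _) hn) (hmono _ _ _ (le_max_right _ _) hm)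
    | mul a b _ _ ha hb =>
      obtain ⟨n, hn⟩ := ha
      obtain ⟨m, hm⟩ := hb
      refine ⟨n + m, ?_⟩
      rw [pow_add, mul_mul_mul_comm]
      exact R.mul_mem hn hm
  have hrat : ∀ t t', (c * P.H t') / (c * P.H t) = P.H t' / P.H t := by
    intro t t'
    rw [mul_div_mul_left _ _ hc0]
  -- the atlas
  let gC : cF k B F →ₐ[k] L := (IsScalarTower.toAlgHom k B L).comp (cF k B F).val
  have hgC : ∀ a : cF k B F, gC a = algebraMap B L a.1 := fun a => rfl
  have hinj : Function.Injective gC := hBL.comp Subtype.val_injective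
  refine hasResolution_of_atl gC hinj (T := T) (C := fun t => infM (Bt t) F)
    (H := fun t => algebraMap E L (c * P.H t))
    { sm := hsm
      aa := fun t a => ⟨le_mulA' _ ⟨a.1, rfl⟩, a.2⟩
      H0 := fun t => (map_ne_zero _).2 (mul_ne_zero hc0 (P.H0 t))
      hA := ?_
      rt := ?_
      gl := ?_
      dn := ?_
      cv := ?_ }
  · intro t
    obtain ⟨b, hb⟩ := hcH t
    have hb' : algebraMap B L b = algebraMap E L (c * P.H t) := hb
    refine ⟨⟨b, ?_⟩, ?_⟩
    · rw [mem_cF, hb']
      exact hEF _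
    · rw [hgC]
      exact hb'.symm
  · intro t t'
    rw [← map_div₀, hrat]
    exact ⟨le_mulA _ (P.rt t t'), hEF _⟩
  · intro t t' x hx
    have h1 : ∃ n : ℕ, (algebraMap E L (P.H t' / P.H t)) ^ n * x ∈ Bt t := by
      refine mulA_induction (P := fun x => ∃ n : ℕ,
        (algebraMap E L (P.H t' / P.H t)) ^ n * x ∈ Bt t) ?_ ?_ hx.1
      · intro a ha b hb
        obtain ⟨n, hn⟩ := P.gl t t' a ha
        refine ⟨n, ?_⟩
        rw [← mul_assoc, ← map_pow, ← map_mul]
        exact (Bt t).mul_mem (le_mulA _ hn) (le_mulA' _ hb)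
      · rintro x y ⟨n, hn⟩ ⟨m, hm⟩
        refine ⟨n + m, ?_⟩
        have hr : algebraMap E L (P.H t' / P.H t) ∈ Bt t := le_mulA _ (P.rt t t')
        have h2 : (algebraMap E L (P.H t' / P.H t)) ^ (n + m) * (x + y) =
            (algebraMap E L (P.H t' / P.H t)) ^ m *
              ((algebraMap E L (P.H t' / P.H t)) ^ n * x) +
            (algebraMap E L (P.H t' / P.H t)) ^ n *
              ((algebraMap E L (P.H t' / P.H t)) ^ m * y) := by ring
        rw [h2]
        exact (Bt t).add_mem ((Bt t).mul_mem ((Bt t).pow_mem hr _) hn)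
          ((Bt t).mul_mem ((Bt t).pow_mem hr _) hm)
    obtain ⟨n, hn⟩ := h1
    refine ⟨n, ?_⟩
    rw [← map_div₀, hrat]
    exact ⟨hn, F.mul_mem (pow_mem (hEF _) _) hx.2⟩
  · intro t x hx
    have hH : algebraMap E L (c * P.H t) ∈ img k B L := hcH t
    have h1 : ∃ n : ℕ, (algebraMap E L (c * P.H t)) ^ n * x ∈ img k B L := by
      refine mulA_induction (P := fun x => ∃ n : ℕ,
        (algebraMap E L (c * P.H t)) ^ n * x ∈ img k B L) ?_ ?_ hx.1
      · intro a ha b hb
        obtain ⟨n, hn⟩ := hdn1 t a ha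
        refine ⟨n, ?_⟩
        rw [← mul_assoc, ← map_pow, ← map_mul]
        exact (img k B L).mul_mem hn hb
      · rintro x y ⟨n, hn⟩ ⟨m, hm⟩
        refine ⟨n + m, ?_⟩
        have h2 : (algebraMap E L (c * P.H t)) ^ (n + m) * (x + y) =
            (algebraMap E L (c * P.H t)) ^ m * ((algebraMap E L (c * P.H t)) ^ n * x) +
            (algebraMap E L (c * P.H t)) ^ n * ((algebraMap E L (c * P.H t)) ^ m * y) := by ring
        rw [h2]
        exact (img k B L).add_mem ((img k B L).mul_mem ((img k B L).pow_mem hH _) hn)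
          ((img k B L).mul_mem ((img k B L).pow_mem hH _) hm)
    obtain ⟨n, b, hb⟩ := h1
    have hb' : algebraMap B L b = (algebraMap E L (c * P.H t)) ^ n * x := hb
    refine ⟨n, ⟨b, ?_⟩, ?_⟩
    · rw [mem_cF, hb']
      exact F.mul_mem (pow_mem (hEF _) _) hx.2
    · rw [hgC]
      exact hb'.symm
  · intro V hV
    have hkV : ∀ a : k, algebraMap k E a ∈ V.comap (algebraMap E L) := by
      intro a
      change algebraMap E L (algebraMap k E a) ∈ V
      have h1 := hV (algebraMap k (cF k B F) a)
      rw [hgC] at h1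
      rw [← IsScalarTower.algebraMap_apply k E L, IsScalarTower.algebraMap_apply k B L]
      exact h1
    obtain ⟨t, ht⟩ := P.cv _ hkV
    have hBV : ∀ b : B, algebraMap B L b ∈ V := by
      intro b
      obtain ⟨Q, hQ, hQb⟩ := hint b
      let φ : cF k B F →+* V :=
        { toFun := fun x => ⟨algebraMap B L x.1, hV x⟩
          map_one' := Subtype.ext (map_one (algebraMap B L))
          map_mul' := fun x y => Subtype.ext (map_mul (algebraMap B L) _ _)
          map_zero' := Subtype.ext (map_zero (algebraMap B L))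
          map_add' := fun x y => Subtype.ext (map_add (algebraMap B L) _ _) }
      have h2 : IsIntegral V (algebraMap B L b) := by
        refine ⟨Q.map φ, hQ.map φ, ?_⟩
        rw [Polynomial.eval₂_map]
        have h1 : (algebraMap V L).comp φ =
            (algebraMap B L).comp (algebraMap (cF k B F) B) := rfl
        rw [h1, ← Polynomial.hom_eval₂, hQb, map_zero]
      obtain ⟨z, hz⟩ := IsIntegrallyClosed.isIntegral_iff.1 h2
      rw [← hz]
      exact z.2
    refine ⟨t, fun x hx => ?_⟩
    refine mulA_induction (P := fun x => x ∈ V) ?_ (fun x y => V.add_mem x y) hx.1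
    rintro a ha _ ⟨b, rfl⟩
    exact V.mul_mem _ _ (ht a ha) (hBV b)

end setup

end Pool.Agent.Q40.FC
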