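import Pool.Agent.Q40.FC.Hopf2
import Pool.Agent.Q40.FC.Cov

/-! Subgroup schemes of free actions; the projective theorem for constant relations. -/

set_option autoImplicit false
set_option linter.unusedSectionVars false

universe u

open Finset TensorProduct

namespace Pool.Agent.Q40.FC

open Pool.Agent.W558 Pool.Agent.H920R2 Pool.Agent.Q40.RS Pool.Agent.Q40.FF Pool.Agent.W418.LCI

section sub

variable {k E L : Type u} [Field k] [Field E] [Field L] [Algebra k E] [Algebra k L]
  [Algebra E L] [IsScalarTower k E L] {P Q : Type u} [CommRing P] [HopfAlgebra E P]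
  [CommRing Q] [HopfAlgebra E Q] (q : P →ₐc[E] Q) (τ : L →ₐ[E] L ⊗[E] P)

/-- The restriction of an action to a subgroup scheme. -/
noncomputable def restr : L →ₐ[E] L ⊗[E] Q :=
  (Algebra.TensorProduct.map (AlgHom.id E L) (q : P →ₐ[E] Q)).comp τ

theorem restr_apply (x : L) : restr q τ x =
    TensorProduct.map LinearMap.id ((q : P →ₐ[E] Q)).toLinearMap (τ x) := rfl

theorem isCoaction_restr (hτ : IsCoaction τ) : IsCoaction (restr q τ) := by
  constructor
  · intro x
    have h1 : ∀ w : L ⊗[E] P, TensorProduct.map (restr q τ).toLinearMap (LinearMap.id : Q →ₗ[E] Q)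
        (TensorProduct.map LinearMap.id ((q : P →ₐ[E] Q)).toLinearMap w) =
        TensorProduct.map (TensorProduct.map LinearMap.id ((q : P →ₐ[E] Q)).toLinearMap)
          ((q : P →ₐ[E] Q)).toLinearMap (TensorProduct.map τ.toLinearMap LinearMap.id w) := by
      intro w
      induction w using TensorProduct.induction_on with
      | zero => simp only [map_zero]
      | tmul x p => rfl
      | add u v hu hv => simp only [map_add, hu, hv]
    rw [restr_apply, h1, hτ.coassoc]
    have h2 : ∀ (x : L) (t : P ⊗[E] P),
        TensorProduct.map (TensorProduct.map LinearMap.id ((q : P →ₐ[E] Q)).toLinearMap)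
          ((q : P →ₐ[E] Q)).toLinearMap ((TensorProduct.assoc E L P P).symm (x ⊗ₜ[E] t)) =
        (TensorProduct.assoc E L Q Q).symm (x ⊗ₜ[E] TensorProduct.map
          ((q : P →ₐ[E] Q)).toLinearMap ((q : P →ₐ[E] Q)).toLinearMap t) := by
      intro x t
      induction t using TensorProduct.induction_on with
      | zero => simp only [TensorProduct.tmul_zero, map_zero]
      | tmul p p' => simp
      | add u v hu hv => simp only [TensorProduct.tmul_add, map_add, hu, hv]
    have h3 : ∀ w : L ⊗[E] P,
        TensorProduct.map (TensorProduct.map LinearMap.id ((q : P →ₐ[E] Q)).toLinearMap)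
          ((q : P →ₐ[E] Q)).toLinearMap ((TensorProduct.assoc E L P P).symm
            (TensorProduct.map LinearMap.id (Coalgebra.comul (R := E)) w)) =
        (TensorProduct.assoc E L Q Q).symm (TensorProduct.map LinearMap.id
          (Coalgebra.comul (R := E))
          (TensorProduct.map LinearMap.id ((q : P →ₐ[E] Q)).toLinearMap w)) := by
      intro w
      induction w using TensorProduct.induction_on with
      | zero => simp only [map_zero]
      | tmul x p =>
        rw [TensorProduct.map_tmul, TensorProduct.map_tmul, TensorProduct.map_tmul,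
          LinearMap.id_apply, h2]
        congr 2
        exact CoalgHomClass.map_comp_comul_apply q p
      | add u v hu hv => simp only [map_add, hu, hv]
    exact h3 _
  · intro x
    have h1 : ∀ w : L ⊗[E] P, TensorProduct.map LinearMap.id (Coalgebra.counit (R := E))
        (TensorProduct.map LinearMap.id ((q : P →ₐ[E] Q)).toLinearMap w) =
        TensorProduct.map (LinearMap.id : L →ₗ[E] L) (Coalgebra.counit (R := E)) w := by
      intro w
      induction w using TensorProduct.induction_on with
      | zero => simp only [map_zero]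
      | tmul x p =>
        rw [TensorProduct.map_tmul, TensorProduct.map_tmul, TensorProduct.map_tmul]
        congr 1
        exact CoalgHomClass.counit_comp_apply q p
      | add u v hu hv => simp only [map_add, hu, hv]
    rw [restr_apply, h1, hτ.counit]

theorem coinv_restr {x : L} (hx : x ∈ coinv τ) : x ∈ coinv (restr q τ) := by
  rw [mem_coinv, restr_apply, (mem_coinv τ).1 hx, TensorProduct.map_tmul]
  congr 1
  exact map_one q

theorem isConst_restr (hq : Function.Surjective q) (B : Subalgebra k L) (V : Set P)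
    (hV : Submodule.span E V = ⊤)
    (hB : Submodule.span B (τ '' (B : Set L)) =
      Submodule.span B ((fun v => (1 : L) ⊗ₜ[E] v) '' V)) : IsConst (restr q τ) B := by
  refine ⟨q '' V, ?_, ?_⟩
  · have h1 : Submodule.map ((q : P →ₐ[E] Q)).toLinearMap (Submodule.span E V) =
        Submodule.span E (q '' V) := Submodule.map_span _ _
    rw [← h1, hV, Submodule.map_top, LinearMap.range_eq_top]
    exact hq
  · let f : (L ⊗[E] P) →ₗ[B] (L ⊗[E] Q) :=
      { toFun := fun w => TensorProduct.map LinearMap.id ((q : P →ₐ[E] Q)).toLinearMap w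
        map_add' := fun u v => map_add _ u v
        map_smul' := by
          intro b w
          induction w using TensorProduct.induction_on with
          | zero => simp only [smul_zero, map_zero]
          | tmul x p => rfl
          | add u v hu hv => simp only [smul_add, map_add, hu, hv] }
    have h1 : Submodule.span B ((restr q τ) '' (B : Set L)) =
        Submodule.map f (Submodule.span B (τ '' (B : Set L))) := by
      rw [Submodule.map_span]
      congr 1
      ext w
      constructor
      · rintro ⟨b, hb, rfl⟩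
        exact ⟨_, ⟨b, hb, rfl⟩, rfl⟩
      · rintro ⟨_, ⟨b, hb, rfl⟩, rfl⟩
        exact ⟨b, hb, rfl⟩
    rw [h1, hB, Submodule.map_span]
    congr 1
    ext w
    constructor
    · rintro ⟨_, ⟨v, hv, rfl⟩, rfl⟩
      exact ⟨q v, ⟨v, hv, rfl⟩, rfl⟩
    · rintro ⟨_, ⟨v, hv, rfl⟩, rfl⟩
      exact ⟨_, ⟨v, hv, rfl⟩, rfl⟩

end sub

section proj

variable {k E L : Type} [Field k] [Field E] [Field L] [Algebra k E] [Algebra k L] [Algebra E L]
  [IsScalarTower k E L] {m n l : ℕ} (s : Fin (m + 1) → E) (y : Fin (n + 1) → L) (z : Fin l → L)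

/-- The model of the function field of the quotient, for relations given by frames. -/
theorem main_frame (p : ℕ) [Fact p.Prime] [PerfectField k] [CharP k p] (hE : HasLM k E)
    (hs : ∀ j, s j ≠ 0) (hy : ∀ a, y a ≠ 0)
    (hEfr : ∀ j (x : E), ∃ a ∈ bch k s j, ∃ b ∈ bch k s j, b ≠ 0 ∧ x = a / b)
    (hLfr : ∀ j a (x : L), ∃ b ∈ cch k s y z j a, ∃ c ∈ cch k s y z j a, c ≠ 0 ∧ x = b / c)
    (hsm : ∀ j a, (crho (k := k) s y z j a).Smooth)
    (F : IntermediateField E L) (hyF : ∀ a b, y b / y a ∈ F)
    (hint : ∀ j a c, IsIntegral (Algebra.adjoin k ((Set.range fun i => algebraMap E L (s i / s j)) ∪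
      Set.range fun b => y b / y a)) (z c / y a))
    {ι : Type} [Fintype ι] [DecidableEq ι] (e : Module.Basis ι F L)
    {T : Type} [CommRing T] [Algebra L T] [Algebra E T] [IsScalarTower E L T] (σ : L →+* T)
    (hσ : ∀ x ∈ F, σ x = algebraMap L T x) (eT : Module.Basis ι L T) (heT : ∀ i, eT i = σ (e i))
    (V : Fin (m + 1) → Fin (n + 1) → Set T)
    (hV : ∀ j a, Submodule.span (cch k s y z j a) (σ '' (cch k s y z j a : Set L)) =
      Submodule.span (cch k s y z j a) (V j a)) (w : Fin (m + 1) → Fin (n + 1) → ι → T)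
    (hw : ∀ j a, ∀ v ∈ V j a, v ∈ Submodule.span E (Set.range (w j a))) :
    ∃ (T : Type) (_ : Finite T) (M : LM (⊥ : Subalgebra k F) ⊤ T Empty),
      ∀ t (x : F), ∃ b ∈ M.A t, ∃ c ∈ M.A t, c ≠ 0 ∧ x = b / c := by
  have hfd : FiniteDimensional F L := Module.Finite.of_basis e
  have hfg : ∀ j a, Algebra.FiniteType k (cch k s y z j a) := by
    intro j a
    refine (Subalgebra.fg_iff_finiteType _).1 ?_
    refine Subalgebra.fg_def.2 ⟨_, ?_, rfl⟩
    exact (Set.finite_range _).union ((Set.finite_range _).union (Set.finite_range _))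
  have hint' : ∀ j a, ∀ x ∈ cch k s y z j a, IsIntegral (infM (cch k s y z j a) F) x := by
    intro j a x hx
    have hEF : ∀ x : E, algebraMap E L x ∈ F := fun x => F.algebraMap_mem x
    have hle : Algebra.adjoin k ((Set.range fun i => algebraMap E L (s i / s j)) ∪
        Set.range fun b => y b / y a) ≤ infM (cch k s y z j a) F := by
      refine Algebra.adjoin_le ?_
      rintro _ (⟨i, rfl⟩ | ⟨b, rfl⟩)
      · exact ⟨Algebra.subset_adjoin (Or.inl ⟨i, rfl⟩), hEF _⟩
      · exact ⟨Algebra.subset_adjoin (Or.inr (Or.inl ⟨b, rfl⟩)), hyF _ _⟩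
    induction hx using Algebra.adjoin_induction with
    | mem x hx =>
      rcases hx with ⟨i, rfl⟩ | ⟨b, rfl⟩ | ⟨c, rfl⟩
      · exact isIntegral_algebraMap (R := infM (cch k s y z j a) F)
          (x := ⟨_, hle (Algebra.subset_adjoin (Or.inl ⟨i, rfl⟩))⟩)
      · exact isIntegral_algebraMap (R := infM (cch k s y z j a) F)
          (x := ⟨_, hle (Algebra.subset_adjoin (Or.inr ⟨b, rfl⟩))⟩)
      · obtain ⟨P, hP, hPc⟩ := hint j a c
        refine ⟨P.map (Subalgebra.inclusion hle).toRingHom, hP.map _, ?_⟩
        rw [Polynomial.eval₂_map]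
        exact hPc
    | algebraMap c =>
      exact isIntegral_algebraMap (R := infM (cch k s y z j a) F) (x := algebraMap k _ c)
    | add x y _ _ hx hy => exact hx.add hy
    | mul x y _ _ hx hy => exact hx.mul hy
  have hdisc : ∀ j a, ∃ (lam : L) (δ : (ι → cch k s y z j a) → cch k s y z j a)
      (I : Ideal (bch k s j)), lam ≠ 0 ∧ I ≠ ⊥ ∧
      (∀ c : ι → cch k s y z j a, (e.det (fun i => (c i : L)) : L) = lam * δ c) ∧
      Ideal.span (Set.range δ) = I.map (crho s y z j a) := by
    intro j a
    have := hfg j a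
    exact disc_of_frame F e σ hσ eT heT (bch k s j)
      (fun x => by
        obtain ⟨a, ha, b, hb, hb0, h1⟩ := hEfr j x
        exact ⟨a, ha, b, hb, hb0, by rw [h1, div_eq_mul_inv]⟩)
      (cch k s y z j a)
      (fun x => by
        obtain ⟨a, ha, b, hb, hb0, h1⟩ := hLfr j a x
        exact ⟨a, ha, b, hb, hb0, by rw [h1, div_eq_mul_inv]⟩)
      (hint' j a) (crho s y z j a) (fun x => crho_coe s y z _ _ x) (V j a) (hV j a) (w j a)
      (hw j a)
  choose lam δ I hlam hI0 hδ hI using hdisc
  exact main_cov s y z p hE hs hy hEfr hLfr hsm F hyF hint e lam hlam δ hδ I hI0 hI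

end proj

end Pool.Agent.Q40.FC
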